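import Pool.Agent.Helper25_Cong.Basic

open Finset

set_option linter.unusedSimpArgs false
set_option linter.unusedVariables false

noncomputable section

namespace Pool.Agent.H25Cong

variable {n : ℕ}

lemma B_split (x y : V n) : B x y = (∑ i : Fin n, x i.succ * y i.succ) - x 0 * y 0 := by
  unfold B
  rw [Fin.sum_univ_succ]
  ring

lemma spat_cs (x y : V n) : (∑ i : Fin n, x i.succ * y i.succ) ^ 2 ≤
    (∑ i : Fin n, x i.succ * x i.succ) * (∑ i : Fin n, y i.succ * y i.succ) := by
  have h := Finset.sum_mul_sq_le_sq_mul_sq Finset.univ (fun i : Fin n => x i.succ)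
    (fun i : Fin n => y i.succ)
  simpa [sq] using h

lemma spat_nonneg (x : V n) : 0 ≤ ∑ i : Fin n, x i.succ * x i.succ :=
  Finset.sum_nonneg fun i _ => mul_self_nonneg _

/-- the orthogonal complement of a timelike vector is positive semidefinite -/
lemma perp_nonneg {v x : V n} (hv : B v v < 0) (hx : B x v = 0) : 0 ≤ B x x := by
  have h1 := spat_cs x v
  rw [B_split] at hv hx ⊢
  set a := ∑ i : Fin n, x i.succ * v i.succ
  set b := ∑ i : Fin n, x i.succ * x i.succ with hb
  set c := ∑ i : Fin n, v i.succ * v i.succ with hc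
  have hb0 : 0 ≤ b := spat_nonneg x
  have hc0 : 0 ≤ c := spat_nonneg v
  have ha : a = x 0 * v 0 := by linarith
  rw [ha] at h1
  have hv0 : 0 < v 0 * v 0 := by linarith
  have h2 : b * c ≤ b * (v 0 * v 0) := mul_le_mul_of_nonneg_left (by linarith) hb0
  have h3 : (x 0 * x 0) * (v 0 * v 0) ≤ b * (v 0 * v 0) := by nlinarith
  have h4 := le_of_mul_le_mul_right h3 hv0
  linarith

/-- ... and definite -/
lemma perp_eq_zero {v x : V n} (hv : B v v < 0) (hx : B x v = 0) (hxx : B x x = 0) : x = 0 := by
  have h1 := spat_cs x v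
  rw [B_split] at hv hx hxx
  set a := ∑ i : Fin n, x i.succ * v i.succ
  set b := ∑ i : Fin n, x i.succ * x i.succ with hb
  set c := ∑ i : Fin n, v i.succ * v i.succ with hc
  have hb0 : 0 ≤ b := spat_nonneg x
  have hc0 : 0 ≤ c := spat_nonneg v
  have ha : a = x 0 * v 0 := by linarith
  rw [ha] at h1
  have hv0 : 0 < v 0 * v 0 := by linarith
  have hb' : b = x 0 * x 0 := by linarith
  have h2 : (x 0 * x 0) * (v 0 * v 0 - c) ≤ 0 := by nlinarith
  have h3 : x 0 * x 0 ≤ 0 := by
    by_contra hcon
    push Not at hcon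
    have : 0 < (x 0 * x 0) * (v 0 * v 0 - c) := mul_pos hcon (by linarith)
    linarith
  have hx0 : x 0 = 0 := by nlinarith [mul_self_nonneg (x 0)]
  have hb00 : b = 0 := by rw [hb', hx0]; ring
  have h5 : ∀ i : Fin n, x i.succ = 0 := by
    intro i
    have := (Finset.sum_eq_zero_iff_of_nonneg (s := Finset.univ)
      (f := fun i : Fin n => x i.succ * x i.succ) (fun i _ => mul_self_nonneg _)).1 hb00 i
      (Finset.mem_univ i)
    exact mul_self_eq_zero.1 this
  ext i
  refine Fin.cases ?_ ?_ i
  · simpa using hx0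
  · intro j
    simpa using h5 j

/-- the reversed Cauchy-Schwarz inequality -/
lemma rev_cs {v : V n} (hv : B v v < 0) (x : V n) : B x x * B v v ≤ B x v ^ 2 := by
  have hvv : B v v ≠ 0 := ne_of_lt hv
  have h0 : B (x - (B x v / B v v) • v) v = 0 := by
    rw [B_sub_left, B_smul_left]
    field_simp
    ring
  have h1 := perp_nonneg hv h0
  have h2 : B (x - (B x v / B v v) • v) (x - (B x v / B v v) • v) =
      B x x - B x v ^ 2 / B v v := by
    simp only [B_sub_left, B_sub_right, B_smul_left, B_smul_right, B_comm v x]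
    field_simp
    ring
  rw [h2] at h1
  have h3 : (B x x - B x v ^ 2 / B v v) * B v v ≤ 0 :=
    mul_nonpos_of_nonneg_of_nonpos h1 hv.le
  have h4 : (B x x - B x v ^ 2 / B v v) * B v v = B x x * B v v - B x v ^ 2 := by
    field_simp
    try ring
  linarith

lemma rev_cs_eq {v : V n} (hv : B v v < 0) {x : V n} (h : B x x * B v v = B x v ^ 2) :
    x = (B x v / B v v) • v := by
  have hvv : B v v ≠ 0 := ne_of_lt hv
  have h0 : B (x - (B x v / B v v) • v) v = 0 := by
    rw [B_sub_left, B_smul_left]
    field_simp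
    ring
  have h2 : B (x - (B x v / B v v) • v) (x - (B x v / B v v) • v) = 0 := by
    have : B (x - (B x v / B v v) • v) (x - (B x v / B v v) • v) =
      (B x x * B v v - B x v ^ 2) / B v v := by
      simp only [B_sub_left, B_sub_right, B_smul_left, B_smul_right, B_comm v x]
      field_simp
      ring
    rw [this, h]
    simp
  exact sub_eq_zero.1 (perp_eq_zero hv h0 h2)

/-- Cauchy-Schwarz for a vector orthogonal to a timelike one -/
lemma cs_perp {v r e : V n} (hv : B v v < 0) (hr : B r v = 0) (hrr : 0 < B r r)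
    (he : B e e = 0) : B r e ^ 2 * (- B v v) ≤ B r r * B e v ^ 2 := by
  -- project e to the complement of v and r
  have hvv : B v v ≠ 0 := ne_of_lt hv
  have hrr' : B r r ≠ 0 := ne_of_gt hrr
  have hvr : B v r = 0 := by rw [B_comm]; exact hr
  set z := e - (B e v / B v v) • v - (B r e / B r r) • r with hz
  have h0 : B z v = 0 := by
    rw [hz, B_sub_left, B_sub_left, B_smul_left, B_smul_left, hr]
    field_simp
    ring
  have h1 := perp_nonneg hv h0
  have h2 : B z z = - (B e v ^ 2 / B v v) - B r e ^ 2 / B r r := by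
    rw [hz]
    simp only [B_sub_left, B_sub_right, B_smul_left, B_smul_right, B_comm v e, B_comm e r,
      hr, hvr, he]
    field_simp
    ring
  rw [h2] at h1
  have h3 : 0 ≤ (- (B e v ^ 2 / B v v) - B r e ^ 2 / B r r) * (B r r * (- B v v)) :=
    mul_nonneg h1 (mul_nonneg hrr.le (by linarith))
  have h4 : (- (B e v ^ 2 / B v v) - B r e ^ 2 / B r r) * (B r r * (- B v v)) =
      B r r * B e v ^ 2 - B r e ^ 2 * (- B v v) := by
    field_simp
    ring
  linarith

/-! ### time orientation -/

lemma time_mul {x y : V n} (hx : B x x < 0) (hy : B y y < 0) (hxy : B x y < 0) :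
    0 < x 0 * y 0 := by
  have h1 := spat_cs x y
  rw [B_split] at hx hy hxy
  set a := ∑ i : Fin n, x i.succ * y i.succ
  set b := ∑ i : Fin n, x i.succ * x i.succ with hb
  set c := ∑ i : Fin n, y i.succ * y i.succ with hc
  have hb0 : 0 ≤ b := spat_nonneg x
  have hc0 : 0 ≤ c := spat_nonneg y
  by_contra hcon
  push Not at hcon
  -- a < x0 y0 <= 0, so a^2 > (x0 y0)^2
  have h2 : b * c ≤ (x 0 * x 0) * (y 0 * y 0) :=
    mul_le_mul (by linarith) (by linarith) hc0 (mul_self_nonneg _)
  have h3 : a < x 0 * y 0 := by linarith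
  have h4 : (x 0 * y 0) ^ 2 < a ^ 2 := by nlinarith
  nlinarith

lemma time_pos {g : V n ≃ₗ[ℝ] V n} {R : Set (V n)} (hR : ∀ r ∈ R, 0 < B r r)
    (hg : g ∈ Subgroup.closure (S '' R)) :
    Isom g ∧ ∀ x : V n, B x x < 0 → 0 < x 0 → 0 < (g x) 0 := by
  induction hg using Subgroup.closure_induction'' with
  | mem g hg =>
    obtain ⟨r, hr, rfl⟩ := hg
    refine ⟨S_isom r, fun x hx hx0 => ?_⟩
    have h1 : B (S r x) x < 0 := by
      rw [S_apply, B_sub_left, B_smul_left, B_comm r x]
      have h2 : 0 ≤ 2 * B x r / B r r * B x r := by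
        have : 2 * B x r / B r r * B x r = 2 * (B x r) ^ 2 / B r r := by ring
        rw [this]
        have := hR r hr
        positivity
      linarith
    have h3 := time_mul (by rw [S_isom]; exact hx) hx h1
    exact (pos_iff_pos_of_mul_pos h3).2 hx0
  | inv_mem g hg =>
    obtain ⟨r, hr, rfl⟩ := hg
    rw [S_inv]
    refine ⟨S_isom r, fun x hx hx0 => ?_⟩
    have h1 : B (S r x) x < 0 := by
      rw [S_apply, B_sub_left, B_smul_left, B_comm r x]
      have h2 : 0 ≤ 2 * B x r / B r r * B x r := by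
        have : 2 * B x r / B r r * B x r = 2 * (B x r) ^ 2 / B r r := by ring
        rw [this]
        have := hR r hr
        positivity
      linarith
    have h3 := time_mul (by rw [S_isom]; exact hx) hx h1
    exact (pos_iff_pos_of_mul_pos h3).2 hx0
  | one => exact ⟨Isom_one, fun x _ h => h⟩
  | mul g h _ _ hg hh =>
    refine ⟨hg.1.mul hh.1, fun x hx hx0 => ?_⟩
    rw [mul_ap]
    exact hg.2 _ (by rw [hh.1]; exact hx) (hh.2 x hx hx0)

end Pool.Agent.H25Cong

end
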