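import Pool.Agent.Helper25_Cong.Free

open Finset

set_option linter.unusedSimpArgs false
set_option linter.unusedVariables false

noncomputable section

namespace Pool.Agent.H25Cong

variable {n : ℕ}

/-- L_n as an additive subgroup -/
def LatG (n : ℕ) : AddSubgroup (V n) where
  carrier := Lat n
  add_mem' := by
    rintro x y ⟨z, hz, hze⟩ ⟨w, hw, hwe⟩
    refine ⟨fun i => z i + w i, fun i => ?_, ?_⟩
    · rw [Pi.add_apply, hz, hw]; push_cast; rfl
    · rw [Finset.sum_add_distrib]; exact hze.add hwe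
  zero_mem' := ⟨fun _ => 0, fun i => by simp, by simp⟩
  neg_mem' := by
    rintro x ⟨z, hz, hze⟩
    refine ⟨fun i => - z i, fun i => ?_, ?_⟩
    · rw [Pi.neg_apply, hz]; push_cast; rfl
    · rw [Finset.sum_neg_distrib]; exact hze.neg

lemma mem_LatG {x : V n} : x ∈ LatG n ↔ x ∈ Lat n := Iff.rfl

lemma B_int {x y : V n} {z w : Fin (n + 1) → ℤ} (hz : ∀ i, x i = z i) (hw : ∀ i, y i = w i) :
    B x y = (((∑ i, z i * w i) - 2 * (z 0 * w 0) : ℤ) : ℝ) := by
  unfold B
  push_cast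
  simp only [hz, hw]

/-- B is integral on L -/
lemma B_Lat {x y : V n} (hx : x ∈ Lat n) (hy : y ∈ Lat n) : ∃ k : ℤ, B x y = k := by
  obtain ⟨z, hz, -⟩ := hx
  obtain ⟨w, hw, -⟩ := hy
  exact ⟨_, B_int hz hw⟩

/-- B is even on L -/
lemma B_even {x : V n} (hx : x ∈ Lat n) : ∃ k : ℤ, B x x = 2 * k := by
  obtain ⟨z, hz, hze⟩ := hx
  have h1 : Even (∑ i, z i * z i) := by
    have h2 : Even ((∑ i, z i * z i) - ∑ i, z i) := by
      rw [← Finset.sum_sub_distrib]
      apply Finset.even_sum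
      intro i _
      have : z i * z i - z i = z i * (z i - 1) := by ring
      rw [this]
      exact Int.even_mul_pred_self _
    have := h2.add hze
    simpa using this
  obtain ⟨k, hk⟩ := h1
  refine ⟨k - z 0 * z 0, ?_⟩
  rw [B_int hz hz, hk]
  push_cast
  ring

lemma int_even_of_even {x : V n} {z : Fin (n + 1) → ℤ} (hz : ∀ i, x i = z i)
    (h : ∃ k : ℤ, B x x = 2 * k) : x ∈ Lat n := by
  refine ⟨z, hz, ?_⟩
  obtain ⟨k, hk⟩ := h
  rw [B_int hz hz] at hk
  have hk' : (∑ i, z i * z i) - 2 * (z 0 * z 0) = 2 * k := by exact_mod_cast hk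
  have h1 : Even (∑ i, z i * z i) := ⟨k + z 0 * z 0, by linarith⟩
  have h2 : Even ((∑ i, z i * z i) - ∑ i, z i) := by
    rw [← Finset.sum_sub_distrib]
    apply Finset.even_sum
    intro i _
    have : z i * z i - z i = z i * (z i - 1) := by ring
    rw [this]
    exact Int.even_mul_pred_self _
  have := h1.sub h2
  simpa using this

/-- The roots of L_n, scaled to norm 1 or 2. -/
def Rts (n : ℕ) : Set (V n) :=
  {r | (r ∈ Lat n ∧ B r r = 2) ∨ ((∀ y ∈ Lat n, ∃ k : ℤ, B r y = k) ∧ B r r = 1)}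

lemma ep_add_mem {i j : Fin (n + 1)} : ep i + ep j ∈ Lat n := by
  refine ⟨fun k => (if k = i then 1 else 0) + (if k = j then 1 else 0), fun k => ?_, ?_⟩
  · simp only [Pi.add_apply, ep, Pi.single_apply]
    push_cast
    rfl
  · rw [Finset.sum_add_distrib]
    simp

lemma ep_sub_mem {i j : Fin (n + 1)} : ep i - ep j ∈ Lat n := by
  refine ⟨fun k => (if k = i then 1 else 0) - (if k = j then 1 else 0), fun k => ?_, ?_⟩
  · simp only [Pi.sub_apply, ep, Pi.single_apply]
    push_cast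
    rfl
  · rw [Finset.sum_sub_distrib]
    simp

/-- the sign of the coordinate -/
lemma B_ep' (x : V n) (i : Fin (n + 1)) : B x (ep i) = (if i = 0 then -1 else 1) * x i := by
  by_cases h : i = 0
  · subst h; rw [B_ep_zero]; simp
  · rw [B_ep x h]; simp [h]

/-- elements of the dual lattice: integral or half integral -/
lemma dual_cases (hn : 1 ≤ n) {r : V n} (h : ∀ y ∈ Lat n, ∃ k : ℤ, B r y = k) :
    (∃ z : Fin (n + 1) → ℤ, ∀ i, r i = z i) ∨
    (∃ z : Fin (n + 1) → ℤ, ∀ i, r i = z i + 1 / 2) := by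
  -- 2 r i is an integer
  have h2 : ∀ i, ∃ z : ℤ, 2 * r i = z := by
    intro i
    obtain ⟨k, hk⟩ := h (ep i + ep i) ep_add_mem
    rw [B_add_right, B_ep'] at hk
    by_cases hi : i = 0
    · subst hi
      refine ⟨-k, ?_⟩
      push_cast
      rw [← hk]; simp; ring
    · refine ⟨k, ?_⟩
      rw [← hk]; simp [hi]; ring
  have h3 : ∀ i, ∃ z : ℤ, r i = r 0 + z := by
    intro i
    by_cases hi : i = 0
    · exact ⟨0, by rw [hi]; simp⟩
    · obtain ⟨k, hk⟩ := h (ep i + ep 0) ep_add_mem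
      rw [B_add_right, B_ep', B_ep'] at hk
      simp only [hi, if_false, if_true] at hk
      exact ⟨k, by linarith⟩
  obtain ⟨m, hm⟩ := h2 0
  choose z hz using h3
  rcases Int.even_or_odd' m with ⟨c, hc | hc⟩
  · left
    refine ⟨fun i => c + z i, fun i => ?_⟩
    rw [hz i]
    have : r 0 = c := by
      rw [hc] at hm; push_cast at hm; linarith
    rw [this]; push_cast; ring
  · right
    refine ⟨fun i => c + z i, fun i => ?_⟩
    rw [hz i]
    have : r 0 = c + 1 / 2 := by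
      rw [hc] at hm; push_cast at hm; linarith
    rw [this]; push_cast; ring

/-- half integral vectors of norm 1 exist only for n = 5 mod 8 -/
lemma half_mod {r : V n} {z : Fin (n + 1) → ℤ} (hz : ∀ i, r i = z i + 1 / 2) (h : B r r = 1) :
    n % 8 = 5 := by
  -- (2 z + 1)^2 = 1 mod 8
  have h1 : ∀ i, ∃ c : ℤ, (2 * z i + 1) ^ 2 = 8 * c + 1 := by
    intro i
    obtain ⟨c, hc⟩ := Int.even_mul_succ_self (z i)
    exact ⟨c, by linarith [hc, (by ring : (2 * z i + 1) ^ 2 = 4 * (z i * (z i + 1)) + 1)]⟩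
  choose c hc using h1
  have h2 : (∑ i : Fin n, ((2 * z i.succ + 1) ^ 2 : ℤ)) - (2 * z 0 + 1) ^ 2 = 4 := by
    have h3 : (4 : ℝ) * B r r = 4 := by rw [h]; ring
    rw [B_split, mul_sub, Finset.mul_sum] at h3
    have h4 : (((∑ i : Fin n, ((2 * z i.succ + 1) ^ 2 : ℤ)) - (2 * z 0 + 1) ^ 2 : ℤ) : ℝ) = 4 := by
      rw [← h3]
      push_cast
      congr 1
      · apply Finset.sum_congr rfl
        intro i _
        rw [hz]; ring
      · rw [hz]; ring
    exact_mod_cast h4
  rw [hc 0, Finset.sum_congr rfl (fun i _ => hc i.succ), Finset.sum_add_distrib,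
    ← Finset.mul_sum] at h2
  simp only [Finset.sum_const, Finset.card_univ, Fintype.card_fin, nsmul_eq_mul, mul_one] at h2
  omega

/-- twice a norm 1 root lies in the lattice -/
lemma two_root (hn : 1 ≤ n) {r : V n} (h : ∀ y ∈ Lat n, ∃ k : ℤ, B r y = k) (h1 : B r r = 1) :
    (2 : ℝ) • r ∈ Lat n := by
  rcases dual_cases hn h with ⟨z, hz⟩ | ⟨z, hz⟩
  · refine ⟨fun i => 2 * z i, fun i => ?_, ?_⟩
    · rw [Pi.smul_apply, hz]; push_cast; rfl
    · rw [← Finset.mul_sum]; exact even_two_mul _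
  · have h2 := half_mod hz h1
    refine ⟨fun i => 2 * z i + 1, fun i => ?_, ?_⟩
    · rw [Pi.smul_apply, hz]; push_cast; simp only [smul_eq_mul]; ring
    · rw [Finset.sum_add_distrib, ← Finset.mul_sum]
      apply (even_two_mul _).add
      simp only [Finset.sum_const, Finset.card_univ, Fintype.card_fin, nsmul_eq_mul, mul_one]
      have : Even (n + 1) := by
        rw [Nat.even_iff]; omega
      exact_mod_cast this

lemma zsmul_Lat {x : V n} (hx : x ∈ Lat n) (k : ℤ) : (k : ℝ) • x ∈ Lat n := by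
  have := (LatG n).zsmul_mem hx k
  rw [← Int.cast_smul_eq_zsmul ℝ] at this
  exact this

/-- root reflections preserve the lattice -/
lemma S_Lat (hn : 1 ≤ n) {r : V n} (hr : r ∈ Rts n) {x : V n} (hx : x ∈ Lat n) :
    S r x ∈ Lat n := by
  rw [S_apply]
  apply (LatG n).sub_mem hx
  rcases hr with ⟨h1, h2⟩ | ⟨h1, h2⟩
  · obtain ⟨k, hk⟩ := B_Lat hx h1
    rw [hk, h2]
    have : (2 * (k : ℝ) / 2) = k := by ring
    rw [this]
    exact zsmul_Lat h1 k
  · obtain ⟨k, hk⟩ := h1 x hx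
    rw [B_comm, hk, h2]
    have : ((2 * (k : ℝ) / 1) • r) = (k : ℝ) • ((2 : ℝ) • r) := by
      rw [smul_smul]; congr 1; ring
    rw [this]
    exact zsmul_Lat (two_root hn h1 h2) k

/-- isometries preserving L preserve the roots -/
lemma Rts_map {g : V n ≃ₗ[ℝ] V n} (hg : Isom g) (h1 : ∀ x ∈ Lat n, g x ∈ Lat n)
    (h2 : ∀ x ∈ Lat n, g⁻¹ x ∈ Lat n) {r : V n} (hr : r ∈ Rts n) : g r ∈ Rts n := by
  rcases hr with ⟨h3, h4⟩ | ⟨h3, h4⟩
  · left
    exact ⟨h1 r h3, by rw [hg]; exact h4⟩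
  · right
    refine ⟨fun y hy => ?_, by rw [hg]; exact h4⟩
    obtain ⟨k, hk⟩ := h3 _ (h2 y hy)
    refine ⟨k, ?_⟩
    rw [← hk, ← hg r (g⁻¹ y), ap_inv]

lemma S_Rts (hn : 1 ≤ n) {a b : V n} (ha : a ∈ Rts n) (hb : b ∈ Rts n) : S a b ∈ Rts n := by
  apply Rts_map (S_isom a) (fun x hx => S_Lat hn ha hx) _ hb
  intro x hx
  rw [S_inv]
  exact S_Lat hn ha hx

lemma Rts_norm {a : V n} (ha : a ∈ Rts n) : B a a = 2 ∨ B a a = 1 := by
  rcases ha with ⟨_, h⟩ | ⟨_, h⟩
  · exact Or.inl h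
  · exact Or.inr h

lemma Rts_pos {a : V n} (ha : a ∈ Rts n) : 0 < B a a := by
  rcases Rts_norm ha with h | h <;> rw [h] <;> norm_num

lemma Rts_half (hn : 1 ≤ n) {a : V n} (ha : a ∈ Rts n) : ∃ z : Fin (n + 1) → ℤ,
    ∀ i, 2 * a i = z i := by
  rcases ha with ⟨⟨z, hz, _⟩, _⟩ | ⟨h, _⟩
  · exact ⟨fun i => 2 * z i, fun i => by rw [hz]; push_cast; ring⟩
  · rcases dual_cases hn h with ⟨z, hz⟩ | ⟨z, hz⟩
    · exact ⟨fun i => 2 * z i, fun i => by rw [hz]; push_cast; ring⟩
    · exact ⟨fun i => 2 * z i + 1, fun i => by rw [hz]; push_cast; ring⟩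

lemma irr_aux {c : ℝ} (hc : 0 < c) (h2 : c ^ 2 = 2) {z w : ℤ} (hz : z ≠ 0)
    (h : c * z = w) : False := by
  have h1 : c = √2 := by
    rw [← h2, Real.sqrt_sq hc.le]
  have h3 := irrational_sqrt_two
  apply h3
  refine ⟨(w : ℚ) / (z : ℚ), ?_⟩
  rw [← h1]
  push_cast
  rw [← h]
  have : (z : ℝ) ≠ 0 := by exact_mod_cast hz
  field_simp

lemma Rts_red (hn : 1 ≤ n) {a : V n} (ha : a ∈ Rts n) {c : ℝ} (hc : 0 < c)
    (hca : c • a ∈ Rts n) : c = 1 := by
  have h1 : B (c • a) (c • a) = c ^ 2 * B a a := by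
    rw [B_smul_left, B_smul_right]; ring
  obtain ⟨z, hz⟩ := Rts_half hn ha
  obtain ⟨w, hw⟩ := Rts_half hn hca
  obtain ⟨i, hi⟩ : ∃ i, z i ≠ 0 := by
    by_contra hcon
    push Not at hcon
    have : a = 0 := by
      ext i
      have := hz i
      rw [hcon i] at this
      simp at this
      simpa using this
    have h2 := Rts_pos ha
    rw [this] at h2
    simp at h2
  have h3 : c * z i = w i := by
    rw [← hz, ← hw, Pi.smul_apply, smul_eq_mul]; ring
  have h3' : (2 * c) * z i = (2 * w i : ℤ) := by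
    push_cast; rw [← h3]; ring
  rcases Rts_norm ha with h4 | h4 <;> rcases Rts_norm hca with h5 | h5 <;>
    rw [h1, h4] at h5
  · nlinarith
  · exact (irr_aux (c := 2 * c) (by positivity) (by nlinarith) hi h3').elim
  · exact (irr_aux hc (by nlinarith) hi h3).elim
  · nlinarith

/-! ### finiteness -/

lemma cs_perp' {v r e : V n} (hv : B v v < 0) (hr : B r v = 0) (hrr : 0 < B r r) :
    B r e ^ 2 ≤ B r r * (B e e + B e v ^ 2 / (- B v v)) := by
  have hvv : B v v ≠ 0 := ne_of_lt hv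
  have hrr' : B r r ≠ 0 := ne_of_gt hrr
  have hvr : B v r = 0 := by rw [B_comm]; exact hr
  set z := e - (B e v / B v v) • v - (B r e / B r r) • r with hz
  have h0 : B z v = 0 := by
    rw [hz, B_sub_left, B_sub_left, B_smul_left, B_smul_left, hr]
    field_simp
    ring
  have h1 := perp_nonneg hv h0
  have h2 : B z z = B e e - (B e v ^ 2 / B v v) - B r e ^ 2 / B r r := by
    rw [hz]
    simp only [B_sub_left, B_sub_right, B_smul_left, B_smul_right, B_comm v e, B_comm e r,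
      hr, hvr]
    field_simp
    ring
  rw [h2] at h1
  have h3 : 0 ≤ B r r * (B e e - (B e v ^ 2 / B v v) - B r e ^ 2 / B r r) :=
    mul_nonneg hrr.le h1
  have h4 : B r r * (B e e - (B e v ^ 2 / B v v) - B r e ^ 2 / B r r) =
      B r r * (B e e + B e v ^ 2 / (- B v v)) - B r e ^ 2 := by
    field_simp
    ring
  linarith

lemma bdd {v : V n} (hv : B v v < 0) (C : ℝ) (hC : 0 ≤ C) :
    ∃ M : ℝ, ∀ x : V n, B x x ≤ C → (B x v) ^ 2 ≤ C → ∀ i, |x i| ≤ M := by
  set K := - B v v with hK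
  have hK0 : 0 < K := by rw [hK]; linarith
  have hvv : B v v ≠ 0 := ne_of_lt hv
  have hvvK : B v v = - K := by rw [hK]; ring
  refine ⟨∑ i, (√C / K * |v i| + √((C + C / K) * (1 + (v i) ^ 2 / K))), ?_⟩
  intro x hx hxv i
  refine le_trans ?_ (Finset.single_le_sum (f := fun i =>
    √C / K * |v i| + √((C + C / K) * (1 + (v i) ^ 2 / K))) (fun j _ => by positivity)
    (Finset.mem_univ i))
  set y := x - (B x v / B v v) • v with hy
  have hyv : B y v = 0 := by
    rw [hy, B_sub_left, B_smul_left]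
    field_simp
    ring
  have hyy : B y y = B x x + B x v ^ 2 / K := by
    rw [hy, hvvK]
    simp only [B_sub_left, B_sub_right, B_smul_left, B_smul_right, B_comm v x, hvvK]
    field_simp
    ring
  have hyy' : B y y ≤ C + C / K := by
    rw [hyy]
    apply add_le_add hx
    exact div_le_div_of_nonneg_right hxv hK0.le
  have hxe : x i = y i - (B x v / K) * v i := by
    rw [hy, hvvK]
    simp only [Pi.sub_apply, Pi.smul_apply, smul_eq_mul]
    field_simp
    ring
  have h1 : |B x v| ≤ √C := Real.abs_le_sqrt hxv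
  have h2 : |y i| ≤ √((C + C / K) * (1 + (v i) ^ 2 / K)) := by
    apply Real.abs_le_sqrt
    have h0 := perp_nonneg hv hyv
    rcases eq_or_lt_of_le h0 with h3 | h3
    · have : y = 0 := perp_eq_zero hv hyv h3.symm
      rw [this]
      simp only [Pi.zero_apply, ne_eq, OfNat.ofNat_ne_zero, not_false_eq_true, zero_pow]
      positivity
    · have h4 := cs_perp' (e := ep i) hv hyv h3
      have e1 : B y (ep i) ^ 2 = y i ^ 2 := by
        rw [B_ep', mul_pow]; split_ifs <;> ring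
      have e2 : B (ep i) v ^ 2 = v i ^ 2 := by
        rw [B_comm, B_ep', mul_pow]; split_ifs <;> ring
      have e3 : B (ep i) (ep i) ≤ 1 := by
        rw [B_ep']
        simp only [ep, Pi.single_eq_same]
        split_ifs <;> norm_num
      rw [e1, e2, ← hK] at h4
      refine h4.trans ?_
      have hz : 0 ≤ C + C / K := by positivity
      have hz2 : 0 ≤ 1 + v i ^ 2 / K := by positivity
      calc B y y * (B (ep i) (ep i) + v i ^ 2 / K) ≤ B y y * (1 + v i ^ 2 / K) := by
            apply mul_le_mul_of_nonneg_left _ h0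
            linarith
        _ ≤ (C + C / K) * (1 + v i ^ 2 / K) := mul_le_mul_of_nonneg_right hyy' hz2
  rw [hxe]
  calc |y i - B x v / K * v i| ≤ |y i| + |B x v / K * v i| := abs_sub _ _
    _ ≤ √((C + C / K) * (1 + (v i) ^ 2 / K)) + √C / K * |v i| := by
        apply add_le_add h2
        rw [abs_mul, abs_div, abs_of_pos hK0]
        apply mul_le_mul_of_nonneg_right _ (abs_nonneg _)
        exact div_le_div_of_nonneg_right h1 hK0.le
    _ = _ := by ring

lemma Rts_fin (hn : 1 ≤ n) {v : V n} (hv : B v v < 0) (C : ℝ) :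
    {a | a ∈ Rts n ∧ (B a v) ^ 2 ≤ C * B a a}.Finite := by
  obtain ⟨M, hM⟩ := bdd hv (2 * |C| + 2) (by positivity)
  have hfin : (Set.pi Set.univ (fun _ : Fin (n + 1) => Set.Icc (-⌈2 * M⌉) ⌈2 * M⌉) :
      Set (Fin (n + 1) → ℤ)).Finite := Set.Finite.pi fun i => Set.finite_Icc _ _
  apply (hfin.image (fun z : Fin (n + 1) → ℤ => (fun i => (z i : ℝ) / 2 : V n))).subset
  rintro a ⟨ha, hle⟩
  obtain ⟨z, hz⟩ := Rts_half hn ha
  have h1 : B a a ≤ 2 := by rcases Rts_norm ha with h | h <;> rw [h]; norm_num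
  have h2 := hM a (by linarith [abs_nonneg C]) (by
    refine hle.trans ?_
    have h3 : C * B a a ≤ |C| * B a a := mul_le_mul_of_nonneg_right (le_abs_self C) (Rts_pos ha).le
    have h4 : |C| * B a a ≤ |C| * 2 := mul_le_mul_of_nonneg_left h1 (abs_nonneg C)
    linarith)
  refine ⟨z, ?_, ?_⟩
  · intro i _
    have h3 := abs_le.1 (h2 i)
    have h4 := Int.le_ceil (2 * M)
    constructor
    · have : (-(⌈2 * M⌉ : ℤ) : ℝ) ≤ z i := by
        rw [← hz i]; linarith [h3.1]
      exact_mod_cast this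
    · have : (z i : ℝ) ≤ (⌈2 * M⌉ : ℤ) := by
        rw [← hz i]; linarith [h3.2]
      exact_mod_cast this
  · ext i
    simp only
    rw [← hz i]; ring

end Pool.Agent.H25Cong

end
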