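import Pool.Agent.Helper25_Cong.Bad3

open Finset

set_option linter.unusedSimpArgs false
set_option linter.unusedVariables false
set_option linter.unusedTactic false
set_option linter.unreachableTactic false

noncomputable section

namespace Pool.Agent.H25Cong

variable {n : ℕ}

/-- rationality of the rank one maps -/
def Pr (Λ : Submodule ℤ (V n)) (a c : V n) : Prop :=
  ∃ D : ℕ, 0 < D ∧ ∀ x ∈ Λ, ((D : ℝ) * B x c) • a ∈ Λ

lemma Sm {Λ : Submodule ℤ (V n)} {x : V n} (hx : x ∈ Λ) (k : ℤ) : (k : ℝ) • x ∈ Λ := by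
  rw [Int.cast_smul_eq_zsmul]
  exact Λ.smul_mem k hx

lemma Sn {Λ : Submodule ℤ (V n)} {x : V n} (hx : x ∈ Λ) (k : ℕ) : (k : ℝ) • x ∈ Λ := by
  have := Sm hx (k : ℤ)
  simpa using this

lemma Pr.add_left {Λ : Submodule ℤ (V n)} {a a' c : V n} (h : Pr Λ a c) (h' : Pr Λ a' c) :
    Pr Λ (a + a') c := by
  obtain ⟨D, hD, h1⟩ := h
  obtain ⟨D', hD', h2⟩ := h'
  refine ⟨D * D', by positivity, fun x hx => ?_⟩
  have e1 := Λ.add_mem (Sn (h1 x hx) D') (Sn (h2 x hx) D)
  convert e1 using 1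
  ext i
  simp only [Pi.add_apply, Pi.smul_apply, smul_eq_mul]
  push_cast; ring

lemma Pr.add_right {Λ : Submodule ℤ (V n)} {a c c' : V n} (h : Pr Λ a c) (h' : Pr Λ a c') :
    Pr Λ a (c + c') := by
  obtain ⟨D, hD, h1⟩ := h
  obtain ⟨D', hD', h2⟩ := h'
  refine ⟨D * D', by positivity, fun x hx => ?_⟩
  have e1 := Λ.add_mem (Sn (h1 x hx) D') (Sn (h2 x hx) D)
  convert e1 using 1
  ext i
  simp only [Pi.add_apply, Pi.smul_apply, smul_eq_mul, B_add_right]
  push_cast; ring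

lemma Pr.neg_left {Λ : Submodule ℤ (V n)} {a c : V n} (h : Pr Λ a c) : Pr Λ (-a) c := by
  obtain ⟨D, hD, h1⟩ := h
  refine ⟨D, hD, fun x hx => ?_⟩
  rw [smul_neg]
  exact Λ.neg_mem (h1 x hx)

lemma Pr.neg_right {Λ : Submodule ℤ (V n)} {a c : V n} (h : Pr Λ a c) : Pr Λ a (-c) := by
  obtain ⟨D, hD, h1⟩ := h
  refine ⟨D, hD, fun x hx => ?_⟩
  rw [B_neg_right, mul_neg, neg_smul]
  exact Λ.neg_mem (h1 x hx)

lemma Pr.half_left {Λ : Submodule ℤ (V n)} {a c : V n} (h : Pr Λ ((2 : ℝ) • a) c) :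
    Pr Λ a c := by
  obtain ⟨D, hD, h1⟩ := h
  refine ⟨D * 2, by positivity, fun x hx => ?_⟩
  have := h1 x hx
  rw [smul_smul] at this
  convert this using 2
  push_cast; ring

lemma Pr.half_right {Λ : Submodule ℤ (V n)} {a c : V n} (h : Pr Λ a ((2 : ℝ) • c)) :
    Pr Λ a c := by
  obtain ⟨D, hD, h1⟩ := h
  refine ⟨D * 2, by positivity, fun x hx => ?_⟩
  have := h1 x hx
  rw [B_smul_right] at this
  convert this using 2
  push_cast; ring

lemma Pr.comp {Λ : Submodule ℤ (V n)} {a c : V n} (h : Pr Λ a a) (h' : Pr Λ c c)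
    (k : ℤ) (hk : k ≠ 0) (hac : B c a = k) : Pr Λ a c := by
  obtain ⟨D, hD, h1⟩ := h
  obtain ⟨D', hD', h2⟩ := h'
  refine ⟨D * D' * k.natAbs, by positivity, fun x hx => ?_⟩
  have e1 := h1 _ (h2 x hx)
  rw [B_smul_left, hac] at e1
  have hcast : ((D * D' * k.natAbs : ℕ) : ℝ) = D * D' * |(k : ℝ)| := by
    rw [Nat.cast_mul, Nat.cast_mul, Nat.cast_natAbs, Int.cast_abs]
  rw [hcast]
  rcases le_total 0 (k : ℝ) with hk1 | hk1
  · rw [abs_of_nonneg hk1]
    convert e1 using 2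
    ring
  · rw [abs_of_nonpos hk1]
    have e2 := Λ.neg_mem e1
    rw [← neg_smul] at e2
    convert e2 using 2
    ring

lemma E_pow (e m : V n) (he : B e e = 0) (hm : B m e = 0) (k : ℕ)
    (hk : B ((k : ℝ) • m) e = 0) : (E e m he hm) ^ k = E e ((k : ℝ) • m) he hk := by
  induction k with
  | zero =>
    rw [pow_zero]
    ext1 x
    rw [E_apply, one_ap]
    simp
  | succ k ih =>
    have h1 : B ((k : ℝ) • m) e = 0 := by rw [B_smul_left, hm, mul_zero]
    have h2 : ((k + 1 : ℕ) : ℝ) • m = (k : ℝ) • m + m := by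
      push_cast
      rw [add_smul, one_smul]
    have h3 : B ((k : ℝ) • m + m) e = 0 := by rw [← h2]; exact hk
    rw [pow_succ, ih h1, E_mul e _ m he h1 hm h3]
    exact E_congr rfl h2.symm he h3 he hk

/-- some power of each element of W preserves Λ -/
def HP (Λ : Submodule ℤ (V n)) : Prop := ∀ a ∈ W n, ∃ k : ℕ, 0 < k ∧ a ^ k ∈ OLat Λ

/-- rationality at a rational isotropic line -/
lemma Pr_iso (hn : 1 ≤ n) {Λ : Submodule ℤ (V n)} (hcom : HP Λ)
    {e r : V n} (he : B e e = 0) (heL : e ∈ Lat n) (hrL : r ∈ Lat n) (hr : B r r = 2)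
    (hre : B r e = 0) : Pr Λ e e := by
  have hmem := HG_root hn he heL hrL hr hre
  obtain ⟨h0, hW⟩ := hmem
  obtain ⟨k, hk0, hk⟩ := hcom _ hW
  have hkr : B ((k : ℝ) • r) e = 0 := by rw [B_smul_left, hre, mul_zero]
  rw [E_pow e r he h0 k hkr] at hk
  obtain ⟨-, hk1⟩ := hk
  set G := E e ((k : ℝ) • r) he hkr with hG
  refine ⟨2 * k ^ 2, by positivity, fun x hx => ?_⟩
  have e1 : G x ∈ Λ := (hk1 x).2 hx
  have e2 : G (G x) ∈ Λ := (hk1 _).2 e1
  have e3 : -(G (G x) - (G x + G x) + x) ∈ Λ :=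
    Λ.neg_mem (Λ.add_mem (Λ.sub_mem e2 (Λ.add_mem e1 e1)) hx)
  convert e3 using 1
  have her : B e r = 0 := by rw [B_comm]; exact hre
  rw [hG, E_apply, E_apply]
  simp only [B_add_left, B_sub_left, B_smul_left, B_smul_right, he, hr, hre, her]
  ext i
  simp only [Pi.add_apply, Pi.sub_apply, Pi.smul_apply, Pi.neg_apply, smul_eq_mul]
  push_cast
  ring

/-- the isotropic vectors ep 0 + s ep i -/
lemma iso_pm (i : Fin (n + 1)) (hi : i ≠ 0) (s : ℝ) (hs : s = 1 ∨ s = -1) :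
    B (ep 0 + s • ep i : V n) (ep 0 + s • ep i) = 0 := by
  rw [B_add_right, B_smul_right, B_ep', B_ep', if_pos rfl, if_neg hi]
  simp only [Pi.add_apply, Pi.smul_apply, ep_apply, if_true, if_neg hi, if_neg hi.symm,
    smul_eq_mul]
  rcases hs with rfl | rfl <;> norm_num

lemma pm_Lat (i : Fin (n + 1)) (s : ℝ) (hs : s = 1 ∨ s = -1) :
    (ep 0 + s • ep i : V n) ∈ Lat n := by
  rcases hs with rfl | rfl
  · rw [one_smul]; exact ep_add_mem
  · rw [neg_one_smul, ← sub_eq_add_neg]; exact ep_sub_mem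

lemma Pr_pm (hn : 3 ≤ n) {Λ : Submodule ℤ (V n)} (hcom : HP Λ)
    (i : Fin (n + 1)) (hi : i ≠ 0) (s : ℝ) (hs : s = 1 ∨ s = -1) :
    Pr Λ (ep 0 + s • ep i : V n) (ep 0 + s • ep i) := by
  obtain ⟨j0, j1, h00, h0i, h10, h1i, h01⟩ : ∃ j0 j1 : Fin (n + 1), j0 ≠ 0 ∧ j0 ≠ i ∧ j1 ≠ 0 ∧
      j1 ≠ i ∧ j0 ≠ j1 := by
    have h1 : 2 ≤ ((Finset.univ \ {0, i} : Finset (Fin (n + 1)))).card := by
      have := Finset.le_card_sdiff {0, i} (Finset.univ : Finset (Fin (n + 1)))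
      have h2 : ({0, i} : Finset (Fin (n + 1))).card ≤ 2 := Finset.card_le_two
      rw [Finset.card_univ, Fintype.card_fin] at this
      omega
    obtain ⟨a, ha, b, hb, hab⟩ := Finset.one_lt_card.1
      (by omega : 1 < ((Finset.univ \ {0, i} : Finset (Fin (n + 1)))).card)
    simp only [Finset.mem_sdiff, Finset.mem_univ, true_and, Finset.mem_insert,
      Finset.mem_singleton, not_or] at ha hb
    exact ⟨a, b, ha.1, ha.2, hb.1, hb.2, hab⟩
  refine Pr_iso (by omega) hcom (iso_pm i hi s hs) (pm_Lat i s hs) (r := ep j0 + ep j1)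
    ep_add_mem ?_ ?_
  · rw [B_add_right, B_ep', B_ep', if_neg h00, if_neg h10]
    simp only [Pi.add_apply, ep_apply, if_true, if_neg h01, if_neg h01.symm]
    norm_num
  · rw [B_add_right, B_smul_right, B_ep', B_ep', if_pos rfl, if_neg hi]
    simp only [Pi.add_apply, ep_apply, if_neg h00.symm, if_neg h10.symm, if_neg h0i.symm,
      if_neg h1i.symm]
    norm_num

lemma Pr_pm2 (hn : 3 ≤ n) {Λ : Submodule ℤ (V n)} (hcom : HP Λ)
    (i j : Fin (n + 1)) (hi : i ≠ 0) (hj : j ≠ 0) (s t : ℝ) (hs : s = 1 ∨ s = -1)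
    (ht : t = 1 ∨ t = -1) : Pr Λ (ep 0 + s • ep i : V n) (ep 0 + t • ep j) := by
  by_cases hij : i = j
  · subst hij
    by_cases hst : s = t
    · subst hst
      exact Pr_pm hn hcom i hi s hs
    · refine (Pr_pm hn hcom i hi s hs).comp (Pr_pm hn hcom i hi t ht) (-2) (by norm_num) ?_
      rw [B_add_right, B_smul_right, B_ep', B_ep', if_pos rfl, if_neg hi]
      simp only [Pi.add_apply, Pi.smul_apply, ep_apply, if_true, if_neg hi, if_neg hi.symm,
        smul_eq_mul]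
      rcases hs with rfl | rfl <;> rcases ht with rfl | rfl
      · exact absurd rfl hst
      · norm_num
      · norm_num
      · exact absurd rfl hst
  · refine (Pr_pm hn hcom i hi s hs).comp (Pr_pm hn hcom j hj t ht) (-1) (by norm_num) ?_
    rw [B_add_right, B_smul_right, B_ep', B_ep', if_pos rfl, if_neg hi]
    simp only [Pi.add_apply, Pi.smul_apply, ep_apply, if_true, if_neg hi, if_neg hi.symm,
      if_neg hj.symm, if_neg hij, smul_eq_mul]
    norm_num

lemma Pr_ep_left (hn : 3 ≤ n) {Λ : Submodule ℤ (V n)} (hcom : HP Λ)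
    (i j : Fin (n + 1)) (hj : j ≠ 0) (t : ℝ) (ht : t = 1 ∨ t = -1) :
    Pr Λ (ep i : V n) (ep 0 + t • ep j) := by
  apply Pr.half_left
  by_cases hi : i = 0
  · subst hi
    have h := (Pr_pm2 hn hcom j j hj hj 1 t (Or.inl rfl) ht).add_left
      (Pr_pm2 hn hcom j j hj hj (-1) t (Or.inr rfl) ht)
    convert h using 1
    rw [two_smul]
    ext k
    simp only [Pi.add_apply, Pi.smul_apply, smul_eq_mul]
    ring
  · have h := (Pr_pm2 hn hcom i j hi hj 1 t (Or.inl rfl) ht).add_left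
      (Pr_pm2 hn hcom i j hi hj (-1) t (Or.inr rfl) ht).neg_left
    convert h using 1
    rw [two_smul]
    ext k
    simp only [Pi.add_apply, Pi.smul_apply, Pi.neg_apply, smul_eq_mul]
    ring

lemma Pr_ep (hn : 3 ≤ n) {Λ : Submodule ℤ (V n)} (hcom : HP Λ)
    (i j : Fin (n + 1)) : Pr Λ (ep i : V n) (ep j) := by
  apply Pr.half_right
  by_cases hj : j = 0
  · subst hj
    obtain ⟨l, hl⟩ : ∃ l : Fin (n + 1), l ≠ 0 := ⟨Fin.last n, by
      intro h
      have := congrArg Fin.val h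
      simp at this
      omega⟩
    have h := (Pr_ep_left hn hcom i l hl 1 (Or.inl rfl)).add_right
      (Pr_ep_left hn hcom i l hl (-1) (Or.inr rfl))
    convert h using 1
    rw [two_smul]
    ext k
    simp only [Pi.add_apply, Pi.smul_apply, smul_eq_mul]
    ring
  · have h := (Pr_ep_left hn hcom i j hj 1 (Or.inl rfl)).add_right
      (Pr_ep_left hn hcom i j hj (-1) (Or.inr rfl)).neg_right
    convert h using 1
    rw [two_smul]
    ext k
    simp only [Pi.add_apply, Pi.smul_apply, Pi.neg_apply, smul_eq_mul]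
    ring

/-- a common denominator -/
lemma exists_D (hn : 3 ≤ n) {Λ : Submodule ℤ (V n)} (hcom : HP Λ) :
    ∃ D : ℕ, 0 < D ∧ ∀ x ∈ Λ, ∀ i j : Fin (n + 1), ((D : ℝ) * x j) • (ep i : V n) ∈ Λ := by
  choose D hD hDx using fun p : Fin (n + 1) × Fin (n + 1) => Pr_ep hn hcom p.1 p.2
  refine ⟨∏ p, D p, Finset.prod_pos fun p _ => hD p, fun x hx i j => ?_⟩
  obtain ⟨q, hq⟩ := Finset.dvd_prod_of_mem D (Finset.mem_univ (i, j))
  have h1 := hDx (i, j) x hx
  have h2 := Sn h1 q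
  simp only [B_ep'] at h2
  rw [hq]
  by_cases hj : j = 0
  · subst hj
    rw [if_pos rfl] at h2
    have h3 := Λ.neg_mem h2
    convert h3 using 1
    rw [smul_smul, ← neg_smul]
    congr 1
    push_cast; ring
  · rw [if_neg hj] at h2
    convert h2 using 1
    rw [smul_smul]
    congr 1
    push_cast; ring

lemma Cong.inv {N : ℕ} {g : V n ≃ₗ[ℝ] V n} (h : Cong N g) : Cong N g⁻¹ := by
  obtain ⟨h1, h2, h3, h4⟩ := h
  refine ⟨h1.inv, h3, by rw [inv_inv]; exact h2, fun x hx => ?_⟩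
  obtain ⟨y, hy, hxy⟩ := h4 x hx
  refine ⟨-(g⁻¹ y), (LatG n).neg_mem (h3 y hy), ?_⟩
  have h5 := congrArg (g⁻¹ : V n ≃ₗ[ℝ] V n) hxy
  rw [map_sub, inv_ap, map_smul] at h5
  rw [smul_neg, ← h5, neg_sub]

lemma Cong_move {Λ : Submodule ℤ (V n)} {D N : ℕ} (hDx : ∀ x ∈ Λ, ∀ i j : Fin (n + 1),
    ((D : ℝ) * x j) • (ep i : V n) ∈ Λ) {g : V n ≃ₗ[ℝ] V n} (hg : Cong (2 * D * N) g)
    {x : V n} (hx : x ∈ Λ) : ∃ y ∈ Λ, g x - x = (N : ℝ) • y := by
  obtain ⟨-, -, -, h4⟩ := hg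
  have h5 : ∀ j : Fin (n + 1), ∃ z : Fin (n + 1) → ℤ,
      g (ep j) - ep j = ((D : ℝ) * N) • ∑ i, (z i : ℝ) • (ep i : V n) := by
    intro j
    obtain ⟨y, ⟨z, hz, -⟩, hy⟩ := h4 (ep j + ep j) ep_add_mem
    refine ⟨z, ?_⟩
    have e1 : y = ∑ i, (z i : ℝ) • (ep i : V n) := by
      ext k
      rw [hz k, Finset.sum_apply]
      simp [ep_apply]
    rw [← e1]
    rw [map_add] at hy
    have e2 : (2 : ℝ) • (g (ep j) - ep j) = (2 : ℝ) • (((D : ℝ) * N) • y) := by
      rw [smul_smul]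
      have : ((2 * D * N : ℕ) : ℝ) = 2 * ((D : ℝ) * N) := by push_cast; ring
      rw [← this, ← hy, two_smul]
      abel
    exact smul_right_injective (V n) (two_ne_zero) e2
  choose z hz using h5
  refine ⟨∑ j, ∑ i, (z j i : ℝ) • (((D : ℝ) * x j) • (ep i : V n)), ?_, ?_⟩
  · exact Λ.sum_mem fun j _ => Λ.sum_mem fun i _ => Sm (hDx x hx i j) _
  · have e1 : x = ∑ j, x j • (ep j : V n) := by
      ext k
      rw [Finset.sum_apply]
      simp [ep_apply]
    have e2 : g x - x = ∑ j, x j • (g (ep j) - ep j) := by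
      conv_lhs => rw [e1]
      rw [map_sum, ← Finset.sum_sub_distrib]
      apply Finset.sum_congr rfl
      intro j _
      rw [map_smul, smul_sub]
    rw [e2, Finset.smul_sum]
    apply Finset.sum_congr rfl
    intro j _
    rw [hz, smul_smul, Finset.smul_sum, Finset.smul_sum]
    apply Finset.sum_congr rfl
    intro i _
    rw [smul_smul, smul_smul, smul_smul]
    congr 1
    ring

/-- the odd part of N gives a number coprime to N -/
lemma cop (N : ℕ) (hN : 0 < N) : ∃ k : ℕ, IsCoprime (2 + 3 * (k : ℤ) ^ 2) (N : ℤ) := by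
  obtain ⟨a, k, hk, hNk⟩ := Nat.exists_eq_two_pow_mul_odd (Nat.pos_iff_ne_zero.1 hN)
  refine ⟨k, ?_⟩
  obtain ⟨u, hu⟩ := hk
  have h1 : IsCoprime (2 + 3 * (k : ℤ) ^ 2) (k : ℤ) := by
    refine ⟨-u, 1 + 3 * u * k, ?_⟩
    rw [hu]; push_cast; ring
  have h2 : IsCoprime (2 + 3 * (k : ℤ) ^ 2) (2 : ℤ) := by
    refine ⟨1, -(1 + 3 * (2 * (u : ℤ) ^ 2 + 2 * u) + 1), ?_⟩
    rw [hu]; push_cast; ring
  rw [hNk]
  push_cast
  exact (h2.pow_right).mul_right h1

theorem main (hn : 14 ≤ n) : ¬ IsCongruence (W n) := by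
  rintro ⟨Λ, N, -, hN, hcom, hG⟩
  have hn1 : 1 ≤ n := by omega
  obtain ⟨D, hD, hDx⟩ := exists_D (by omega : 3 ≤ n) (Λ := Λ) (fun a ha => by
    obtain ⟨k, hk0, -, hk⟩ := Subgroup.exists_pow_mem_of_relIndex_ne_zero hcom.2 ha
    exact ⟨k, hk0, hk.1⟩)
  set M : ℕ := 2 * D * N with hM
  have hM0 : 0 < M := by positivity
  have hGM : ∀ g : V n ≃ₗ[ℝ] V n, Cong M g → InW n g := by
    intro g hg
    apply hG g _ (fun x hx => Cong_move hDx hg hx)
    refine ⟨hg.1, fun x => ⟨fun hx => ?_, fun hx => ?_⟩⟩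
    · obtain ⟨y, hy, hxy⟩ := Cong_move hDx hg.inv hx
      rw [inv_ap] at hxy
      have : x = g x + (N : ℝ) • y := by rw [← hxy]; abel
      rw [this]
      exact Λ.add_mem hx (Sn hy N)
    · obtain ⟨y, hy, hxy⟩ := Cong_move hDx hg hx
      have : g x = x + (N : ℝ) • y := by rw [← hxy]; abel
      rw [this]
      exact Λ.add_mem hx (Sn hy N)
  obtain ⟨k, hk⟩ := cop M hM0
  -- the vectors
  have h10 : I n 1 ≠ 0 := I_ne hn (by omega) (by omega)
  have h20 : I n 2 ≠ 0 := I_ne hn (by omega) (by omega)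
  have h30 : I n 3 ≠ 0 := I_ne hn (by omega) (by omega)
  have h40 : I n 4 ≠ 0 := I_ne hn (by omega) (by omega)
  have hII : ∀ {a b : ℕ}, a ≤ 14 → b ≤ 14 → a ≠ b → I n a ≠ I n b := by
    intro a b ha hb hab h
    apply hab
    have := congrArg Fin.val h
    rwa [I_val hn ha, I_val hn hb] at this
  set e1 : V n := ep 0 + ep (I n 1) with he1
  set f1 : V n := ep 0 + ep (I n 2) with hf1
  set r : V n := ep (I n 3) - ep (I n 4) with hr
  have ge1 : Good e1 := good (by omega) _ h10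
  have gf1 : Good f1 := good (by omega) _ h20
  have hef : B e1 f1 = -1 := by
    rw [hf1, B_add_right, B_ep', B_ep', if_pos rfl, if_neg h20, he1]
    simp only [Pi.add_apply, ep_apply, if_true, if_neg h10.symm, if_neg h20,
      if_neg (hII (show 2 ≤ 14 by omega) (show 1 ≤ 14 by omega) (by omega))]
    norm_num
  have hrf : B r f1 = 0 := by
    rw [hf1, B_add_right, B_ep', B_ep', if_pos rfl, if_neg h20, hr]
    simp only [Pi.sub_apply, ep_apply, if_neg h30.symm, if_neg h40.symm,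
      if_neg (hII (show 2 ≤ 14 by omega) (show 3 ≤ 14 by omega) (by omega)),
      if_neg (hII (show 2 ≤ 14 by omega) (show 4 ≤ 14 by omega) (by omega))]
    norm_num
  have hre : B e1 r = 0 := by
    rw [B_comm, he1, B_add_right, B_ep', B_ep', if_pos rfl, if_neg h10, hr]
    simp only [Pi.sub_apply, ep_apply, if_neg h30.symm, if_neg h40.symm,
      if_neg (hII (show 1 ≤ 14 by omega) (show 3 ≤ 14 by omega) (by omega)),
      if_neg (hII (show 1 ≤ 14 by omega) (show 4 ≤ 14 by omega) (by omega))]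
    norm_num
  have hrr : B r r = 2 := by
    conv_lhs => rw [hr]
    rw [B_sub_right, B_ep', B_ep', if_neg h30, if_neg h40]
    simp only [Pi.sub_apply, ep_apply, if_true,
      if_neg (hII (show 3 ≤ 14 by omega) (show 4 ≤ 14 by omega) (by omega)),
      if_neg (hII (show 4 ≤ 14 by omega) (show 3 ≤ 14 by omega) (by omega))]
    norm_num
  have hrL : r ∈ Lat n := ep_sub_mem
  obtain ⟨hf0, hgf⟩ := gf1
  have hkrL : (k : ℝ) • r ∈ Lat n := by
    have := zsmul_Lat hrL (k : ℤ)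
    simpa using this
  have hkrf : B ((k : ℝ) • r) f1 = 0 := by rw [B_smul_left, hrf, mul_zero]
  set g := E f1 ((k : ℝ) • r) hf0 hkrf with hg
  have hgW : g ∈ W n := hgf _ hkrL hkrf
  have ge2 : Good (g e1) := ge1.map hn1 hgW
  have hgf1 : g f1 = f1 := by
    rw [hg, E_apply, hf0, B_comm f1, hkrf]
    simp
  have hge1 : g e1 = e1 - (k : ℝ) • r + ((k : ℝ) ^ 2) • f1 := by
    rw [hg, E_apply, hef, B_smul_right, hre, B_smul_left, B_smul_right, hrr]
    ext i
    simp only [Pi.add_apply, Pi.sub_apply, Pi.smul_apply, smul_eq_mul]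
    ring
  obtain ⟨hgI, hgL, -, -⟩ := W_props hn1 hgW
  have hef' : B (g e1) f1 = -1 := by
    rw [← hef]
    conv_lhs => rw [← hgf1]
    exact hgI _ _
  have hv : ∀ (g : ℕ → ℝ) {k : ℕ}, k ≤ 14 → vec n g (I n k) = g k := by
    intro g k hk
    show g (I n k).val = g k
    rw [I_val hn hk]
  have hv0 : vec n ee 0 = 4 := by
    show ee ((0 : Fin (n + 1)).val) = 4
    simp [ee]
  have hb : B (vec n ee) (g e1) = -((2 + 3 * (k : ℤ) ^ 2 : ℤ) : ℝ) := by
    rw [hge1, B_add_right, B_sub_right, B_smul_right, B_smul_right, he1, hf1, hr,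
      B_add_right, B_add_right, B_sub_right, B_ep', B_ep', B_ep', B_ep', B_ep', if_pos rfl,
      if_neg h10, if_neg h20, if_neg h30, if_neg h40, hv0, hv ee (by omega), hv ee (by omega),
      hv ee (by omega), hv ee (by omega)]
    simp only [ee]
    push_cast
    norm_num
    ring
  have he0 := ee_iso hn
  have hm0 := me_perp hn
  exact bad hn he0 hm0 (crit hn1 he0 hm0 (ee_Lat hn) (mm_Lat hn) ge2 ⟨hf0, hgf⟩
    (hgL _ ep_add_mem) ep_add_mem hef' M _ hb hk hGM)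

end Pool.Agent.H25Cong

end
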