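import Pool.Agent.Helper25_Cong.Crit

open Finset

set_option linter.unusedSimpArgs false
set_option linter.unusedVariables false
set_option linter.unusedTactic false
set_option linter.unreachableTactic false

noncomputable section

namespace Pool.Agent.H25Cong

variable {n : ℕ}

/-- coordinates indexed by natural numbers -/
def co (x : V n) (k : ℕ) : ℝ := if h : k < n + 1 then x ⟨k, h⟩ else 0

lemma co_eq (x : V n) (i : Fin (n + 1)) : co x i.val = x i := by
  unfold co
  rw [dif_pos i.isLt]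

lemma co_zero (x : V n) : co x 0 = x 0 := co_eq x 0

/-- the vector with coordinates g 0, g 1, ... -/
def vec (n : ℕ) (g : ℕ → ℝ) : V n := fun i => g i.val

lemma co_vec (g : ℕ → ℝ) {k : ℕ} (hk : k < n + 1) : co (vec n g) k = g k := by
  unfold co vec
  rw [dif_pos hk]

lemma B_co (x y : V n) : B x y = (∑ k ∈ Finset.range (n + 1), co x k * co y k) -
    2 * (co x 0 * co y 0) := by
  unfold B
  rw [Finset.sum_range, co_zero, co_zero]
  congr 1
  apply Finset.sum_congr rfl
  intro i _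
  rw [co_eq, co_eq]

lemma split_sum (hn : 14 ≤ n) (f : ℕ → ℝ) : ∑ k ∈ Finset.range (n + 1), f k =
    f 0 + f 1 + ∑ k ∈ Finset.Ico 2 14, f k + ∑ k ∈ Finset.Ico 14 (n + 1), f k := by
  rw [Finset.range_eq_Ico, ← Finset.sum_Ico_consecutive f (by omega : 0 ≤ 14)
    (by omega : 14 ≤ n + 1), ← Finset.sum_Ico_consecutive f (by omega : 0 ≤ 2)
    (by omega : 2 ≤ 14)]
  simp [Finset.sum_Ico_succ_top, Finset.sum_range_succ]

def ee (k : ℕ) : ℝ := if k = 0 then 4 else if k = 1 then 2 else if k ≤ 13 then 1 else 0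
def mm (k : ℕ) : ℝ := if k = 0 then 1 else if k = 1 then 2 else if k = 14 then 1 else 0
def uu (k : ℕ) : ℝ := if k ≤ 13 then (13 - k) / 22 else 1 / (k - 12)
def vv (t : ℝ) (k : ℕ) : ℝ :=
  if k = 0 then 4 * t + 2 else if k = 1 then 2 * t + 2 else if k ≤ 13 then t + uu k else uu k

lemma sum_uu : ∑ k ∈ Finset.Ico 2 14, uu k = 3 := by
  simp only [Finset.sum_Ico_succ_top, uu]
  norm_num [Finset.sum_Ico_succ_top]

lemma sum_uu2 : ∑ k ∈ Finset.Ico 2 14, uu k ^ 2 ≤ 2 := by
  simp only [Finset.sum_Ico_succ_top, uu]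
  norm_num [Finset.sum_Ico_succ_top]

lemma uu_T {k : ℕ} (h2 : 2 ≤ k) (h : k ≤ 13) : 0 ≤ uu k ∧ uu k ≤ 1 / 2 := by
  unfold uu
  rw [if_pos h]
  have h1 : (2 : ℝ) ≤ k := by exact_mod_cast h2
  have h3 : (k : ℝ) ≤ 13 := by exact_mod_cast h
  constructor
  · apply div_nonneg <;> linarith
  · rw [div_le_div_iff₀] <;> linarith

lemma uu_J {k : ℕ} (h : 14 ≤ k) : 0 < uu k ∧ uu k ≤ 1 / 2 := by
  unfold uu
  rw [if_neg (by omega)]
  have h1 : (14 : ℝ) ≤ k := by exact_mod_cast h
  constructor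
  · apply div_pos one_pos; linarith
  · rw [div_le_div_iff₀] <;> linarith

lemma uu_inj_T {k l : ℕ} (hk : k ≤ 13) (hl : l ≤ 13) (h : uu k = uu l) : k = l := by
  unfold uu at h
  rw [if_pos hk, if_pos hl] at h
  have : (k : ℝ) = l := by linarith
  exact_mod_cast this

lemma uu_inj_J {k l : ℕ} (hk : 14 ≤ k) (hl : 14 ≤ l) (h : uu k = uu l) : k = l := by
  unfold uu at h
  rw [if_neg (by omega), if_neg (by omega)] at h
  have h1 : (14 : ℝ) ≤ k := by exact_mod_cast hk
  have h2 : (14 : ℝ) ≤ l := by exact_mod_cast hl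
  rw [div_eq_div_iff (by linarith) (by linarith)] at h
  have : (k : ℝ) = l := by linarith
  exact_mod_cast this

/-- pairing with e -/
lemma B_ee (hn : 14 ≤ n) (x : V n) : B x (vec n ee) =
    -4 * co x 0 + 2 * co x 1 + ∑ k ∈ Finset.Ico 2 14, co x k := by
  rw [B_co, split_sum hn]
  have h1 : ∑ k ∈ Finset.Ico 2 14, co x k * co (vec n ee) k = ∑ k ∈ Finset.Ico 2 14, co x k := by
    apply Finset.sum_congr rfl
    intro k hk
    rw [Finset.mem_Ico] at hk
    rw [co_vec ee (by omega), ee, if_neg (by omega), if_neg (by omega), if_pos (by omega), mul_one]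
  have h2 : ∑ k ∈ Finset.Ico 14 (n + 1), co x k * co (vec n ee) k = 0 := by
    apply Finset.sum_eq_zero
    intro k hk
    rw [Finset.mem_Ico] at hk
    rw [co_vec ee (by omega), ee, if_neg (by omega), if_neg (by omega), if_neg (by omega), mul_zero]
  rw [h1, h2, co_vec ee (by omega), co_vec ee (by omega)]
  simp only [ee, if_true, one_ne_zero, if_false]
  ring

lemma B_mm (hn : 14 ≤ n) (x : V n) : B x (vec n mm) = - co x 0 + 2 * co x 1 + co x 14 := by
  rw [B_co, split_sum hn]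
  have h1 : ∑ k ∈ Finset.Ico 2 14, co x k * co (vec n mm) k = 0 := by
    apply Finset.sum_eq_zero
    intro k hk
    rw [Finset.mem_Ico] at hk
    rw [co_vec mm (by omega), mm, if_neg (by omega), if_neg (by omega), if_neg (by omega), mul_zero]
  have h2 : ∑ k ∈ Finset.Ico 14 (n + 1), co x k * co (vec n mm) k = co x 14 := by
    rw [Finset.sum_eq_single_of_mem 14 (Finset.mem_Ico.2 ⟨le_refl _, by omega⟩)]
    · rw [co_vec mm (by omega)]; simp [mm]
    · intro k hk hk14
      rw [Finset.mem_Ico] at hk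
      rw [co_vec mm (by omega), mm, if_neg (by omega), if_neg (by omega), if_neg hk14, mul_zero]
  rw [h1, h2, co_vec mm (by omega), co_vec mm (by omega)]
  simp only [mm, if_true, one_ne_zero, if_false]
  ring

lemma B_vv (hn : 14 ≤ n) (t : ℝ) (x : V n) : B x (vec n (vv t)) =
    t * B x (vec n ee) - 2 * co x 0 + 2 * co x 1 + ∑ k ∈ Finset.Ico 2 14, co x k * uu k +
      ∑ k ∈ Finset.Ico 14 (n + 1), co x k * uu k := by
  rw [B_ee hn, B_co, split_sum hn]
  have h1 : ∑ k ∈ Finset.Ico 2 14, co x k * co (vec n (vv t)) k =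
      t * (∑ k ∈ Finset.Ico 2 14, co x k) + ∑ k ∈ Finset.Ico 2 14, co x k * uu k := by
    rw [Finset.mul_sum, ← Finset.sum_add_distrib]
    apply Finset.sum_congr rfl
    intro k hk
    rw [Finset.mem_Ico] at hk
    rw [co_vec _ (by omega), vv, if_neg (by omega), if_neg (by omega), if_pos (by omega)]
    ring
  have h2 : ∑ k ∈ Finset.Ico 14 (n + 1), co x k * co (vec n (vv t)) k =
      ∑ k ∈ Finset.Ico 14 (n + 1), co x k * uu k := by
    apply Finset.sum_congr rfl
    intro k hk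
    rw [Finset.mem_Ico] at hk
    rw [co_vec _ (by omega), vv, if_neg (by omega), if_neg (by omega), if_neg (by omega)]
  rw [h1, h2, co_vec _ (by omega), co_vec _ (by omega)]
  simp only [vv, if_true, one_ne_zero, if_false]
  ring

lemma ee_iso (hn : 14 ≤ n) : B (vec n ee) (vec n ee) = 0 := by
  rw [B_ee hn]
  have h1 : ∑ k ∈ Finset.Ico 2 14, co (vec n ee) k = 12 := by
    rw [Finset.sum_congr rfl (g := fun _ => (1 : ℝ))]
    · simp
    · intro k hk
      rw [Finset.mem_Ico] at hk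
      rw [co_vec ee (by omega), ee, if_neg (by omega), if_neg (by omega), if_pos (by omega)]
  rw [h1, co_vec ee (by omega), co_vec ee (by omega)]
  simp only [ee, if_true, one_ne_zero, if_false]
  norm_num

lemma me_perp (hn : 14 ≤ n) : B (vec n mm) (vec n ee) = 0 := by
  rw [B_comm, B_mm hn, co_vec ee (by omega), co_vec ee (by omega), co_vec ee (by omega)]
  simp [ee]
  norm_num

lemma mm_norm (hn : 14 ≤ n) : B (vec n mm) (vec n mm) = 4 := by
  rw [B_mm hn, co_vec mm (by omega), co_vec mm (by omega), co_vec mm (by omega)]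
  simp [mm]
  norm_num

lemma ev (hn : 14 ≤ n) (t : ℝ) : B (vec n (vv t)) (vec n ee) = -1 := by
  rw [B_ee hn]
  have h1 : ∑ k ∈ Finset.Ico 2 14, co (vec n (vv t)) k = 12 * t + 3 := by
    rw [Finset.sum_congr rfl (g := fun k => t + uu k)]
    · rw [Finset.sum_add_distrib, sum_uu]; simp
    · intro k hk
      rw [Finset.mem_Ico] at hk
      rw [co_vec _ (by omega), vv, if_neg (by omega), if_neg (by omega), if_pos (by omega)]
  rw [h1, co_vec _ (by omega), co_vec _ (by omega)]
  simp only [vv, if_true, one_ne_zero, if_false]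
  ring

lemma vm (hn : 14 ≤ n) (t : ℝ) : B (vec n (vv t)) (vec n mm) = 5 / 2 := by
  rw [B_mm hn, co_vec _ (by omega), co_vec _ (by omega), co_vec _ (by omega)]
  simp [vv, uu]
  ring

lemma vv_norm (hn : 14 ≤ n) : B (vec n (vv n)) (vec n (vv n)) < -2 := by
  have h0 := B_vv hn (n : ℝ) (vec n (vv n))
  rw [ev hn] at h0
  have h1 : ∑ k ∈ Finset.Ico 2 14, co (vec n (vv (n : ℝ))) k * uu k ≤ 3 * n + 2 := by
    rw [Finset.sum_congr rfl (g := fun k => n * uu k + uu k ^ 2)]
    · rw [Finset.sum_add_distrib, ← Finset.mul_sum, sum_uu]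
      linarith [sum_uu2]
    · intro k hk
      rw [Finset.mem_Ico] at hk
      rw [co_vec _ (by omega), vv, if_neg (by omega), if_neg (by omega), if_pos (by omega)]
      ring
  have h2 : ∑ k ∈ Finset.Ico 14 (n + 1), co (vec n (vv (n : ℝ))) k * uu k ≤ (n - 13) / 4 := by
    have h3 : ∀ k ∈ Finset.Ico 14 (n + 1), co (vec n (vv (n : ℝ))) k * uu k ≤ 1 / 4 := by
      intro k hk
      rw [Finset.mem_Ico] at hk
      rw [co_vec _ (by omega), vv, if_neg (by omega), if_neg (by omega), if_neg (by omega)]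
      have := uu_J hk.1
      nlinarith
    refine (Finset.sum_le_card_nsmul _ _ _ h3).trans ?_
    rw [Nat.card_Ico, nsmul_eq_mul]
    have : ((n + 1 - 14 : ℕ) : ℝ) = n - 13 := by
      rw [Nat.cast_sub (by omega)]; push_cast; ring
    rw [this]; linarith
  rw [h0, co_vec _ (by omega), co_vec _ (by omega)]
  simp only [vv, if_true, one_ne_zero, if_false]
  have h14 : (14 : ℝ) ≤ n := by exact_mod_cast hn
  linarith

/-- the integer combination of the u's is never an integer -/
lemma comb (hn : 14 ≤ n) (c : ℕ → ℤ) (h : ℤ)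
    (hsum : ∑ k ∈ Finset.Ico 2 14, (c k) ^ 2 + ∑ k ∈ Finset.Ico 14 (n + 1), (c k) ^ 2 = 1 ∨
      ∑ k ∈ Finset.Ico 2 14, (c k) ^ 2 + ∑ k ∈ Finset.Ico 14 (n + 1), (c k) ^ 2 = 2)
    (hpar : Even (∑ k ∈ Finset.Ico 2 14, c k)) :
    (h : ℝ) + ∑ k ∈ Finset.Ico 2 14, (c k : ℝ) * uu k +
      ∑ k ∈ Finset.Ico 14 (n + 1), (c k : ℝ) * uu k ≠ 0 := by
  classical
  set s := ∑ k ∈ Finset.Ico 2 14, (c k) ^ 2 with hs
  set s' := ∑ k ∈ Finset.Ico 14 (n + 1), (c k) ^ 2 with hs'
  have hs0 : 0 ≤ s := Finset.sum_nonneg fun k _ => sq_nonneg _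
  have hs0' : 0 ≤ s' := Finset.sum_nonneg fun k _ => sq_nonneg _
  -- parity of s
  have hsp : Even s := by
    have h1 : Even (s - ∑ k ∈ Finset.Ico 2 14, c k) := by
      rw [hs, ← Finset.sum_sub_distrib]
      apply Finset.even_sum
      intro k _
      have : c k ^ 2 - c k = c k * (c k - 1) := by ring
      rw [this]
      exact Int.even_mul_pred_self _
    have := h1.add hpar
    simpa using this
  -- general facts on finite sets with small sum of squares
  have gen0 : ∀ (K : Finset ℕ), ∑ k ∈ K, (c k) ^ 2 = 0 → ∑ k ∈ K, (c k : ℝ) * uu k = 0 := by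
    intro K hK
    apply Finset.sum_eq_zero
    intro k hk
    have := (Finset.sum_eq_zero_iff_of_nonneg (fun k _ => sq_nonneg (c k))).1 hK k hk
    rw [pow_eq_zero_iff (by norm_num)] at this
    rw [this]; simp
  have gen1 : ∀ (K : Finset ℕ) (q : ℕ), q ≤ 2 → ∑ k ∈ K, (c k) ^ 2 = q →
      (K.filter (fun k => c k ≠ 0)).card = q ∧ (∀ k ∈ K, c k ≠ 0 → c k = 1 ∨ c k = -1) := by
    intro K q hq hK
    have h1 : ∀ k ∈ K, c k ≠ 0 → c k = 1 ∨ c k = -1 := by
      intro k hk hck
      have h2 : (c k) ^ 2 ≤ q := by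
        rw [← hK]
        exact Finset.single_le_sum (f := fun k => (c k) ^ 2) (fun k _ => sq_nonneg _) hk
      have h3 : (c k) ^ 2 ≤ 2 := h2.trans (by exact_mod_cast hq)
      have h4 : c k < 2 := by nlinarith
      have h5 : -2 < c k := by nlinarith
      omega
    refine ⟨?_, h1⟩
    have h2 : ∑ k ∈ K, (c k) ^ 2 = ∑ k ∈ K, (if c k ≠ 0 then 1 else 0 : ℤ) := by
      apply Finset.sum_congr rfl
      intro k hk
      by_cases h3 : c k = 0
      · simp [h3]
      · rw [if_pos h3]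
        rcases h1 k hk h3 with h4 | h4 <;> rw [h4] <;> norm_num
    rw [h2, ← Finset.sum_filter] at hK
    simp only [Finset.sum_const, nsmul_eq_mul, mul_one] at hK
    exact_mod_cast hK
  have hfil : ∀ K : Finset ℕ, ∑ k ∈ K, (c k : ℝ) * uu k =
      ∑ k ∈ K.filter (fun k => c k ≠ 0), (c k : ℝ) * uu k := by
    intro K
    rw [Finset.sum_filter]
    apply Finset.sum_congr rfl
    intro k _
    by_cases h3 : c k = 0
    · simp [h3]
    · rw [if_pos h3]
  -- no integer equals a number strictly between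
  have noint : ∀ x : ℝ, x ≠ 0 → |x| < 1 → (h : ℝ) + x ≠ 0 := by
    intro x hx hx1 hcon
    have h1 : x = ((-h : ℤ) : ℝ) := by push_cast; linarith
    rw [h1] at hx hx1
    have h2 : |(-h : ℤ)| < 1 := by exact_mod_cast hx1
    rw [Int.abs_lt_one_iff] at h2
    rw [h2] at hx
    simp at hx
  -- the case of two entries
  have two : ∀ (K : Finset ℕ), (∀ k ∈ K, 0 ≤ uu k ∧ uu k ≤ 1 / 2) →
      (∀ k ∈ K, ∀ l ∈ K, uu k = uu l → k = l) → ∑ k ∈ K, (c k) ^ 2 = 2 →
      (h : ℝ) + ∑ k ∈ K, (c k : ℝ) * uu k ≠ 0 := by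
    intro K hK hinj hK2
    obtain ⟨h1, h2⟩ := gen1 K 2 le_rfl (by rw [hK2]; rfl)
    obtain ⟨a, b, hab, hK3⟩ := Finset.card_eq_two.1 h1
    have ha : a ∈ K ∧ c a ≠ 0 := by
      have : a ∈ K.filter (fun k => c k ≠ 0) := by rw [hK3]; simp
      simpa using this
    have hb : b ∈ K ∧ c b ≠ 0 := by
      have : b ∈ K.filter (fun k => c k ≠ 0) := by rw [hK3]; simp
      simpa using this
    rw [hfil, hK3, Finset.sum_pair hab]
    have hne : uu a ≠ uu b := fun h => hab (hinj a ha.1 b hb.1 h)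
    have h3 := hK a ha.1
    have h4 := hK b hb.1
    apply noint
    · rcases h2 a ha.1 ha.2 with h5 | h5 <;> rcases h2 b hb.1 hb.2 with h6 | h6 <;>
        rw [h5, h6] <;> push_cast
      · intro hcon
        apply hne; linarith
      · intro hcon
        apply hne; linarith
      · intro hcon
        apply hne; linarith
      · intro hcon
        apply hne; linarith
    · rcases lt_or_gt_of_ne hne with h7 | h7
      · rcases h2 a ha.1 ha.2 with h5 | h5 <;> rcases h2 b hb.1 hb.2 with h6 | h6 <;>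
          rw [h5, h6] <;> push_cast <;> rw [abs_lt] <;> constructor <;> linarith
      · rcases h2 a ha.1 ha.2 with h5 | h5 <;> rcases h2 b hb.1 hb.2 with h6 | h6 <;>
          rw [h5, h6] <;> push_cast <;> rw [abs_lt] <;> constructor <;> linarith
  have hTprop : ∀ k ∈ Finset.Ico 2 14, 0 ≤ uu k ∧ uu k ≤ 1 / 2 := by
    intro k hk
    rw [Finset.mem_Ico] at hk
    exact uu_T hk.1 (by omega)
  have hJprop : ∀ k ∈ Finset.Ico 14 (n + 1), 0 ≤ uu k ∧ uu k ≤ 1 / 2 := by
    intro k hk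
    rw [Finset.mem_Ico] at hk
    exact ⟨(uu_J hk.1).1.le, (uu_J hk.1).2⟩
  obtain ⟨σ, hσ⟩ := hsp
  rcases hsum with hsum | hsum
  · -- s = 0, s' = 1
    have h1 : s = 0 := by omega
    have h2 : s' = 1 := by omega
    rw [gen0 _ h1, add_zero]
    obtain ⟨h3, h4⟩ := gen1 (Finset.Ico 14 (n + 1)) 1 (by norm_num) (by rw [← hs', h2]; rfl)
    obtain ⟨a, hK3⟩ := Finset.card_eq_one.1 h3
    have ha : a ∈ Finset.Ico 14 (n + 1) ∧ c a ≠ 0 := by
      have : a ∈ (Finset.Ico 14 (n + 1)).filter (fun k => c k ≠ 0) := by rw [hK3]; simp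
      rw [Finset.mem_filter] at this
      exact this
    rw [hfil, hK3, Finset.sum_singleton]
    have h5 := uu_J (Finset.mem_Ico.1 ha.1).1
    apply noint
    · rcases h4 a ha.1 ha.2 with h6 | h6 <;> rw [h6] <;> push_cast <;> intro hcon <;> linarith
    · rcases h4 a ha.1 ha.2 with h6 | h6 <;> rw [h6] <;> push_cast <;> rw [abs_lt] <;>
        constructor <;> linarith
  · have h1 : (s = 2 ∧ s' = 0) ∨ (s = 0 ∧ s' = 2) := by omega
    rcases h1 with ⟨h1, h2⟩ | ⟨h1, h2⟩
    · rw [gen0 _ h2, add_zero]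
      apply two _ hTprop _ h1
      intro k hk l hl hkl
      rw [Finset.mem_Ico] at hk hl
      exact uu_inj_T (by omega) (by omega) hkl
    · rw [gen0 _ h1, add_zero]
      apply two _ hJprop _ h2
      intro k hk l hl hkl
      rw [Finset.mem_Ico] at hk hl
      exact uu_inj_J hk.1 hl.1 hkl

end Pool.Agent.H25Cong

end
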