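import Pool.Agent.Helper25_Cong.Bad

open Finset

set_option linter.unusedSimpArgs false
set_option linter.unusedVariables false
set_option linter.unusedTactic false
set_option linter.unreachableTactic false

noncomputable section

namespace Pool.Agent.H25Cong

variable {n : ℕ}

/-- formula for the norm of a vector orthogonal to e -/
lemma norm_perp (hn : 14 ≤ n) {r : V n} (hr : B r (vec n ee) = 0) (h : ℝ)
    (hh : h = (co r 1 - co r 0) / 2) : B r r =
    ∑ k ∈ Finset.Ico 2 14, (co r k + h) ^ 2 + ∑ k ∈ Finset.Ico 14 (n + 1), (co r k) ^ 2 := by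
  rw [B_ee hn] at hr
  rw [B_co, split_sum hn]
  have h1 : ∑ k ∈ Finset.Ico 2 14, (co r k + h) ^ 2 =
      ∑ k ∈ Finset.Ico 2 14, co r k * co r k + 2 * h * ∑ k ∈ Finset.Ico 2 14, co r k +
        12 * h ^ 2 := by
    rw [Finset.mul_sum, ← Finset.sum_add_distrib]
    have : (12 : ℝ) * h ^ 2 = ∑ k ∈ Finset.Ico 2 14, h ^ 2 := by simp
    rw [this, ← Finset.sum_add_distrib]
    apply Finset.sum_congr rfl
    intro k _
    ring
  have h2 : ∑ k ∈ Finset.Ico 14 (n + 1), (co r k) ^ 2 =
      ∑ k ∈ Finset.Ico 14 (n + 1), co r k * co r k :=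
    Finset.sum_congr rfl fun k _ => by ring
  rw [h1, h2]
  have h3 : ∑ k ∈ Finset.Ico 2 14, co r k = 4 * co r 0 - 2 * co r 1 := by linarith
  rw [h3, hh]
  ring

/-- formula for the pairing with v of a vector orthogonal to e -/
lemma pair_perp (hn : 14 ≤ n) {r : V n} (hr : B r (vec n ee) = 0) (t h : ℝ)
    (hh : h = (co r 1 - co r 0) / 2) : B r (vec n (vv t)) =
    h + ∑ k ∈ Finset.Ico 2 14, (co r k + h) * uu k + ∑ k ∈ Finset.Ico 14 (n + 1), co r k * uu k := by
  rw [B_vv hn, hr]
  have h1 : ∑ k ∈ Finset.Ico 2 14, (co r k + h) * uu k =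
      ∑ k ∈ Finset.Ico 2 14, co r k * uu k + 3 * h := by
    rw [← sum_uu, Finset.sum_mul, ← Finset.sum_add_distrib]
    apply Finset.sum_congr rfl
    intro k _
    ring
  rw [h1, hh]
  ring

lemma half_sq (m : ℤ) : (1 : ℝ) / 4 ≤ ((m : ℝ) + 1 / 2) ^ 2 := by
  have h : (0 : ℤ) ≤ m * (m + 1) := by
    rcases le_or_gt 0 m with h | h
    · positivity
    · have : m + 1 ≤ 0 := by omega
      nlinarith
  have h' : (0 : ℝ) ≤ m * (m + 1) := by exact_mod_cast h
  nlinarith

/-- v is not orthogonal to a root orthogonal to e -/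
lemma reg_perp (hn : 14 ≤ n) {r : V n} (hr : r ∈ Rts n) (hre : B r (vec n ee) = 0) (t : ℝ) :
    B r (vec n (vv t)) ≠ 0 := by
  have hn1 : 1 ≤ n := by omega
  set h : ℝ := (co r 1 - co r 0) / 2 with hh
  have hnorm := norm_perp hn hre h hh
  have hpair := pair_perp hn hre t h hh
  have hs0 : 0 ≤ ∑ k ∈ Finset.Ico 2 14, (co r k + h) ^ 2 :=
    Finset.sum_nonneg fun k _ => sq_nonneg _
  have hs1 : 0 ≤ ∑ k ∈ Finset.Ico 14 (n + 1), (co r k) ^ 2 :=
    Finset.sum_nonneg fun k _ => sq_nonneg _
  -- half integral entries on the first block are impossible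
  have hT : ¬ (∀ k ∈ Finset.Ico 2 14, ∃ m : ℤ, co r k + h = m + 1 / 2) := by
    intro hcon
    have h1 : (3 : ℝ) ≤ ∑ k ∈ Finset.Ico 2 14, (co r k + h) ^ 2 := by
      have : (3 : ℝ) = ∑ k ∈ Finset.Ico 2 14, (1 / 4 : ℝ) := by simp; norm_num
      rw [this]
      apply Finset.sum_le_sum
      intro k hk
      obtain ⟨m, hm⟩ := hcon k hk
      rw [hm]
      exact half_sq m
    rcases Rts_norm hr with h2 | h2 <;> rw [h2] at hnorm <;> linarith
  -- integral and half integral roots
  have hcases : (∃ z : Fin (n + 1) → ℤ, ∀ i, r i = z i) ∨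
      ((∃ z : Fin (n + 1) → ℤ, ∀ i, r i = z i + 1 / 2) ∧ B r r = 1) := by
    rcases hr with ⟨⟨z, hz, _⟩, _⟩ | ⟨h1, h2⟩
    · exact Or.inl ⟨z, hz⟩
    · rcases dual_cases hn1 h1 with h3 | h3
      · exact Or.inl h3
      · exact Or.inr ⟨h3, h2⟩
  rcases hcases with ⟨z, hz⟩ | ⟨⟨z, hz⟩, h1⟩
  · set zN : ℕ → ℤ := fun k => if hk : k < n + 1 then z ⟨k, hk⟩ else 0 with hzN
    have hco : ∀ k, co r k = zN k := by
      intro k
      simp only [co, hzN]
      split_ifs with hk
      · exact hz _
      · simp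
    obtain ⟨a, ha | ha⟩ := Int.even_or_odd' (zN 1 - zN 0)
    · have hha : h = a := by
        rw [hh, hco, hco]
        have : (zN 1 : ℝ) - zN 0 = 2 * a := by exact_mod_cast ha
        rw [this]; ring
      set c : ℕ → ℤ := fun k => if k ≤ 13 then zN k + a else zN k with hc
      have hcT : ∀ k ∈ Finset.Ico 2 14, co r k + h = c k := by
        intro k hk
        rw [Finset.mem_Ico] at hk
        simp only [hc]
        rw [if_pos (by omega), hco, hha]
        push_cast; rfl
      have hcJ : ∀ k ∈ Finset.Ico 14 (n + 1), co r k = c k := by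
        intro k hk
        rw [Finset.mem_Ico] at hk
        simp only [hc]
        rw [if_neg (by omega), hco]
      have hpar : Even (∑ k ∈ Finset.Ico 2 14, c k) := by
        have h1 : ∑ k ∈ Finset.Ico 2 14, c k = ∑ k ∈ Finset.Ico 2 14, zN k + 12 * a := by
          rw [Finset.sum_congr rfl (g := fun k => zN k + a)]
          · rw [Finset.sum_add_distrib]; simp
          · intro k hk
            rw [Finset.mem_Ico] at hk
            simp only [hc]
            rw [if_pos (by omega)]
        have h2 : ∑ k ∈ Finset.Ico 2 14, zN k = 4 * zN 0 - 2 * zN 1 := by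
          rw [B_ee hn, Finset.sum_congr rfl (fun k _ => hco k), hco, hco] at hre
          have : (∑ k ∈ Finset.Ico 2 14, (zN k : ℝ)) = 4 * zN 0 - 2 * zN 1 := by linarith
          exact_mod_cast this
        rw [h1, h2]
        exact ⟨2 * zN 0 - zN 1 + 6 * a, by ring⟩
      rw [hpair, hha, Finset.sum_congr rfl (fun k hk => by rw [← hha, hcT k hk]),
        Finset.sum_congr (s₁ := Finset.Ico 14 (n + 1)) rfl (fun k hk => by rw [hcJ k hk])]
      apply comb hn c a _ hpar
      have h3 : ((∑ k ∈ Finset.Ico 2 14, (c k) ^ 2 + ∑ k ∈ Finset.Ico 14 (n + 1), (c k) ^ 2 : ℤ) : ℝ)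
          = B r r := by
        rw [hnorm]
        push_cast
        congr 1
        · exact Finset.sum_congr rfl (fun k hk => by rw [hcT k hk])
        · exact Finset.sum_congr rfl (fun k hk => by rw [hcJ k hk])
      rcases Rts_norm hr with h4 | h4
      · right
        rw [h4] at h3
        exact_mod_cast h3
      · left
        rw [h4] at h3
        exact_mod_cast h3
    · exfalso
      apply hT
      intro k _
      refine ⟨zN k + a, ?_⟩
      have hha : h = a + 1 / 2 := by
        rw [hh, hco, hco]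
        have : (zN 1 : ℝ) - zN 0 = 2 * a + 1 := by exact_mod_cast ha
        rw [this]; ring
      rw [hco, hha]
      push_cast; ring
  · exfalso
    have hmod := half_mod hz h1
    have hn21 : 21 ≤ n := by omega
    set zN : ℕ → ℤ := fun k => if hk : k < n + 1 then z ⟨k, hk⟩ else 0 with hzN
    have hco : ∀ k, k < n + 1 → co r k = zN k + 1 / 2 := by
      intro k hk
      simp only [co, hzN]
      rw [dif_pos hk, dif_pos hk]
      exact hz _
    obtain ⟨a, ha | ha⟩ := Int.even_or_odd' (zN 1 - zN 0)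
    · apply hT
      intro k hk
      rw [Finset.mem_Ico] at hk
      refine ⟨zN k + a, ?_⟩
      have hha : h = a := by
        rw [hh, hco 1 (by omega), hco 0 (by omega)]
        have : (zN 1 : ℝ) - zN 0 = 2 * a := by exact_mod_cast ha
        linarith
      rw [hco k (by omega), hha]
      push_cast; ring
    · have h3 : (2 : ℝ) ≤ ∑ k ∈ Finset.Ico 14 (n + 1), (co r k) ^ 2 := by
        have h4 : ((Finset.Ico 14 (n + 1)).card : ℕ) • (1 / 4 : ℝ) ≤
            ∑ k ∈ Finset.Ico 14 (n + 1), (co r k) ^ 2 := by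
          apply Finset.card_nsmul_le_sum
          intro k hk
          rw [Finset.mem_Ico] at hk
          rw [hco k (by omega)]
          exact half_sq _
        refine le_trans ?_ h4
        rw [Nat.card_Ico, nsmul_eq_mul]
        have : (8 : ℝ) ≤ ((n + 1 - 14 : ℕ) : ℝ) := by
          exact_mod_cast (by omega : 8 ≤ n + 1 - 14)
        linarith
      rw [h1] at hnorm
      linarith

lemma ee_Lat (hn : 14 ≤ n) : vec n ee ∈ Lat n := by
  refine ⟨fun i => if i.val = 0 then 4 else if i.val = 1 then 2 else if i.val ≤ 13 then 1 else 0,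
    fun i => ?_, ?_⟩
  · simp only [vec, ee]
    split_ifs <;> simp
  · have h1 : (∑ i : Fin (n + 1), (if i.val = 0 then 4 else if i.val = 1 then 2 else
        if i.val ≤ 13 then 1 else 0 : ℤ)) = 18 := by
      rw [← Finset.sum_range (fun k : ℕ => (if k = 0 then 4 else if k = 1 then 2 else
        if k ≤ 13 then 1 else 0 : ℤ))]
      obtain ⟨j, rfl⟩ : ∃ j, n = 14 + j := ⟨n - 14, by omega⟩
      rw [show 14 + j + 1 = 14 + (j + 1) by ring, Finset.sum_range_add]
      have h2 : ∑ x ∈ Finset.range (j + 1), (if 14 + x = 0 then 4 else if 14 + x = 1 then 2 else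
        if 14 + x ≤ 13 then 1 else 0 : ℤ) = 0 := by
        apply Finset.sum_eq_zero
        intro x _
        rw [if_neg (by omega), if_neg (by omega), if_neg (by omega)]
      rw [h2]
      decide
    rw [h1]
    decide

lemma mm_Lat (hn : 14 ≤ n) : vec n mm ∈ Lat n := by
  refine ⟨fun i => if i.val = 0 then 1 else if i.val = 1 then 2 else if i.val = 14 then 1 else 0,
    fun i => ?_, ?_⟩
  · simp only [vec, mm]
    split_ifs <;> simp
  · have h1 : (∑ i : Fin (n + 1), (if i.val = 0 then 1 else if i.val = 1 then 2 else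
        if i.val = 14 then 1 else 0 : ℤ)) = 4 := by
      rw [← Finset.sum_range (fun k : ℕ => (if k = 0 then 1 else if k = 1 then 2 else
        if k = 14 then 1 else 0 : ℤ))]
      obtain ⟨j, rfl⟩ : ∃ j, n = 14 + j := ⟨n - 14, by omega⟩
      rw [show 14 + j + 1 = 15 + j by ring, Finset.sum_range_add]
      have h2 : ∑ x ∈ Finset.range j, (if 15 + x = 0 then 1 else if 15 + x = 1 then 2 else
        if 15 + x = 14 then 1 else 0 : ℤ) = 0 := by
        apply Finset.sum_eq_zero
        intro x _
        rw [if_neg (by omega), if_neg (by omega), if_neg (by omega)]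
      rw [h2]
      decide
    rw [h1]
    decide

/-- v is off all the mirrors -/
lemma reg (hn : 14 ≤ n) {r : V n} (hr : r ∈ Rts n) : B r (vec n (vv n)) ≠ 0 := by
  by_cases hre : B r (vec n ee) = 0
  · exact reg_perp hn hr hre _
  · intro hcon
    have h1 := cs_perp (vv_norm hn |>.trans (by norm_num)) hcon (Rts_pos hr) (ee_iso hn)
    rw [B_comm (vec n ee), ev hn] at h1
    obtain ⟨k, hk⟩ : ∃ k : ℤ, B r (vec n ee) = k := by
      rcases hr with ⟨h2, _⟩ | ⟨h2, _⟩
      · exact B_Lat h2 (ee_Lat hn)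
      · exact h2 _ (ee_Lat hn)
    rw [hk] at hre h1
    have hk0 : k ≠ 0 := by
      intro h2; apply hre; rw [h2]; simp
    have hk1 : (1 : ℝ) ≤ (k : ℝ) ^ 2 := by
      have : 1 ≤ k ^ 2 := by
        have := sq_pos_of_ne_zero (a := k) hk0 |> Int.add_one_le_iff.2
        simpa using this
      exact_mod_cast this
    have h3 := vv_norm hn
    have h4 : B r r ≤ 2 := by rcases Rts_norm hr with h | h <;> rw [h]; norm_num
    nlinarith

end Pool.Agent.H25Cong

end
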