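import Pool.Agent.Helper25_Cong.Bad2

open Finset

set_option linter.unusedSimpArgs false
set_option linter.unusedVariables false
set_option linter.unusedTactic false
set_option linter.unreachableTactic false

noncomputable section

namespace Pool.Agent.H25Cong

variable {n : ℕ}

/-- the index k -/
def I (n k : ℕ) : Fin (n + 1) := Fin.ofNat (n + 1) k

lemma I_val (hn : 14 ≤ n) {k : ℕ} (hk : k ≤ 14) : (I n k).val = k := by
  unfold I
  rw [Fin.val_ofNat]
  exact Nat.mod_eq_of_lt (by omega)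

/-- the root rho p -/
def rho (n p : ℕ) : V n := (ep (I n 0) + ep (I n 1)) + (ep (I n p) + ep (I n (15 - p)))

lemma I_zero : I n 0 = 0 := rfl

lemma I_ne (hn : 14 ≤ n) {k : ℕ} (hk : k ≤ 14) (hk1 : 1 ≤ k) : I n k ≠ 0 := by
  intro h
  have := I_val hn hk
  rw [h] at this
  simp at this
  omega

lemma eq_I (hn : 14 ≤ n) {k : ℕ} (hk : k ≤ 14) (i : Fin (n + 1)) : i = I n k ↔ i.val = k := by
  rw [Fin.ext_iff, I_val hn hk]

lemma rho_Lat (p : ℕ) : rho n p ∈ Lat n := (LatG n).add_mem ep_add_mem ep_add_mem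

lemma B_rho (hn : 14 ≤ n) {p : ℕ} (hp : 2 ≤ p) (hp' : p ≤ 13) (x : V n) :
    B x (rho n p) = - x (I n 0) + x (I n 1) + x (I n p) + x (I n (15 - p)) := by
  unfold rho
  rw [B_add_right, B_add_right, B_add_right, B_ep', B_ep', B_ep', B_ep', if_pos I_zero,
    if_neg (I_ne hn (by omega) (by omega)), if_neg (I_ne hn (by omega) (by omega)),
    if_neg (I_ne hn (by omega) (by omega))]
  ring

lemma rho_apply (hn : 14 ≤ n) {p : ℕ} (hp : 2 ≤ p) (hp' : p ≤ 13) (i : Fin (n + 1)) :
    rho n p i = (if i.val = 0 then 1 else 0) + (if i.val = 1 then 1 else 0) +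
      ((if i.val = p then 1 else 0) + (if i.val = 15 - p then 1 else 0)) := by
  unfold rho
  simp only [Pi.add_apply, ep_apply, eq_I hn (show 0 ≤ 14 by omega),
    eq_I hn (show 1 ≤ 14 by omega), eq_I hn (show p ≤ 14 by omega),
    eq_I hn (show 15 - p ≤ 14 by omega)]

lemma rho_norm (hn : 14 ≤ n) {p : ℕ} (hp : 2 ≤ p) (hp' : p ≤ 7) :
    B (rho n p) (rho n p) = 2 := by
  rw [B_rho hn hp (by omega)]
  simp only [rho_apply hn hp (show p ≤ 13 by omega), I_val hn (show 0 ≤ 14 by omega),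
    I_val hn (show 1 ≤ 14 by omega), I_val hn (show p ≤ 14 by omega),
    I_val hn (show 15 - p ≤ 14 by omega)]
  have h1 : ¬ (p = 0) := by omega
  have h2 : ¬ (p = 1) := by omega
  have h3 : ¬ (15 - p = 0) := by omega
  have h4 : ¬ (15 - p = 1) := by omega
  have h5 : ¬ (p = 15 - p) := by omega
  have h6 : ¬ (0 = p) := by omega
  have h7 : ¬ (0 = 15 - p) := by omega
  have h8 : ¬ (1 = p) := by omega
  have h9 : ¬ (1 = 15 - p) := by omega
  have h10 : ¬ (15 - p = p) := by omega
  simp [h1, h2, h3, h4, h5, h6, h7, h8, h9, h10]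
  norm_num

lemma rho_orth (hn : 14 ≤ n) {p q : ℕ} (hp : 2 ≤ p) (hp' : p ≤ 7) (hq : 2 ≤ q) (hq' : q ≤ 7)
    (hpq : p ≠ q) : B (rho n p) (rho n q) = 0 := by
  rw [B_rho hn hq (by omega)]
  simp only [rho_apply hn hp (show p ≤ 13 by omega), I_val hn (show 0 ≤ 14 by omega),
    I_val hn (show 1 ≤ 14 by omega), I_val hn (show q ≤ 14 by omega),
    I_val hn (show 15 - q ≤ 14 by omega)]
  have h1 : ¬ (q = 0) := by omega
  have h2 : ¬ (q = 1) := by omega
  have h3 : ¬ (15 - q = 0) := by omega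
  have h4 : ¬ (15 - q = 1) := by omega
  have h5 : ¬ (q = 15 - p) := by omega
  have h6 : ¬ (0 = p) := by omega
  have h7 : ¬ (0 = 15 - p) := by omega
  have h8 : ¬ (1 = p) := by omega
  have h9 : ¬ (1 = 15 - p) := by omega
  have h10 : ¬ (15 - q = p) := by omega
  have h11 : ¬ (q = p) := by omega
  have h12 : ¬ (15 - q = 15 - p) := by omega
  simp [h1, h2, h3, h4, h5, h6, h7, h8, h9, h10, h11, h12]

/-- product of reflections in mutually orthogonal roots of norm 2 -/
lemma prod_orth (l : List (V n)) (h1 : ∀ a ∈ l, B a a = 2)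
    (h2 : l.Pairwise fun a b => B b a = 0) (x : V n) :
    (l.map S).prod x = x - (l.map (fun a => B x a • a)).sum := by
  induction l with
  | nil => simp
  | cons a t ih =>
    rw [List.pairwise_cons] at h2
    rw [List.map_cons, List.prod_cons, mul_ap, ih (fun b hb => h1 b (by simp [hb])) h2.2,
      S_apply, h1 a (by simp), List.map_cons, List.sum_cons]
    have h3 : B (t.map (fun a => B x a • a)).sum a = 0 := by
      have h4 : ∀ b ∈ t, B b a = 0 := h2.1
      clear ih h1 h2
      induction t with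
      | nil => simp
      | cons b t ih =>
        rw [List.map_cons, List.sum_cons, B_add_left, B_smul_left, h4 b (by simp), mul_zero,
          zero_add]
        exact ih (fun c hc => h4 c (by simp [hc]))
    rw [B_sub_left, h3, sub_zero]
    have : 2 * B x a / 2 = B x a := by ring
    rw [this]
    abel

def rhos (n : ℕ) : List (V n) := [rho n 2, rho n 3, rho n 4, rho n 5, rho n 6, rho n 7]

lemma rhos_norm (hn : 14 ≤ n) : ∀ a ∈ rhos n, B a a = 2 := by
  intro a ha
  simp only [rhos, List.mem_cons, List.not_mem_nil, or_false] at ha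
  rcases ha with rfl | rfl | rfl | rfl | rfl | rfl <;>
    exact rho_norm hn (by norm_num) (by norm_num)

lemma rhos_pair (hn : 14 ≤ n) : (rhos n).Pairwise fun a b => B b a = 0 := by
  unfold rhos
  simp only [List.pairwise_cons, List.mem_cons, List.not_mem_nil, or_false, forall_eq_or_imp,
    forall_eq, IsEmpty.forall_iff, implies_true, List.Pairwise.nil, and_true]
  refine ⟨⟨?_, ?_, ?_, ?_, ?_⟩, ⟨?_, ?_, ?_, ?_⟩, ⟨?_, ?_, ?_⟩, ⟨?_, ?_⟩, ?_⟩ <;>
    exact rho_orth hn (by norm_num) (by norm_num) (by norm_num) (by norm_num) (by norm_num)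

lemma rho_Rts (hn : 14 ≤ n) {p : ℕ} (hp : 2 ≤ p) (hp' : p ≤ 7) : rho n p ∈ Rts n :=
  Or.inl ⟨rho_Lat p, rho_norm hn hp hp'⟩

lemma rhos_mem (hn : 14 ≤ n) : ((rhos n).map S).prod ∈ W n := by
  have hn1 : 1 ≤ n := by omega
  apply list_prod_mem
  intro g hg
  rw [List.mem_map] at hg
  obtain ⟨a, ha, rfl⟩ := hg
  apply S_mem hn1
  simp only [rhos, List.mem_cons, List.not_mem_nil, or_false] at ha
  rcases ha with rfl | rfl | rfl | rfl | rfl | rfl <;>
    exact rho_Rts hn (by norm_num) (by norm_num)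

lemma ep14_norm (hn : 14 ≤ n) : B (ep (I n 14) : V n) (ep (I n 14)) = 1 := by
  rw [B_ep', if_neg (I_ne hn (by omega) (by omega))]
  simp [ep_apply]

lemma ep14_Rts (hn : 14 ≤ n) : (ep (I n 14) : V n) ∈ Rts n := by
  right
  refine ⟨?_, ep14_norm hn⟩
  rintro y ⟨z, hz, -⟩
  refine ⟨z (I n 14), ?_⟩
  rw [B_comm, B_ep', if_neg (I_ne hn (by omega) (by omega)), hz, one_mul]

/-- the element s of W -/
def ss (n : ℕ) : V n ≃ₗ[ℝ] V n := S (ep (I n 14)) * ((rhos n).map S).prod

lemma ss_mem (hn : 14 ≤ n) : ss n ∈ W n :=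
  mul_mem (S_mem (by omega) (ep14_Rts hn)) (rhos_mem hn)

/-- formula for s -/
lemma ss_apply (hn : 14 ≤ n) (x : V n) : ss n x =
    x - (B x (rho n 2) • rho n 2 + (B x (rho n 3) • rho n 3 + (B x (rho n 4) • rho n 4 +
      (B x (rho n 5) • rho n 5 + (B x (rho n 6) • rho n 6 + B x (rho n 7) • rho n 7))))) -
      (2 * x (I n 14)) • ep (I n 14) := by
  unfold ss
  rw [mul_ap, prod_orth _ (rhos_norm hn) (rhos_pair hn), S_apply, ep14_norm hn,
    B_ep', if_neg (I_ne hn (by omega) (by omega))]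
  have h1 : ((rhos n).map (fun a => B x a • a)).sum = (B x (rho n 2) • rho n 2 +
      (B x (rho n 3) • rho n 3 + (B x (rho n 4) • rho n 4 + (B x (rho n 5) • rho n 5 +
      (B x (rho n 6) • rho n 6 + B x (rho n 7) • rho n 7))))) := by
    simp [rhos]
  rw [h1]
  congr 1
  congr 1
  have h2 : ∀ p, 2 ≤ p → p ≤ 7 → rho n p (I n 14) = 0 := by
    intro p hp hp'
    rw [rho_apply hn hp (by omega), I_val hn (by omega), if_neg (by omega), if_neg (by omega),
      if_neg (by omega), if_neg (by omega)]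
    ring
  simp only [Pi.sub_apply, Pi.add_apply, Pi.smul_apply, h2 2 (by norm_num) (by norm_num),
    h2 3 (by norm_num) (by norm_num), h2 4 (by norm_num) (by norm_num),
    h2 5 (by norm_num) (by norm_num), h2 6 (by norm_num) (by norm_num),
    h2 7 (by norm_num) (by norm_num)]
  simp

/-- E(e,m) v -/
lemma Ev (hn : 14 ≤ n) (t : ℝ) (h1 : B (vec n ee) (vec n ee) = 0)
    (h2 : B (vec n mm) (vec n ee) = 0) :
    E (vec n ee) (vec n mm) h1 h2 (vec n (vv t)) =
      vec n (vv t) - vec n mm - (1 / 2 : ℝ) • vec n ee := by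
  rw [E_apply, ev hn, vm hn, mm_norm hn]
  ext i
  simp only [Pi.add_apply, Pi.sub_apply, Pi.smul_apply, smul_eq_mul]
  ring

lemma uu_sum {p : ℕ} (hp : 2 ≤ p) (hp' : p ≤ 7) : uu p + uu (15 - p) = 1 / 2 := by
  unfold uu
  rw [if_pos (by omega), if_pos (by omega), Nat.cast_sub (by omega)]
  push_cast; ring

lemma fix (hn : 14 ≤ n) (t : ℝ) (h1 : B (vec n ee) (vec n ee) = 0)
    (h2 : B (vec n mm) (vec n ee) = 0) :
    (ss n * E (vec n ee) (vec n mm) h1 h2) (vec n (vv t)) = vec n (vv t) := by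
  rw [mul_ap, Ev hn]
  set y : V n := vec n (vv t) - vec n mm - (1 / 2 : ℝ) • vec n ee with hy
  have hyv : ∀ i : Fin (n + 1), y i = vv t i.val - mm i.val - 1 / 2 * ee i.val := by
    intro i; rfl
  have hrho : ∀ p, 2 ≤ p → p ≤ 7 → B y (rho n p) = - (1 / 2) := by
    intro p hp hp'
    rw [B_rho hn hp (by omega), hyv, hyv, hyv, hyv, I_val hn (by omega), I_val hn (by omega),
      I_val hn (by omega), I_val hn (by omega)]
    have h3 := uu_sum hp hp'
    have e0 : vv t 0 - mm 0 - 1 / 2 * ee 0 = 4 * t - 1 := by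
      simp [vv, mm, ee] <;> ring
    have e1 : vv t 1 - mm 1 - 1 / 2 * ee 1 = 2 * t - 1 := by
      simp [vv, mm, ee] <;> ring
    have e2 : ∀ q, 2 ≤ q → q ≤ 13 → vv t q - mm q - 1 / 2 * ee q = t + uu q - 1 / 2 := by
      intro q hq hq'
      unfold vv mm ee
      rw [if_neg (by omega), if_neg (by omega), if_pos (by omega), if_neg (by omega),
        if_neg (by omega), if_neg (by omega), if_neg (by omega), if_neg (by omega),
        if_pos (by omega)]
      ring
    rw [e0, e1, e2 p hp (by omega), e2 (15 - p) (by omega) (by omega)]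
    linarith
  rw [ss_apply hn, hrho 2 (by norm_num) (by norm_num), hrho 3 (by norm_num) (by norm_num),
    hrho 4 (by norm_num) (by norm_num), hrho 5 (by norm_num) (by norm_num),
    hrho 6 (by norm_num) (by norm_num), hrho 7 (by norm_num) (by norm_num)]
  have h14 : y (I n 14) = - (1 / 2) := by
    rw [hyv, I_val hn (by omega)]
    simp [vv, mm, ee, uu]
    norm_num
  rw [h14]
  ext i
  simp only [Pi.add_apply, Pi.sub_apply, Pi.smul_apply, smul_eq_mul, hyv, ep_apply,
    eq_I hn (show 14 ≤ 14 by omega), vec,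
    rho_apply hn (show 2 ≤ 2 by norm_num) (show 2 ≤ 13 by norm_num),
    rho_apply hn (show 2 ≤ 3 by norm_num) (show 3 ≤ 13 by norm_num),
    rho_apply hn (show 2 ≤ 4 by norm_num) (show 4 ≤ 13 by norm_num),
    rho_apply hn (show 2 ≤ 5 by norm_num) (show 5 ≤ 13 by norm_num),
    rho_apply hn (show 2 ≤ 6 by norm_num) (show 6 ≤ 13 by norm_num),
    rho_apply hn (show 2 ≤ 7 by norm_num) (show 7 ≤ 13 by norm_num)]
  generalize i.val = k
  rcases Nat.lt_or_ge k 15 with hk | hk
  · interval_cases k <;> simp [vv, mm, ee, uu] <;> ring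
  · have a0 : k ≠ 0 := by omega
    have a1 : k ≠ 1 := by omega
    have a14 : k ≠ 14 := by omega
    have a13 : ¬ (k ≤ 13) := by omega
    have b2 : k ≠ 2 := by omega
    have b3 : k ≠ 3 := by omega
    have b4 : k ≠ 4 := by omega
    have b5 : k ≠ 5 := by omega
    have b6 : k ≠ 6 := by omega
    have b7 : k ≠ 7 := by omega
    have b8 : k ≠ 8 := by omega
    have b9 : k ≠ 9 := by omega
    have b10 : k ≠ 10 := by omega
    have b11 : k ≠ 11 := by omega
    have b12 : k ≠ 12 := by omega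
    have b13 : k ≠ 13 := by omega
    simp [vv, mm, ee, a0, a1, a14, a13, b2, b3, b4, b5, b6, b7, b8, b9, b10, b11, b12, b13]

/-- w is not the identity -/
lemma ne_one (hn : 14 ≤ n) (h1 : B (vec n ee) (vec n ee) = 0)
    (h2 : B (vec n mm) (vec n ee) = 0) :
    ss n * E (vec n ee) (vec n mm) h1 h2 ≠ 1 := by
  intro hcon
  have h3 : (ss n * E (vec n ee) (vec n mm) h1 h2) (ep (I n 14)) 0 = (ep (I n 14) : V n) 0 := by
    rw [hcon]; rfl
  have hI0 : I n 14 ≠ 0 := I_ne hn (by omega) (by omega)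
  have e1 : (ep (I n 14) : V n) 0 = 0 := by
    rw [ep_apply, if_neg hI0.symm]
  have hv : ∀ (g : ℕ → ℝ) {k : ℕ}, k ≤ 14 → vec n g (I n k) = g k := by
    intro g k hk
    show g (I n k).val = g k
    rw [I_val hn hk]
  have e2 : B (ep (I n 14) : V n) (vec n ee) = 0 := by
    rw [B_comm, B_ep', if_neg hI0, hv ee (by omega)]
    simp [ee]
  have e3 : B (ep (I n 14) : V n) (vec n mm) = 1 := by
    rw [B_comm, B_ep', if_neg hI0, hv mm (by omega)]
    simp [mm]
  have hEe : E (vec n ee) (vec n mm) h1 h2 (ep (I n 14)) = ep (I n 14) - vec n ee := by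
    rw [E_apply, e2, e3]
    simp
  rw [mul_ap, hEe] at h3
  have hrho : ∀ p, 2 ≤ p → p ≤ 7 → B (ep (I n 14) - vec n ee) (rho n p) = 0 := by
    intro p hp hp'
    rw [B_rho hn hp (by omega)]
    simp only [Pi.sub_apply, hv ee (show 0 ≤ 14 by omega), hv ee (show 1 ≤ 14 by omega),
      hv ee (show p ≤ 14 by omega), hv ee (show 15 - p ≤ 14 by omega), ep_apply,
      eq_I hn (show 14 ≤ 14 by omega), I_val hn (show 0 ≤ 14 by omega),
      I_val hn (show 1 ≤ 14 by omega), I_val hn (show p ≤ 14 by omega),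
      I_val hn (show 15 - p ≤ 14 by omega)]
    rw [if_neg (by omega), if_neg (by omega), if_neg (by omega), if_neg (by omega)]
    unfold ee
    rw [if_pos rfl, if_neg (by omega), if_pos rfl, if_neg (by omega), if_neg (by omega),
      if_pos (by omega), if_neg (by omega), if_neg (by omega), if_pos (by omega)]
    norm_num
  rw [ss_apply hn, hrho 2 (by norm_num) (by norm_num), hrho 3 (by norm_num) (by norm_num),
    hrho 4 (by norm_num) (by norm_num), hrho 5 (by norm_num) (by norm_num),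
    hrho 6 (by norm_num) (by norm_num), hrho 7 (by norm_num) (by norm_num)] at h3
  have e0 : vec n ee 0 = 4 := by
    show ee ((0 : Fin (n + 1)).val) = 4
    simp [ee]
  simp only [Pi.add_apply, Pi.sub_apply, Pi.smul_apply, smul_eq_mul, e1, e0, zero_mul] at h3
  norm_num at h3

/-- the cusp e is bad -/
theorem bad (hn : 14 ≤ n) (h1 : B (vec n ee) (vec n ee) = 0)
    (h2 : B (vec n mm) (vec n ee) = 0) : ¬ InW n (E (vec n ee) (vec n mm) h1 h2) := by
  rintro ⟨h, hW, hh⟩
  have hn1 : 1 ≤ n := by omega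
  have hv := vv_norm hn
  have hv0 : B (vec n (vv n)) (vec n (vv n)) < 0 := by linarith
  rcases hh with hh | hh
  · have he : h = E (vec n ee) (vec n mm) h1 h2 := by
      ext1 x; exact hh x
    rw [he] at hW
    have h3 := mul_mem (ss_mem hn) hW
    rw [W_eq hn1] at h3
    exact ne_one hn h1 h2 (free (rootSys hn1 hv0 (fun r hr => reg hn hr)) h3 (fix hn _ h1 h2))
  · have h3 := mul_mem (ss_mem hn) hW
    have h4 := (W_props hn1 h3).2.2.2 (vec n (vv n)) hv0 (by
      show 0 < vv (n : ℝ) ((0 : Fin (n + 1)).val)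
      simp only [Fin.val_zero, vv, if_true]
      positivity)
    have h5 : (ss n * h) (vec n (vv n)) = - vec n (vv n) := by
      rw [mul_ap, hh, map_neg, ← mul_ap, fix hn]
    rw [h5] at h4
    have h6 : 0 < vec n (vv (n : ℝ)) 0 := by
      show 0 < vv (n : ℝ) ((0 : Fin (n + 1)).val)
      simp only [Fin.val_zero, vv, if_true]
      positivity
    rw [Pi.neg_apply] at h4
    linarith

end Pool.Agent.H25Cong

end
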