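import Pool.Agent.Helper25_Cong.Defs

open Finset

set_option linter.unusedSimpArgs false
set_option linter.unusedVariables false

noncomputable section

namespace Pool.Agent.H25Cong

variable {n : ℕ}

lemma B_comm (x y : V n) : B x y = B y x := by
  unfold B
  simp only [mul_comm]

lemma B_add_left (x y z : V n) : B (x + y) z = B x z + B y z := by
  unfold B
  simp only [Pi.add_apply, add_mul, Finset.sum_add_distrib]
  ring

lemma B_add_right (x y z : V n) : B x (y + z) = B x y + B x z := by
  rw [B_comm, B_add_left, B_comm y, B_comm z]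

lemma B_smul_left (c : ℝ) (x y : V n) : B (c • x) y = c * B x y := by
  unfold B
  simp only [Pi.smul_apply, smul_eq_mul, mul_assoc, mul_sub, Finset.mul_sum]
  ring

lemma B_smul_right (c : ℝ) (x y : V n) : B x (c • y) = c * B x y := by
  rw [B_comm, B_smul_left, B_comm]

lemma B_neg_left (x y : V n) : B (-x) y = - B x y := by
  have := B_smul_left (-1) x y
  simpa using this

lemma B_neg_right (x y : V n) : B x (-y) = - B x y := by
  rw [B_comm, B_neg_left, B_comm]

lemma B_sub_left (x y z : V n) : B (x - y) z = B x z - B y z := by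
  rw [sub_eq_add_neg, B_add_left, B_neg_left]; ring

lemma B_sub_right (x y z : V n) : B x (y - z) = B x y - B x z := by
  rw [sub_eq_add_neg, B_add_right, B_neg_right]; ring

@[simp] lemma B_zero_left (x : V n) : B 0 x = 0 := by simp [B]
@[simp] lemma B_zero_right (x : V n) : B x 0 = 0 := by simp [B]

lemma B_sum_left {ι : Type*} (s : Finset ι) (f : ι → V n) (y : V n) :
    B (∑ i ∈ s, f i) y = ∑ i ∈ s, B (f i) y := by
  classical
  induction s using Finset.induction_on with
  | empty => simp
  | insert a s ha ih => rw [Finset.sum_insert ha, Finset.sum_insert ha, B_add_left, ih]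

lemma B_sum_right {ι : Type*} (s : Finset ι) (f : ι → V n) (y : V n) :
    B y (∑ i ∈ s, f i) = ∑ i ∈ s, B y (f i) := by
  rw [B_comm, B_sum_left]
  exact Finset.sum_congr rfl fun i _ => B_comm _ _

/-- The standard basis vector. -/
abbrev ep (i : Fin (n + 1)) : V n := Pi.single i 1

lemma B_ep_zero (x : V n) : B x (ep 0) = - x 0 := by
  unfold B ep
  simp [Pi.single_apply]
  ring

lemma B_ep (x : V n) {i : Fin (n + 1)} (hi : i ≠ 0) : B x (ep i) = x i := by
  unfold B ep
  simp [Pi.single_apply, hi, hi.symm]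

/-! ### Reflections -/

/-- the reflection in r, as a linear map -/
def rl (r : V n) : V n →ₗ[ℝ] V n where
  toFun x := x - (2 * B x r / B r r) • r
  map_add' x y := by
    rw [B_add_left]
    have : 2 * (B x r + B y r) / B r r = 2 * B x r / B r r + 2 * B y r / B r r := by ring
    rw [this, add_smul]
    abel
  map_smul' c x := by
    rw [B_smul_left]
    have : 2 * (c * B x r) / B r r = c * (2 * B x r / B r r) := by ring
    rw [this, mul_smul, RingHom.id_apply, smul_sub]

lemma rl_apply (r x : V n) : rl r x = x - (2 * B x r / B r r) • r := rfl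

lemma rl_invol (r : V n) : Function.Involutive (rl r) := by
  intro x
  rw [rl_apply, rl_apply]
  by_cases h : B r r = 0
  · simp [h]
  · rw [B_sub_left, B_smul_left]
    have : 2 * (B x r - 2 * B x r / B r r * B r r) / B r r = - (2 * B x r / B r r) := by
      field_simp
      ring
    rw [this, neg_smul]
    abel

/-- the reflection in r, as a linear automorphism (the identity when r is isotropic) -/
def S (r : V n) : V n ≃ₗ[ℝ] V n := LinearEquiv.ofInvolutive (rl r) (rl_invol r)

lemma S_apply (r x : V n) : S r x = x - (2 * B x r / B r r) • r := rfl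

lemma S_mul_self (r : V n) : S r * S r = 1 := by
  ext1 x
  exact rl_invol r x

lemma S_inv (r : V n) : (S r)⁻¹ = S r := by
  rw [inv_eq_iff_mul_eq_one]; exact S_mul_self r

lemma S_S (r x : V n) : S r (S r x) = x := rl_invol r x

lemma S_isom (r x y : V n) : B (S r x) (S r y) = B x y := by
  rw [S_apply, S_apply]
  by_cases h : B r r = 0
  · simp [h]
  · simp only [B_sub_left, B_sub_right, B_smul_left, B_smul_right, B_comm r y]
    field_simp
    ring

lemma S_self (r : V n) (h : B r r ≠ 0) : S r r = - r := by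
  rw [S_apply]
  have : 2 * B r r / B r r = 2 := by field_simp
  rw [this, two_smul]
  abel

lemma S_smul (c : ℝ) (hc : c ≠ 0) (r : V n) : S (c • r) = S r := by
  ext1 x
  rw [S_apply, S_apply, B_smul_right, B_smul_left, B_smul_right, smul_smul]
  congr 2
  by_cases h : B r r = 0
  · simp [h]
  · field_simp

lemma S_neg (r : V n) : S (-r) = S r := by
  have := S_smul (-1) (by norm_num) r
  simpa using this

/-- g is an isometry of B -/
def Isom (g : V n ≃ₗ[ℝ] V n) : Prop := ∀ x y, B (g x) (g y) = B x y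

lemma Isom.inv {g : V n ≃ₗ[ℝ] V n} (hg : Isom g) : Isom g⁻¹ := by
  intro x y
  have h := hg (g⁻¹ x) (g⁻¹ y)
  have h1 : ∀ z, g (g⁻¹ z) = z := fun z => g.apply_symm_apply z
  rw [h1, h1] at h
  exact h.symm

lemma Isom.mul {g h : V n ≃ₗ[ℝ] V n} (hg : Isom g) (hh : Isom h) : Isom (g * h) := by
  intro x y
  rw [LinearEquiv.mul_apply, LinearEquiv.mul_apply, hg, hh]

lemma Isom_one : Isom (1 : V n ≃ₗ[ℝ] V n) := fun _ _ => rfl

lemma ap_inv (g : V n ≃ₗ[ℝ] V n) (x : V n) : g (g⁻¹ x) = x := g.apply_symm_apply x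
lemma inv_ap (g : V n ≃ₗ[ℝ] V n) (x : V n) : g⁻¹ (g x) = x := g.symm_apply_apply x
lemma mul_ap (g h : V n ≃ₗ[ℝ] V n) (x : V n) : (g * h) x = g (h x) := rfl
lemma one_ap (x : V n) : (1 : V n ≃ₗ[ℝ] V n) x = x := rfl

lemma S_conj {g : V n ≃ₗ[ℝ] V n} (hg : Isom g) (r : V n) : g * S r * g⁻¹ = S (g r) := by
  ext1 x
  rw [mul_ap, mul_ap, S_apply, S_apply, map_sub, map_smul, ap_inv, hg]
  have : B (g⁻¹ x) r = B x (g r) := by
    rw [← hg, ap_inv]
  rw [this]

/-! ### Eichler transformations -/

/-- E(e,m) as a function -/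
def Ef (e m x : V n) : V n := x + B x e • m - B x m • e - (B m m / 2 * B x e) • e

lemma Ef_Ef (e m m' : V n) (he : B e e = 0) (hm : B m e = 0) (hm' : B m' e = 0) (x : V n) :
    Ef e m (Ef e m' x) = Ef e (m + m') x := by
  unfold Ef
  have hem : B e m = 0 := by rw [B_comm]; exact hm
  have hem' : B e m' = 0 := by rw [B_comm]; exact hm'
  simp only [B_add_left, B_add_right, B_sub_left, B_smul_left, he, hm, hm', hem, hem', B_comm m' m]
  ext i
  simp only [Pi.add_apply, Pi.sub_apply, Pi.smul_apply, smul_eq_mul]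
  ring

/-- E(e,m) as a linear automorphism -/
def E (e m : V n) (he : B e e = 0) (hm : B m e = 0) : V n ≃ₗ[ℝ] V n where
  toFun x := Ef e m x
  map_add' x y := by
    unfold Ef
    simp only [B_add_left]
    ext i
    simp only [Pi.add_apply, Pi.sub_apply, Pi.smul_apply, smul_eq_mul]
    ring
  map_smul' c x := by
    unfold Ef
    simp only [B_smul_left]
    ext i
    simp only [Pi.add_apply, Pi.sub_apply, Pi.smul_apply, smul_eq_mul, RingHom.id_apply]
    ring
  invFun x := Ef e (-m) x
  left_inv x := by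
    show Ef e (-m) (Ef e m x) = x
    rw [Ef_Ef e (-m) m he (by rw [B_neg_left, hm, neg_zero]) hm]
    unfold Ef
    simp
  right_inv x := by
    show Ef e m (Ef e (-m) x) = x
    rw [Ef_Ef e m (-m) he hm (by rw [B_neg_left, hm, neg_zero])]
    unfold Ef
    simp

lemma E_apply (e m : V n) (he : B e e = 0) (hm : B m e = 0) (x : V n) :
    E e m he hm x = x + B x e • m - B x m • e - (B m m / 2 * B x e) • e := rfl

lemma E_isom (e m : V n) (he : B e e = 0) (hm : B m e = 0) : Isom (E e m he hm) := by
  intro x y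
  rw [E_apply, E_apply]
  have hem : B e m = 0 := by rw [B_comm]; exact hm
  simp only [B_add_left, B_add_right, B_sub_left, B_sub_right, B_smul_left, B_smul_right,
    he, hm, hem, B_comm e y, B_comm m y]
  ring

lemma E_mul (e m m' : V n) (he : B e e = 0) (hm : B m e = 0) (hm' : B m' e = 0)
    (hmm : B (m + m') e = 0) :
    E e m he hm * E e m' he hm' = E e (m + m') he hmm := by
  ext1 x
  exact Ef_Ef e m m' he hm hm' x

lemma E_zero (e : V n) (he : B e e = 0) (h : B 0 e = 0) : E e 0 he h = 1 := by
  ext1 x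
  rw [E_apply, one_ap]
  simp

lemma E_inv (e m : V n) (he : B e e = 0) (hm : B m e = 0) (hm' : B (-m) e = 0) :
    (E e m he hm)⁻¹ = E e (-m) he hm' := by
  rw [inv_eq_iff_mul_eq_one, E_mul e m (-m) he hm hm' (by simp)]
  ext1 x
  rw [E_apply, one_ap]
  simp

lemma E_conj {g : V n ≃ₗ[ℝ] V n} (hg : Isom g) (e m : V n) (he : B e e = 0) (hm : B m e = 0)
    (he' : B (g e) (g e) = 0) (hm' : B (g m) (g e) = 0) :
    g * E e m he hm * g⁻¹ = E (g e) (g m) he' hm' := by
  ext1 x
  rw [mul_ap, mul_ap, E_apply, E_apply]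
  have h1 : ∀ z, B (g⁻¹ x) z = B x (g z) := by
    intro z
    rw [← hg, ap_inv]
  rw [h1, h1, map_sub, map_sub, map_add, map_smul, map_smul, map_smul, ap_inv, hg m m]

lemma E_congr {e m e' m' : V n} (h1 : e = e') (h2 : m = m') (he : B e e = 0) (hm : B m e = 0)
    (he' : B e' e' = 0) (hm' : B m' e' = 0) : E e m he hm = E e' m' he' hm' := by
  subst h1; subst h2; rfl

/-- adding a multiple of e to m does not change E(e,m) -/
lemma E_add_self (e m : V n) (c : ℝ) (he : B e e = 0) (hm : B m e = 0)
    (hm' : B (m + c • e) e = 0) : E e (m + c • e) he hm' = E e m he hm := by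
  ext1 x
  have hem : B e m = 0 := by rw [B_comm]; exact hm
  rw [E_apply, E_apply]
  simp only [B_add_left, B_add_right, B_smul_left, B_smul_right, he, hm, hem]
  ext i
  simp only [Pi.add_apply, Pi.sub_apply, Pi.smul_apply, smul_eq_mul]
  ring

/-- scaling: E(c e, m) = E(e, c m) -/
lemma E_smul (e m : V n) (c : ℝ) (he : B e e = 0) (hm : B m e = 0)
    (he' : B (c • e) (c • e) = 0) (hm' : B m (c • e) = 0) (hm'' : B (c • m) e = 0) :
    E (c • e) m he' hm' = E e (c • m) he hm'' := by
  ext1 x
  rw [E_apply, E_apply]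
  simp only [B_smul_left, B_smul_right]
  ext i
  simp only [Pi.add_apply, Pi.sub_apply, Pi.smul_apply, smul_eq_mul]
  ring

/-- two reflections in parallel roots of norm 2 -/
lemma S_mul_S (e r : V n) (he : B e e = 0) (hr : B r r = 2) (hre : B r e = 0)
    (h : B (-r) e = 0) : S (r + e) * S r = E e (-r) he h := by
  ext1 x
  have her : B e r = 0 := by rw [B_comm]; exact hre
  rw [mul_ap, S_apply, S_apply, E_apply]
  simp only [B_add_left, B_add_right, B_sub_left, B_smul_left, B_neg_left, B_neg_right,
    he, hr, hre, her]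
  ext i
  simp only [Pi.add_apply, Pi.sub_apply, Pi.smul_apply, Pi.neg_apply, smul_eq_mul]
  ring

end Pool.Agent.H25Cong

end
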