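import Pool.Agent.Helper25_Cong.Refl

open Finset

set_option linter.unusedSimpArgs false
set_option linter.unusedVariables false

noncomputable section

namespace Pool.Agent.H25Cong

variable {n : ℕ}

/-- the vectors m for which E(e,m) lies in the group G -/
def HG (e : V n) (he : B e e = 0) (G : Subgroup (V n ≃ₗ[ℝ] V n)) : AddSubgroup (V n) where
  carrier := {m | ∃ h : B m e = 0, E e m he h ∈ G}
  add_mem' := by
    rintro x y ⟨hx, hx'⟩ ⟨hy, hy'⟩
    have h : B (x + y) e = 0 := by rw [B_add_left, hx, hy, add_zero]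
    exact ⟨h, by rw [← E_mul e x y he hx hy h]; exact mul_mem hx' hy'⟩
  zero_mem' := ⟨by simp, by rw [E_zero]; exact one_mem _⟩
  neg_mem' := by
    rintro x ⟨hx, hx'⟩
    have h : B (-x) e = 0 := by rw [B_neg_left, hx, neg_zero]
    exact ⟨h, by rw [← E_inv e x he hx h]; exact inv_mem hx'⟩

lemma HG_self (e : V n) (he : B e e = 0) (G : Subgroup (V n ≃ₗ[ℝ] V n)) (c : ℝ) :
    c • e ∈ HG e he G := by
  have h : B (c • e) e = 0 := by rw [B_smul_left, he, mul_zero]
  refine ⟨h, ?_⟩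
  have h2 : B (0 + c • e) e = 0 := by rw [zero_add]; exact h
  have h1 := E_add_self e 0 c he (by simp) h2
  rw [E_zero] at h1
  rw [E_congr rfl (zero_add (c • e)).symm he h he h2, h1]
  exact one_mem _

lemma HG_zsmul (e : V n) (he : B e e = 0) (G : Subgroup (V n ≃ₗ[ℝ] V n)) {x : V n}
    (hx : x ∈ HG e he G) (k : ℤ) : (k : ℝ) • x ∈ HG e he G := by
  have := (HG e he G).zsmul_mem hx k
  rw [← Int.cast_smul_eq_zsmul ℝ] at this
  exact this

lemma HG_root (hn : 1 ≤ n) {e r : V n} (he : B e e = 0) (heL : e ∈ Lat n) (hrL : r ∈ Lat n)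
    (hr : B r r = 2) (hre : B r e = 0) : r ∈ HG e he (W n) := by
  have h : B (-r) e = 0 := by rw [B_neg_left, hre, neg_zero]
  have h1 := S_mul_S e r he hr hre h
  have h2 : -r ∈ HG e he (W n) := by
    refine ⟨h, ?_⟩
    rw [← h1]
    apply mul_mem
    · apply S_mem hn
      left
      refine ⟨(LatG n).add_mem hrL heL, ?_⟩
      rw [B_add_left, B_add_right, B_add_right, hr, he, hre, B_comm e r, hre]
      norm_num
    · exact S_mem hn (Or.inl ⟨hrL, hr⟩)
  simpa using (HG e he (W n)).neg_mem h2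

/-- an isotropic vector all of whose Eichler transformations lie in W -/
def Good (e : V n) : Prop :=
  ∃ he : B e e = 0, ∀ m ∈ Lat n, ∀ h : B m e = 0, E e m he h ∈ W n

lemma Good.map (hn : 1 ≤ n) {g : V n ≃ₗ[ℝ] V n} (hg : g ∈ W n) {e : V n} (h : Good e) :
    Good (g e) := by
  obtain ⟨he, h1⟩ := h
  obtain ⟨hi, hL, hL', -⟩ := W_props hn hg
  have he' : B (g e) (g e) = 0 := by rw [hi]; exact he
  refine ⟨he', fun m hm hme => ?_⟩
  have h2 : B (g⁻¹ m) e = 0 := by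
    rw [← hi, ap_inv]; exact hme
  have h3 := h1 (g⁻¹ m) (hL' m hm) h2
  have h4 : B (g (g⁻¹ m)) (g e) = 0 := by rw [ap_inv]; exact hme
  have h5 := E_conj hi e (g⁻¹ m) he h2 he' h4
  rw [E_congr rfl (ap_inv g m).symm he' hme he' h4, ← h5]
  exact mul_mem (mul_mem hg h3) (inv_mem hg)

lemma isot (i : Fin (n + 1)) (hi : i ≠ 0) : B (ep 0 + ep i : V n) (ep 0 + ep i) = 0 := by
  rw [B_add_right, B_ep', B_ep', if_pos rfl, if_neg hi]
  simp only [Pi.add_apply, ep_apply, if_true, if_neg hi, if_neg hi.symm]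
  norm_num

/-- the cusps (1;1,0,...) are good -/
lemma good (hn : 3 ≤ n) (i : Fin (n + 1)) (hi : i ≠ 0) : Good (ep 0 + ep i : V n) := by
  classical
  have hn1 : 1 ≤ n := by omega
  refine ⟨isot i hi, fun m hm hme => ?_⟩
  set e : V n := ep 0 + ep i with hedef
  have he : B e e = 0 := isot (n := n) i hi
  have heL : e ∈ Lat n := ep_add_mem
  -- two further indices
  obtain ⟨j0, j1, h00, h0i, h10, h1i, h01⟩ : ∃ j0 j1 : Fin (n + 1), j0 ≠ 0 ∧ j0 ≠ i ∧ j1 ≠ 0 ∧
      j1 ≠ i ∧ j0 ≠ j1 := by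
    have h1 : 2 ≤ ((Finset.univ \ {0, i} : Finset (Fin (n + 1)))).card := by
      have := Finset.le_card_sdiff {0, i} (Finset.univ : Finset (Fin (n + 1)))
      have h2 : ({0, i} : Finset (Fin (n + 1))).card ≤ 2 := Finset.card_le_two
      rw [Finset.card_univ, Fintype.card_fin] at this
      omega
    obtain ⟨a, ha, b, hb, hab⟩ := Finset.one_lt_card.1
      (by omega : 1 < ((Finset.univ \ {0, i} : Finset (Fin (n + 1)))).card)
    simp only [Finset.mem_sdiff, Finset.mem_univ, true_and, Finset.mem_insert,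
      Finset.mem_singleton, not_or] at ha hb
    exact ⟨a, b, ha.1, ha.2, hb.1, hb.2, hab⟩
  have hroot : ∀ j k : Fin (n + 1), j ≠ 0 → j ≠ i → k ≠ 0 → k ≠ i → j ≠ k →
      ep j - ep k ∈ HG e he (W n) ∧ ep j + ep k ∈ HG e he (W n) := by
    intro j k hj0 hji hk0 hki hjk
    constructor
    · apply HG_root hn1 he heL ep_sub_mem
      · rw [B_sub_right, B_ep', B_ep', if_neg hj0, if_neg hk0]
        simp only [Pi.sub_apply, ep_apply, if_true, if_neg hjk, if_neg hjk.symm]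
        norm_num
      · show B _ (ep 0 + ep i) = 0
        rw [B_add_right, B_ep', B_ep', if_pos rfl, if_neg hi]
        simp only [Pi.sub_apply, ep_apply, if_neg hj0.symm, if_neg hk0.symm, if_neg hji.symm,
          if_neg hki.symm]
        norm_num
    · apply HG_root hn1 he heL ep_add_mem
      · rw [B_add_right, B_ep', B_ep', if_neg hj0, if_neg hk0]
        simp only [Pi.add_apply, ep_apply, if_true, if_neg hjk, if_neg hjk.symm]
        norm_num
      · show B _ (ep 0 + ep i) = 0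
        rw [B_add_right, B_ep', B_ep', if_pos rfl, if_neg hi]
        simp only [Pi.add_apply, ep_apply, if_neg hj0.symm, if_neg hk0.symm, if_neg hji.symm,
          if_neg hki.symm]
        norm_num
  obtain ⟨z, hz, hze⟩ := hm
  have hz0i : z i = z 0 := by
    rw [hedef, B_add_right, B_ep', B_ep', if_pos rfl, if_neg hi, hz, hz] at hme
    have : (z i : ℝ) = z 0 := by linarith
    exact_mod_cast this
  set c : Fin (n + 1) → ℤ := fun j => if j = 0 ∨ j = i then 0 else z j with hc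
  have hcsum : ∑ j, c j = (∑ j, z j) - 2 * z 0 := by
    have h1 : ∀ j, c j = z j - (if j = 0 then z 0 else 0) - (if j = i then z i else 0) := by
      intro j
      simp only [hc]
      by_cases h0 : j = 0
      · subst h0; simp [hi.symm]
      · by_cases h2 : j = i
        · subst h2; simp [h0]
        · simp [h0, h2]
    rw [Finset.sum_congr rfl (fun j _ => h1 j), Finset.sum_sub_distrib, Finset.sum_sub_distrib]
    simp [hz0i]
    ring
  obtain ⟨s, hs⟩ : ∃ s : ℤ, ∑ j, c j = 2 * s := by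
    obtain ⟨t, ht⟩ := hze
    exact ⟨t - z 0, by rw [hcsum, ht]; ring⟩
  have hdec : m = (z 0 : ℝ) • e + ∑ j, (c j : ℝ) • (ep j - ep j0 : V n) +
      (s : ℝ) • ((ep j0 + ep j1 : V n) + (ep j0 - ep j1)) := by
    ext k
    rw [hz k]
    simp only [Pi.add_apply, Finset.sum_apply, Pi.smul_apply, Pi.sub_apply, ep_apply, smul_eq_mul,
      hedef]
    have h1 : ∑ j, (c j : ℝ) * ((if k = j then 1 else 0) - (if k = j0 then 1 else 0)) =
        c k - (2 * s) * (if k = j0 then 1 else 0) := by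
      simp only [mul_sub, Finset.sum_sub_distrib, ← Finset.sum_mul]
      congr 1
      · simp
      · congr 1
        exact_mod_cast hs
    rw [h1]
    have h2 : (c k : ℝ) = if k = 0 ∨ k = i then 0 else (z k : ℝ) := by
      simp only [hc]; split_ifs <;> simp
    rw [h2]
    by_cases hk0 : k = 0
    · subst hk0; simp [hi.symm, h00.symm, h10.symm]
    · by_cases hki : k = i
      · subst hki; simp [hk0, h0i.symm, h1i.symm, hz0i]
      · simp only [hk0, hki, if_false, or_self]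
        split_ifs <;> ring
  have hmem : m ∈ HG e he (W n) := by
    rw [hdec]
    apply AddSubgroup.add_mem
    · apply AddSubgroup.add_mem
      · exact HG_self e he _ _
      · apply AddSubgroup.sum_mem
        intro j _
        by_cases h1 : j = 0 ∨ j = i
        · have : c j = 0 := by simp only [hc]; rw [if_pos h1]
          rw [this, Int.cast_zero, zero_smul]
          exact AddSubgroup.zero_mem _
        · push Not at h1
          by_cases h2 : j = j0
          · rw [h2, sub_self, smul_zero]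
            exact AddSubgroup.zero_mem _
          · exact HG_zsmul _ _ _ (hroot j j0 h1.1 h1.2 h00 h0i h2).1 _
    · apply HG_zsmul
      exact AddSubgroup.add_mem _ (hroot j0 j1 h00 h0i h10 h1i h01).2
        (hroot j0 j1 h00 h0i h10 h1i h01).1
  exact hmem.2

/-- Eichler transformations with data in L preserve L -/
lemma Ef_Lat {e m x : V n} (he : e ∈ Lat n) (hm : m ∈ Lat n) (hx : x ∈ Lat n) :
    Ef e m x ∈ Lat n := by
  obtain ⟨a, ha⟩ := B_Lat hx he
  obtain ⟨b, hb⟩ := B_Lat hx hm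
  obtain ⟨c, hc⟩ := B_even hm
  unfold Ef
  rw [ha, hb, hc]
  have h1 : (2 * (c : ℝ) / 2 * a) = ((c * a : ℤ) : ℝ) := by push_cast; ring
  rw [h1]
  exact (LatG n).sub_mem ((LatG n).sub_mem ((LatG n).add_mem hx (zsmul_Lat hm a))
    (zsmul_Lat he b)) (zsmul_Lat he _)

/-- congruent data give congruent Eichler transformations -/
lemma Ef_congr {a b z1 z2 y : V n} (N : ℝ) (ha : a ∈ Lat n) (hb : b ∈ Lat n)
    (hz1 : z1 ∈ Lat n) (hz2 : z2 ∈ Lat n) (hy : y ∈ Lat n) (hN : ∃ k : ℤ, N = k) :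
    ∃ u ∈ Lat n, Ef (a + N • z1) (b + N • z2) y - Ef a b y = N • u := by
  obtain ⟨N', hN'⟩ := hN
  obtain ⟨ya, hya⟩ := B_Lat hy ha
  obtain ⟨yb, hyb⟩ := B_Lat hy hb
  obtain ⟨y1, hy1⟩ := B_Lat hy hz1
  obtain ⟨y2, hy2⟩ := B_Lat hy hz2
  obtain ⟨bb, hbb⟩ := B_even hb
  obtain ⟨b2, hb2⟩ := B_Lat hb hz2
  obtain ⟨zz, hzz⟩ := B_even hz2
  -- s' = bb, s1 = b2 + N zz, t = ya + N y1, t1 = y1, s = s' + N s1
  refine ⟨(y1 : ℝ) • b + ((ya + N' * y1 : ℤ) : ℝ) • z2 - (y2 : ℝ) • a -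
    ((yb + N' * y2 : ℤ) : ℝ) • z1 - ((bb * y1 + (b2 + N' * zz) * (ya + N' * y1) : ℤ) : ℝ) • a -
    (((bb + N' * (b2 + N' * zz)) * (ya + N' * y1) : ℤ) : ℝ) • z1, ?_, ?_⟩
  · exact (LatG n).sub_mem ((LatG n).sub_mem ((LatG n).sub_mem ((LatG n).sub_mem
      ((LatG n).add_mem (zsmul_Lat hb _) (zsmul_Lat hz2 _)) (zsmul_Lat ha _))
      (zsmul_Lat hz1 _)) (zsmul_Lat ha _)) (zsmul_Lat hz1 _)
  · unfold Ef
    rw [hN']
    simp only [B_add_left, B_add_right, B_smul_left, B_smul_right, hya, hyb, hy1, hy2, hbb, hb2,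
      hzz, B_comm z2 b]
    ext i
    simp only [Pi.add_apply, Pi.sub_apply, Pi.smul_apply, smul_eq_mul]
    push_cast
    ring

/-- E e m preserves L, as does its inverse -/
lemma E_Lat {e m : V n} (he : B e e = 0) (hm : B m e = 0) (heL : e ∈ Lat n) (hmL : m ∈ Lat n) :
    (∀ x ∈ Lat n, E e m he hm x ∈ Lat n) ∧ (∀ x ∈ Lat n, (E e m he hm)⁻¹ x ∈ Lat n) := by
  refine ⟨fun x hx => Ef_Lat heL hmL hx, fun x hx => ?_⟩
  rw [E_inv e m he hm (by rw [B_neg_left, hm, neg_zero])]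
  exact Ef_Lat heL ((LatG n).neg_mem hmL) hx

/-- g acts on hyperbolic space like an element of W -/
def InW (n : ℕ) (g : V n ≃ₗ[ℝ] V n) : Prop :=
  ∃ h ∈ W n, (∀ x, h x = g x) ∨ (∀ x, h x = - g x)

/-- the principal congruence condition -/
def Cong (N : ℕ) (g : V n ≃ₗ[ℝ] V n) : Prop :=
  Isom g ∧ (∀ x ∈ Lat n, g x ∈ Lat n) ∧ (∀ x ∈ Lat n, g⁻¹ x ∈ Lat n) ∧
    ∀ x ∈ Lat n, ∃ y ∈ Lat n, g x - x = (N : ℝ) • y

lemma crit (hn : 1 ≤ n) {e m e2 f2 : V n} (he : B e e = 0) (hm : B m e = 0) (heL : e ∈ Lat n)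
    (hmL : m ∈ Lat n) (he2 : Good e2) (hf2 : Good f2) (he2L : e2 ∈ Lat n) (hf2L : f2 ∈ Lat n)
    (hef : B e2 f2 = -1) (N : ℕ) (b : ℤ) (hb : B e e2 = -b) (hcop : IsCoprime b (N : ℤ))
    (hG : ∀ g : V n ≃ₗ[ℝ] V n, Cong N g → InW n g) : InW n (E e m he hm) := by
  obtain ⟨he20, hgood2⟩ := he2
  obtain ⟨hf20, hgoodf⟩ := hf2
  obtain ⟨a', ha'⟩ := B_Lat heL hf2L
  set a : ℤ := - a' with ha
  have hea : B e f2 = - (a : ℝ) := by rw [ha', ha]; push_cast; ring
  have hfe2 : B f2 e2 = -1 := by rw [B_comm]; exact hef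
  set mu : V n := e - (a : ℝ) • e2 - (b : ℝ) • f2 with hmu
  have hmuL : mu ∈ Lat n :=
    (LatG n).sub_mem ((LatG n).sub_mem heL (zsmul_Lat he2L a)) (zsmul_Lat hf2L b)
  have hmue2 : B mu e2 = 0 := by
    rw [hmu, B_sub_left, B_sub_left, B_smul_left, B_smul_left, hb, he20, hfe2]; ring
  have hmuf2 : B mu f2 = 0 := by
    rw [hmu, B_sub_left, B_sub_left, B_smul_left, B_smul_left, hea, hf20, hef]; ring
  have hedec : e = (a : ℝ) • e2 + (b : ℝ) • f2 + mu := by rw [hmu]; abel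
  have hmumu : B mu mu = 2 * a * b := by
    have h1 : B e e = -2 * a * b + B mu mu := by
      conv_lhs => rw [hedec]
      simp only [B_add_left, B_add_right, B_smul_left, B_smul_right, he20, hf20, hef, hfe2,
        hmue2, hmuf2, B_comm e2 mu, B_comm f2 mu]
      ring
    rw [he] at h1; linarith
  have hemu : B e mu = 2 * a * b := by
    rw [← hmumu]
    conv_lhs => rw [hedec]
    simp only [B_add_left, B_smul_left, B_comm e2 mu, B_comm f2 mu, hmue2, hmuf2]
    ring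
  obtain ⟨c, d, hcd⟩ := hcop
  have hcdr : (c : ℝ) * b = 1 - d * N := by
    have : (c : ℝ) * b + d * N = 1 := by exact_mod_cast hcd
    linarith
  set cm : V n := (c : ℝ) • mu with hcm
  have hcmL : cm ∈ Lat n := zsmul_Lat hmuL c
  have hcme2 : B cm e2 = 0 := by rw [hcm, B_smul_left, hmue2, mul_zero]
  set w := E e2 cm he20 hcme2 with hw
  have hwW : w ∈ W n := hgood2 cm hcmL hcme2
  obtain ⟨hwI, hwL, hwL', -⟩ := W_props hn hwW
  -- w e = b f2 + N z1
  set z1 : V n := (d : ℝ) • mu + ((a * d ^ 2 * N : ℤ) : ℝ) • e2 with hz1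
  have hz1L : z1 ∈ Lat n := (LatG n).add_mem (zsmul_Lat hmuL d) (zsmul_Lat he2L _)
  have hwe : w e = (b : ℝ) • f2 + (N : ℝ) • z1 := by
    rw [hw, E_apply, hb, hcm, B_smul_right, B_smul_left, B_smul_right, hemu, hmumu]
    have e1 : e = (a : ℝ) • e2 + (b : ℝ) • f2 + mu := hedec
    have e2' : e + -(b : ℝ) • ((c : ℝ) • mu) - ((c : ℝ) * (2 * a * b)) • e2 -
        ((c : ℝ) * (c * (2 * a * b)) / 2 * -b) • e2 =
        (b : ℝ) • f2 + (1 - (c : ℝ) * b) • mu + ((a : ℝ) * (1 - c * b) ^ 2) • e2 := by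
      conv_lhs => rw [e1]
      ext i
      simp only [Pi.add_apply, Pi.sub_apply, Pi.smul_apply, smul_eq_mul]
      ring
    rw [e2', hcdr, hz1]
    ext i
    simp only [Pi.add_apply, Pi.sub_apply, Pi.smul_apply, smul_eq_mul]
    push_cast
    ring
  -- m1 = w m
  set m1 : V n := w m with hm1
  have hm1L : m1 ∈ Lat n := hwL m hmL
  have h0 : B (w e) m1 = 0 := by rw [hm1, hwI, B_comm]; exact hm
  obtain ⟨j, hj⟩ := B_Lat hf2L hm1L
  obtain ⟨l, hl⟩ := B_Lat hz1L hm1L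
  have hNj : (N : ℤ) ∣ j := by
    rw [hwe, B_add_left, B_smul_left, B_smul_left, hj, hl] at h0
    have h1 : b * j + N * l = 0 := by exact_mod_cast h0
    have h2 : (N : ℤ) ∣ b * j := ⟨-l, by linarith⟩
    exact (IsCoprime.symm ⟨c, d, hcd⟩).dvd_of_dvd_mul_left h2
  obtain ⟨j', hj'⟩ := hNj
  set m2 : V n := m1 + (j : ℝ) • e2 with hm2
  have hm2L : m2 ∈ Lat n := (LatG n).add_mem hm1L (zsmul_Lat he2L j)
  have hm2f : B m2 f2 = 0 := by
    rw [hm2, B_add_left, B_smul_left, hef, B_comm, hj]; ring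
  have hm1eq : m1 = m2 + (N : ℝ) • ((-j' : ℤ) : ℝ) • e2 := by
    rw [hm2, hj']
    ext i
    simp only [Pi.add_apply, Pi.smul_apply, smul_eq_mul]
    push_cast
    ring
  -- the transformation E3
  have h30 : B ((b : ℝ) • f2) ((b : ℝ) • f2) = 0 := by
    rw [B_smul_left, B_smul_right, hf20]; ring
  have h31 : B m2 ((b : ℝ) • f2) = 0 := by rw [B_smul_right, hm2f, mul_zero]
  have h32 : B ((b : ℝ) • m2) f2 = 0 := by rw [B_smul_left, hm2f, mul_zero]
  have hE3 : E ((b : ℝ) • f2) m2 h30 h31 ∈ W n := by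
    rw [E_smul f2 m2 b hf20 hm2f h30 h31 h32]
    exact hgoodf _ (zsmul_Lat hm2L b) h32
  set E3 := E ((b : ℝ) • f2) m2 h30 h31 with hE3def
  have hA0 : B (w e) (w e) = 0 := by rw [hwI]; exact he
  have hA1 : B (w m) (w e) = 0 := by rw [hwI]; exact hm
  set A := E (w e) (w m) hA0 hA1 with hAdef
  have hAw : w * E e m he hm * w⁻¹ = A := E_conj hwI e m he hm hA0 hA1
  obtain ⟨hE3I, hE3L, hE3L', -⟩ := W_props hn hE3
  have hAL := E_Lat hA0 hA1 (hwL e heL) (hwL m hmL)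
  have hc : Cong N (A * E3⁻¹) := by
    refine ⟨(E_isom _ _ _ _).mul hE3I.inv, ?_, ?_, ?_⟩
    · intro x hx
      rw [mul_ap]
      exact hAL.1 _ (hE3L' x hx)
    · intro x hx
      rw [mul_inv_rev, inv_inv, mul_ap]
      exact hE3L _ (hAL.2 x hx)
    · intro x hx
      have h5 := hE3L' x hx
      set y := E3⁻¹ x with hy
      have hxy : x = E3 y := by rw [hy, ap_inv]
      obtain ⟨u, hu, hu'⟩ := Ef_congr (N : ℝ) (zsmul_Lat hf2L b) hm2L hz1L
        (zsmul_Lat he2L (-j')) h5 ⟨N, by simp⟩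
      refine ⟨u, hu, ?_⟩
      rw [mul_ap, ← hy]
      conv_lhs => rw [hxy]
      rw [← hu']
      have e1 : A y = Ef (w e) (w m) y := rfl
      have e2' : E3 y = Ef ((b : ℝ) • f2) m2 y := rfl
      rw [e1, e2', hwe, ← hm1, hm1eq]
  obtain ⟨h, hhW, hh⟩ := hG _ hc
  refine ⟨w⁻¹ * (h * E3) * w, mul_mem (mul_mem (inv_mem hwW) (mul_mem hhW hE3)) hwW, ?_⟩
  have hfin : ∀ x, w⁻¹ (A (w x)) = E e m he hm x := by
    intro x
    rw [← hAw, mul_ap, mul_ap, inv_ap, inv_ap]
  rcases hh with hh | hh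
  · left
    intro x
    rw [mul_ap, mul_ap, mul_ap, hh, mul_ap, inv_ap, hfin]
  · right
    intro x
    rw [mul_ap, mul_ap, mul_ap, hh, mul_ap, inv_ap, map_neg, hfin]

end Pool.Agent.H25Cong

end
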