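import Mathlib

noncomputable section

namespace Pool.Agent.H25Cong

/-- The real vector space of dimension n + 1, with coordinates x 0, ..., x n. -/
abbrev V (n : ℕ) := Fin (n + 1) → ℝ

/-- The Lorentzian form - x0 y0 + x1 y1 + ... + xn yn of signature (n, 1). -/
def B {n : ℕ} (x y : V n) : ℝ := (∑ i, x i * y i) - 2 * (x 0 * y 0)

variable {n : ℕ}

/-- The lattice L_n: integral vectors with even coordinate sum. -/
def Lat (n : ℕ) : Set (V n) :=
  {x | ∃ z : Fin (n + 1) → ℤ, (∀ i, x i = z i) ∧ Even (∑ i, z i)}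

/-- g is the reflection in a vector r of positive norm. -/
def IsReflection (g : V n ≃ₗ[ℝ] V n) : Prop :=
  ∃ r : V n, 0 < B r r ∧ ∀ x, g x = x - (2 * B x r / B r r) • r

/-- The group W(L_n) generated by all reflections which preserve the lattice L_n. -/
def W (n : ℕ) : Subgroup (V n ≃ₗ[ℝ] V n) :=
  Subgroup.closure {g | IsReflection g ∧ ∀ x ∈ Lat n, g x ∈ Lat n}

/-- Γ is generated by reflections. -/
def GenByRefl (Γ : Subgroup (V n ≃ₗ[ℝ] V n)) : Prop :=
  Γ = Subgroup.closure {g | g ∈ Γ ∧ IsReflection g}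

/-- g is an isometry of B which maps the lattice Λ onto itself. -/
def IsAut (Λ : Submodule ℤ (V n)) (g : V n ≃ₗ[ℝ] V n) : Prop :=
  (∀ x y, B (g x) (g y) = B x y) ∧ ∀ x, g x ∈ Λ ↔ x ∈ Λ

lemma IsAut.mul {Λ : Submodule ℤ (V n)} {g h : V n ≃ₗ[ℝ] V n} (hg : IsAut Λ g)
    (hh : IsAut Λ h) : IsAut Λ (g * h) := by
  refine ⟨fun x y => ?_, fun x => ?_⟩
  · rw [LinearEquiv.mul_apply, LinearEquiv.mul_apply, hg.1, hh.1]
  · rw [LinearEquiv.mul_apply, hg.2, hh.2]

lemma IsAut.one {Λ : Submodule ℤ (V n)} : IsAut Λ (1 : V n ≃ₗ[ℝ] V n) :=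
  ⟨fun _ _ => rfl, fun _ => Iff.rfl⟩

lemma IsAut.inv {Λ : Submodule ℤ (V n)} {g : V n ≃ₗ[ℝ] V n} (hg : IsAut Λ g) :
    IsAut Λ g⁻¹ := by
  have h : ∀ x, g (g⁻¹ x) = x := fun x => g.apply_symm_apply x
  refine ⟨fun x y => ?_, fun x => ?_⟩
  · rw [← hg.1, h, h]
  · rw [← hg.2, h]

/-- The group O(Λ) of all isometries of B which map the lattice Λ onto itself. -/
def OLat (Λ : Submodule ℤ (V n)) : Subgroup (V n ≃ₗ[ℝ] V n) where
  carrier := {g | IsAut Λ g}
  mul_mem' := IsAut.mul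
  one_mem' := IsAut.one
  inv_mem' := IsAut.inv

/-- g is congruent to the identity modulo N on the lattice Λ. -/
def IsOneMod (Λ : Submodule ℤ (V n)) (N : ℕ) (g : V n ≃ₗ[ℝ] V n) : Prop :=
  ∀ x ∈ Λ, ∃ y ∈ Λ, g x - x = (N : ℝ) • y

/-- g and h act in the same way on hyperbolic space: they are equal up to sign. -/
def SameAction (g h : V n ≃ₗ[ℝ] V n) : Prop := (∀ x, h x = g x) ∨ (∀ x, h x = - g x)

/-- Λ is a lattice on which a multiple of B is a quadratic form with integral coefficients: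
it is spanned by a basis of the space whose Gram matrix is c > 0 times an integral matrix. -/
def IsIntegralLattice (Λ : Submodule ℤ (V n)) : Prop :=
  ∃ (b : Module.Basis (Fin (n + 1)) ℝ (V n)) (c : ℝ), 0 < c ∧
    (∀ i j, ∃ k : ℤ, B (b i) (b j) = c * k) ∧ Λ = Submodule.span ℤ (Set.range b)

/-- Γ is a congruence subgroup of an arithmetic group: for some quadratic form with integral
coefficients and signature (n,1), given as a lattice Λ in the Lorentzian space, the groups Γ and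
O(Λ) are commensurable and Γ contains, as a group acting on hyperbolic space, the principal
congruence subgroup of level N of O(Λ). -/
def IsCongruence (Γ : Subgroup (V n ≃ₗ[ℝ] V n)) : Prop :=
  ∃ (Λ : Submodule ℤ (V n)) (N : ℕ), IsIntegralLattice Λ ∧ 0 < N ∧
    Subgroup.Commensurable Γ (OLat Λ) ∧
    ∀ g ∈ OLat Λ, IsOneMod Λ N g → ∃ h ∈ Γ, SameAction g h

end Pool.Agent.H25Cong

end
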