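import Pool.Agent.Helper25_Cong.Lor

open Finset

set_option linter.unusedSimpArgs false
set_option linter.unusedVariables false

noncomputable section

namespace Pool.Agent.H25Cong

variable {n : ℕ}

/-- A set of roots R together with a timelike vector v off all the mirrors. -/
structure RootSys (R : Set (V n)) (v : V n) : Prop where
  tl : B v v < 0
  pos : ∀ r ∈ R, 0 < B r r
  refl : ∀ a ∈ R, ∀ b ∈ R, S a b ∈ R
  fin : ∀ C : ℝ, {a | a ∈ R ∧ (B a v) ^ 2 ≤ C * B a a}.Finite
  red : ∀ a ∈ R, ∀ c : ℝ, 0 < c → c • a ∈ R → c = 1
  ne : ∀ a ∈ R, B a v ≠ 0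

/-- simple roots: positive roots a such that S a inverts only a -/
def Simp (R : Set (V n)) (v a : V n) : Prop :=
  a ∈ R ∧ 0 < B a v ∧ ∀ b ∈ R, 0 < B b v → B (S a b) v < 0 → b = a

variable {R : Set (V n)} {v : V n}

lemma RootSys.neg (h : RootSys R v) {a : V n} (ha : a ∈ R) : -a ∈ R := by
  rw [← S_self a (ne_of_gt (h.pos a ha))]
  exact h.refl a ha a ha

lemma prod_mem (h : RootSys R v) (l : List (V n)) (hl : ∀ a ∈ l, a ∈ R) {b : V n} (hb : b ∈ R) :
    (l.map S).prod b ∈ R := by
  induction l with
  | nil => simpa using hb
  | cons a t ih =>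
    rw [List.map_cons, List.prod_cons, mul_ap]
    exact h.refl a (hl a (by simp)) _ (ih fun c hc => hl c (by simp [hc]))

lemma prod_isom (l : List (V n)) : Isom ((l.map S).prod) := by
  induction l with
  | nil => simpa using Isom_one
  | cons a t ih =>
    rw [List.map_cons, List.prod_cons]
    exact (show Isom (S a) from S_isom a).mul ih

/-- the place where a positive root becomes negative -/
lemma exch (h : RootSys R v) (l : List (V n)) (hl : ∀ a ∈ l, Simp R v a) {b : V n}
    (hb : b ∈ R) (hb0 : 0 < B b v) (hneg : B ((l.map S).prod b) v < 0) :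
    ∃ l1 a l2, l = l1 ++ a :: l2 ∧ (l2.map S).prod b = a := by
  induction l with
  | nil =>
    exfalso
    simp only [List.map_nil, List.prod_nil, one_ap] at hneg
    linarith
  | cons a t ih =>
    have hmem : (t.map S).prod b ∈ R :=
      prod_mem h t (fun c hc => (hl c (by simp [hc])).1) hb
    rcases lt_or_gt_of_ne (h.ne _ hmem) with h1 | h1
    · obtain ⟨l1, c, l2, h2, h3⟩ := ih (fun c hc => hl c (by simp [hc])) h1
      exact ⟨a :: l1, c, l2, by rw [h2]; rfl, h3⟩
    · refine ⟨[], a, t, rfl, ?_⟩
      apply (hl a (by simp)).2.2 _ hmem h1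
      rw [List.map_cons, List.prod_cons, mul_ap] at hneg
      exact hneg

/-- deletion: a product of simple reflections which inverts no root is the identity -/
lemma deletion (h : RootSys R v) : ∀ (k : ℕ) (l : List (V n)), l.length = k →
    (∀ a ∈ l, Simp R v a) → (∀ b ∈ R, 0 < B b v → 0 < B ((l.map S).prod b) v) →
    (l.map S).prod = 1 := by
  intro k
  induction k using Nat.strong_induction_on with
  | _ k ih =>
    intro l hk hl hp
    rcases List.eq_nil_or_concat l with rfl | ⟨l', a, rfl⟩
    · simp
    · have ha : Simp R v a := hl a (by simp)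
      have hl' : ∀ c ∈ l', Simp R v c := fun c hc => hl c (by simp [hc])
      have h1 : B ((l'.map S).prod a) v < 0 := by
        have h2 := hp a ha.1 ha.2.1
        rw [List.concat_eq_append, List.map_append, List.prod_append] at h2
        simp only [List.map_cons, List.map_nil, List.prod_cons, List.prod_nil, mul_one] at h2
        rw [mul_ap, S_self a (ne_of_gt (h.pos a ha.1)), map_neg, B_neg_left] at h2
        linarith
      obtain ⟨l1, c, l2, h2, h3⟩ := exch h l' hl' ha.1 ha.2.1 h1
      have h4 : (l2.map S).prod * S a = S c * (l2.map S).prod := by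
        rw [← h3, ← S_conj (prod_isom l2), inv_mul_cancel_right]
      have h5 : ((l'.concat a).map S).prod = ((l1 ++ l2).map S).prod := by
        rw [h2, List.concat_eq_append]
        simp only [List.map_append, List.prod_append, List.map_cons, List.map_nil,
          List.prod_cons, List.prod_nil, mul_one]
        rw [mul_assoc, mul_assoc, h4, ← mul_assoc (S c), S_mul_self, one_mul]
      rw [h5]
      refine ih (l1 ++ l2).length ?_ _ rfl ?_ ?_
      · rw [← hk, h2]
        simp
      · intro d hd
        apply hl'
        rw [h2]
        simp only [List.mem_append, List.mem_cons] at hd ⊢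
        tauto
      · rw [← h5]
        exact hp

/-- The key inequality: if the reflection in r inverts another root b, then r is a conjugate
of roots which are nearer to v. -/
lemma nearer (h : RootSys R v) {r b : V n} (hr : r ∈ R) (hb : b ∈ R) (hbr : b ≠ r)
    (hr0 : 0 < B r v) (hb0 : 0 < B b v) (hle : B b v * B r r ≤ B b r * B r v) :
    B b v ^ 2 * B r r < B r v ^ 2 * B b b ∧ B (S b r) v ^ 2 < B r v ^ 2 := by
  have hq := h.pos r hr
  have hq' := h.pos b hb
  have hK := h.tl
  have hq0 : B r r ≠ 0 := ne_of_gt hq
  have hq0' : B b b ≠ 0 := ne_of_gt hq'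
  have hvr : B v r = B r v := B_comm _ _
  have hvb : B v b = B b v := B_comm _ _
  have hrb : B r b = B b r := B_comm _ _
  -- the main inequality
  have key : B b r * B b v < B b b * B r v := by
    by_cases hC : B b r ^ 2 < B r r * B b b
    · have h1 : B b r * B b v * B r r ≤ B b r ^ 2 * B r v := by
        have hg : 0 ≤ B b r := by
          by_contra hcon
          push Not at hcon
          have : B b r * B r v < 0 := mul_neg_of_neg_of_pos hcon hr0
          have : 0 < B b v * B r r := mul_pos hb0 hq
          linarith
        nlinarith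
      have h2 : B b r ^ 2 * B r v < B r r * B b b * B r v := by nlinarith
      have h3 : (B b r * B b v) * B r r < (B b b * B r v) * B r r := by linarith
      exact lt_of_mul_lt_mul_right h3 hq.le
    · push Not at hC
      -- the vectors m and b' orthogonal to r, multiplied by B r r
      set m : V n := B r r • v - B r v • r with hm
      set b' : V n := B r r • b - B b r • r with hb'
      have hmm : B m m = B r r * (B r r * B v v - B r v ^ 2) := by
        rw [hm]
        simp only [B_sub_left, B_sub_right, B_smul_left, B_smul_right, hvr]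
        ring
      have hbb : B b' b' = B r r * (B r r * B b b - B b r ^ 2) := by
        rw [hb']
        simp only [B_sub_left, B_sub_right, B_smul_left, B_smul_right, hrb]
        ring
      have hbm : B b' m = B r r * (B r r * B b v - B b r * B r v) := by
        rw [hb', hm]
        simp only [B_sub_left, B_sub_right, B_smul_left, B_smul_right, hrb]
        ring
      have hmneg : B m m < 0 := by
        rw [hmm]
        apply mul_neg_of_pos_of_neg hq
        nlinarith [sq_nonneg (B r v), mul_neg_of_pos_of_neg hq hK]
      have hcs := rev_cs hmneg b'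
      rw [hmm, hbb, hbm] at hcs
      -- y, X, K
      set q := B r r
      set q' := B b b
      set g := B b r
      set p := B r v
      set pb := B b v
      set K := - B v v with hKdef
      have hK0 : 0 < K := by rw [hKdef]; linarith
      have hg0 : 0 < g := by
        by_contra hcon
        push Not at hcon
        have h1 : g * p ≤ 0 := mul_nonpos_of_nonpos_of_nonneg hcon hr0.le
        have h2 : 0 < pb * q := mul_pos hb0 hq
        linarith
      -- Y = g p - q pb >= 0, X = g^2 - q q' >= 0
      have hY0 : 0 ≤ g * p - q * pb := by linarith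
      have hX0 : 0 ≤ g ^ 2 - q * q' := by linarith
      have hcs2 : (g ^ 2 - q * q') * (p ^ 2 + q * K) ≤ (g * p - q * pb) ^ 2 := by
        have h1 : q ^ 2 * ((g ^ 2 - q * q') * (p ^ 2 + q * K)) ≤
            q ^ 2 * (g * p - q * pb) ^ 2 := by
          have e1 : q * (q * q' - g ^ 2) * (q * (q * B v v - p ^ 2)) =
              q ^ 2 * ((g ^ 2 - q * q') * (p ^ 2 + q * K)) := by
            rw [hKdef]; ring
          have e2 : (q * (q * pb - g * p)) ^ 2 = q ^ 2 * (g * p - q * pb) ^ 2 := by ring
          rw [← e1, ← e2]
          exact hcs
        exact le_of_mul_le_mul_left h1 (by positivity)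
      -- want g pb < q' p, that is X p < g Y
      have hwant : (g ^ 2 - q * q') * p < g * (g * p - q * pb) := by
        rcases eq_or_lt_of_le hX0 with hX | hX
        · rw [← hX, zero_mul]
          apply mul_pos hg0
          rcases eq_or_lt_of_le hY0 with hY | hY
          · exfalso
            have h1 : B b' b' * B m m = B b' m ^ 2 := by
              rw [hbb, hbm]
              have : q * q' - g ^ 2 = 0 := by linarith
              have h2 : q * pb - g * p = 0 := by linarith
              rw [this, h2]; ring
            have h2 := rev_cs_eq hmneg h1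
            have h3 : B b' m = 0 := by
              rw [hbm]
              have h2 : q * pb - g * p = 0 := by linarith
              rw [h2]; ring
            rw [h3, zero_div, zero_smul] at h2
            have h4 : b = (g / q) • r := by
              have h5 : q • b = g • r := sub_eq_zero.1 h2
              have h6 : q⁻¹ • (q • b) = q⁻¹ • (g • r) := by rw [h5]
              rw [smul_smul, inv_mul_cancel₀ hq0, one_smul, smul_smul] at h6
              rw [h6]
              congr 1
              rw [div_eq_inv_mul]
            have h5 := h.red r hr (g / q) (div_pos hg0 hq) (by rw [← h4]; exact hb)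
            rw [h5, one_smul] at h4
            exact hbr h4
          · exact hY
        · have h1 : ((g ^ 2 - q * q') * p) ^ 2 < (g * (g * p - q * pb)) ^ 2 := by
            have e1 : ((g ^ 2 - q * q') * p) ^ 2 =
              (g ^ 2 - q * q') * ((g ^ 2 - q * q') * p ^ 2) := by ring
            have e2 : (g * (g * p - q * pb)) ^ 2 = g ^ 2 * (g * p - q * pb) ^ 2 := by ring
            rw [e1, e2]
            have h2 : g ^ 2 * ((g ^ 2 - q * q') * (p ^ 2 + q * K)) ≤
              g ^ 2 * (g * p - q * pb) ^ 2 := mul_le_mul_of_nonneg_left hcs2 (by positivity)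
            have h3 : (g ^ 2 - q * q') * ((g ^ 2 - q * q') * p ^ 2) <
                g ^ 2 * ((g ^ 2 - q * q') * (p ^ 2 + q * K)) := by
              have e3 : g ^ 2 * ((g ^ 2 - q * q') * (p ^ 2 + q * K)) =
                (g ^ 2 - q * q') * (g ^ 2 * (p ^ 2 + q * K)) := by ring
              rw [e3]
              apply mul_lt_mul_of_pos_left _ hX
              have h5 : (g ^ 2 - q * q') * p ^ 2 ≤ g ^ 2 * p ^ 2 := by
                apply mul_le_mul_of_nonneg_right _ (by positivity)
                have : 0 < q * q' := mul_pos hq hq'
                linarith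
              have h6 : 0 < g ^ 2 * (q * K) := by positivity
              nlinarith
            linarith
          exact lt_of_pow_lt_pow_left₀ 2 (by positivity) h1
      have h7 : q * (g * pb) < q * (q' * p) := by nlinarith
      exact lt_of_mul_lt_mul_left h7 hq.le
  constructor
  · -- p_b^2 q < p^2 q'
    by_cases hC : B b r ^ 2 < B r r * B b b
    · have h1 : (B b v * B r r) ^ 2 ≤ (B b r * B r v) ^ 2 :=
        pow_le_pow_left₀ (by positivity) hle 2
      have h2 : (B b r * B r v) ^ 2 < (B r r * B b b) * B r v ^ 2 := by
        rw [mul_pow]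
        apply mul_lt_mul_of_pos_right hC (by positivity)
      have h3 : B r r * (B b v ^ 2 * B r r) < B r r * (B r v ^ 2 * B b b) := by nlinarith
      exact lt_of_mul_lt_mul_left h3 hq.le
    · push Not at hC
      have hg0 : 0 < B b r := by
        by_contra hcon
        push Not at hcon
        have h1 : B b r * B r v ≤ 0 := mul_nonpos_of_nonpos_of_nonneg hcon hr0.le
        have h2 : 0 < B b v * B r r := mul_pos hb0 hq
        linarith
      have h1 : (B b r * B b v) ^ 2 < (B b b * B r v) ^ 2 :=
        pow_lt_pow_left₀ key (by positivity) (by norm_num)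
      have h2 : (B r r * B b b) * B b v ^ 2 ≤ B b r ^ 2 * B b v ^ 2 :=
        mul_le_mul_of_nonneg_right hC (by positivity)
      have h3 : B b b * (B b v ^ 2 * B r r) < B b b * (B r v ^ 2 * B b b) := by nlinarith
      exact lt_of_mul_lt_mul_left h3 hq'.le
  · have h1 : B (S b r) v = B r v - 2 * B b r * B b v / B b b := by
      rw [S_apply, B_sub_left, B_smul_left, hrb]
      ring
    rw [h1]
    have hg0 : 0 < B b r := by
      by_contra hcon
      push Not at hcon
      have h1 : B b r * B r v ≤ 0 := mul_nonpos_of_nonpos_of_nonneg hcon hr0.le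
      have h2 : 0 < B b v * B r r := mul_pos hb0 hq
      linarith
    have h2 : B b r * B b v / B b b < B r v := by
      rw [div_lt_iff₀ hq']
      linarith
    have h3 : 0 < B b r * B b v / B b b := by positivity
    have e1 : 2 * B b r * B b v / B b b = 2 * (B b r * B b v / B b b) := by ring
    rw [e1]
    nlinarith

/-- every reflection is a product of simple reflections -/
lemma gen (h : RootSys R v) : ∀ (k : ℕ) (r : V n), r ∈ R →
    {a | a ∈ R ∧ B a v ^ 2 * B r r < B r v ^ 2 * B a a}.ncard = k →
    S r ∈ Subgroup.closure (S '' {a | Simp R v a}) := by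
  intro k
  induction k using Nat.strong_induction_on with
  | _ k ih =>
    intro r hr hk
    -- reduce to positive r
    wlog hr0 : 0 < B r v generalizing r
    · have h1 : B r v < 0 := lt_of_le_of_ne (not_lt.1 hr0) (h.ne r hr)
      have h2 := this (-r) (h.neg hr) (by
        simp only [B_neg_left, B_neg_right, neg_neg]
        simpa using hk) (by rw [B_neg_left]; linarith)
      rwa [S_neg] at h2
    by_cases hs : Simp R v r
    · exact Subgroup.subset_closure ⟨r, hs, rfl⟩
    · have h1 : ∃ b ∈ R, 0 < B b v ∧ B (S r b) v < 0 ∧ b ≠ r := by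
        unfold Simp at hs
        by_contra hcon
        push Not at hcon
        exact hs ⟨hr, hr0, fun b hb hb0 hbn => hcon b hb hb0 hbn⟩
      have hq := h.pos r hr
      -- choose b on the right side
      obtain ⟨b, hb, hb0, hbr, hle⟩ : ∃ b ∈ R, 0 < B b v ∧ b ≠ r ∧
          B b v * B r r ≤ B b r * B r v := by
        obtain ⟨b, hb, hb0, hbn, hbr⟩ := h1
        have e1 : B (S r b) v = B b v - 2 * B b r / B r r * B r v := by
          rw [S_apply, B_sub_left, B_smul_left]
        rcases le_total (B b v * B r r) (B b r * B r v) with h2 | h2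
        · exact ⟨b, hb, hb0, hbr, h2⟩
        · refine ⟨-(S r b), h.neg (h.refl r hr b hb), by rw [B_neg_left]; linarith, ?_, ?_⟩
          · intro hcon
            apply hbr
            have h3 := congrArg (S r) hcon
            rw [map_neg, S_S, S_self r (ne_of_gt hq)] at h3
            exact neg_injective h3
          · have e2 : B (S r b) r = - B b r := by
              have : B (S r b) r = B (S r b) (S r (-r)) := by
                rw [map_neg, S_self r (ne_of_gt hq), neg_neg]
              rw [this, S_isom, B_neg_right]
            rw [B_neg_left, B_neg_left, e2, e1]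
            have e3 : -(B b v - 2 * B b r / B r r * B r v) * B r r =
              2 * B b r * B r v - B b v * B r r := by
              field_simp
              ring
            rw [e3]
            linarith
      obtain ⟨hn1, hn2⟩ := nearer h hr hb hbr hr0 hb0 hle
      have hq' := h.pos b hb
      have hfin : {a | a ∈ R ∧ B a v ^ 2 * B r r < B r v ^ 2 * B a a}.Finite := by
        apply (h.fin (B r v ^ 2 / B r r)).subset
        rintro a ⟨ha, hlt⟩
        refine ⟨ha, ?_⟩
        rw [div_mul_eq_mul_div, le_div_iff₀ hq]
        exact hlt.le
      -- any root c nearer than r has a smaller count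
      have hcount : ∀ c ∈ R, B c v ^ 2 * B r r < B r v ^ 2 * B c c →
          S c ∈ Subgroup.closure (S '' {a | Simp R v a}) := by
        intro c hc hlt
        have hqc := h.pos c hc
        refine ih _ ?_ c hc rfl
        rw [← hk]
        apply Set.ncard_lt_ncard _ hfin
        refine ⟨?_, ?_⟩
        · rintro a ⟨ha, hlt2⟩
          refine ⟨ha, ?_⟩
          have h5 : B c c * (B a v ^ 2 * B r r) < B c c * (B r v ^ 2 * B a a) := by
            have hqa := h.pos a ha
            calc B c c * (B a v ^ 2 * B r r) = (B a v ^ 2 * B c c) * B r r := by ring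
              _ < (B c v ^ 2 * B a a) * B r r := mul_lt_mul_of_pos_right hlt2 hq
              _ = (B c v ^ 2 * B r r) * B a a := by ring
              _ < (B r v ^ 2 * B c c) * B a a := mul_lt_mul_of_pos_right hlt hqa
              _ = _ := by ring
          exact lt_of_mul_lt_mul_left h5 hqc.le
        · intro hsub
          have := hsub (⟨hc, hlt⟩ : c ∈ {a | a ∈ R ∧ B a v ^ 2 * B r r < B r v ^ 2 * B a a})
          exact lt_irrefl _ this.2
      have hSb := hcount b hb hn1
      have hSc := hcount (S b r) (h.refl b hb r hr) (by
        rw [S_isom]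
        exact mul_lt_mul_of_pos_right hn2 hq)
      have e4 : S r = S b * S (S b r) * S b := by
        rw [← S_conj (g := S b) (S_isom b) r, S_inv, mul_assoc, mul_assoc, mul_assoc,
          S_mul_self, mul_one, ← mul_assoc, S_mul_self, one_mul]
      rw [e4]
      exact mul_mem (mul_mem hSb hSc) hSb

/-- the reflection group acts freely on the orbit of v -/
theorem free (h : RootSys R v) {w : V n ≃ₗ[ℝ] V n} (hw : w ∈ Subgroup.closure (S '' R))
    (hwv : w v = v) : w = 1 := by
  have h1 : w ∈ Subgroup.closure (S '' {a | Simp R v a}) := by
    have : Subgroup.closure (S '' R) ≤ Subgroup.closure (S '' {a | Simp R v a}) := by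
      rw [Subgroup.closure_le]
      rintro g ⟨r, hr, rfl⟩
      exact gen h _ r hr rfl
    exact this hw
  have h2 : ∃ l' : List (V n), (∀ a ∈ l', Simp R v a) ∧ (l'.map S).prod = w := by
    clear hwv hw
    induction h1 using Subgroup.closure_induction'' with
    | mem g hg =>
      obtain ⟨a, ha, rfl⟩ := hg
      exact ⟨[a], by simpa using ha, by simp⟩
    | inv_mem g hg =>
      obtain ⟨a, ha, rfl⟩ := hg
      exact ⟨[a], by simpa using ha, by simp [S_inv]⟩
    | one => exact ⟨[], by simp, by simp⟩
    | mul g g' _ _ h3 h4 =>
      obtain ⟨l1, h5, h6⟩ := h3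
      obtain ⟨l2, h7, h8⟩ := h4
      refine ⟨l1 ++ l2, ?_, by rw [List.map_append, List.prod_append, h6, h8]⟩
      intro c hc
      rcases List.mem_append.1 hc with hc | hc
      · exact h5 c hc
      · exact h7 c hc
  obtain ⟨l', hl', hp⟩ := h2
  rw [← hp]
  refine deletion h _ l' rfl hl' ?_
  intro b hb hb0
  have h5 : B ((l'.map S).prod b) v = B b v := by
    conv_lhs => rw [← hwv, ← hp]
    exact prod_isom l' b v
  rw [h5]
  exact hb0

end Pool.Agent.H25Cong

end
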