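import Pool.Agent.Helper25_Cong.Form

open Finset

set_option linter.unusedSimpArgs false
set_option linter.unusedVariables false
set_option linter.unusedTactic false
set_option linter.unreachableTactic false

noncomputable section

namespace Pool.Agent.H25Cong

variable {n : ℕ}

/-- integral vectors -/
def Zn (n : ℕ) : AddSubgroup (V n) where
  carrier := {x | ∃ z : Fin (n + 1) → ℤ, ∀ i, x i = z i}
  add_mem' := by
    rintro x y ⟨z, hz⟩ ⟨w, hw⟩
    exact ⟨fun i => z i + w i, fun i => by rw [Pi.add_apply, hz, hw]; push_cast; rfl⟩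
  zero_mem' := ⟨fun _ => 0, fun i => by simp⟩
  neg_mem' := by
    rintro x ⟨z, hz⟩
    exact ⟨fun i => - z i, fun i => by rw [Pi.neg_apply, hz]; push_cast; rfl⟩

lemma mem_Zn {x : V n} : x ∈ Zn n ↔ ∃ z : Fin (n + 1) → ℤ, ∀ i, x i = z i := Iff.rfl

lemma zsmul_Zn {x : V n} (hx : x ∈ Zn n) (k : ℤ) : (k : ℝ) • x ∈ Zn n := by
  have := (Zn n).zsmul_mem hx k
  rw [← Int.cast_smul_eq_zsmul ℝ] at this
  exact this

lemma nsmul_Zn {x : V n} (hx : x ∈ Zn n) (k : ℕ) : (k : ℝ) • x ∈ Zn n := by
  have := zsmul_Zn hx (k : ℤ)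
  simpa using this

lemma Lat_Zn {x : V n} (hx : x ∈ Lat n) : x ∈ Zn n := by
  obtain ⟨z, hz, -⟩ := hx
  exact ⟨z, hz⟩

lemma two_Zn {x : V n} (hx : x ∈ Zn n) : (2 : ℝ) • x ∈ Lat n := by
  obtain ⟨z, hz⟩ := hx
  refine ⟨fun i => 2 * z i, fun i => ?_, ?_⟩
  · rw [Pi.smul_apply, hz]; push_cast; rfl
  · rw [← Finset.mul_sum]; exact even_two_mul _

/-- bounded denominators -/
def BD (g : V n ≃ₗ[ℝ] V n) : Prop := ∃ D : ℕ, 0 < D ∧ ∀ x ∈ Zn n, (D : ℝ) • g x ∈ Zn n

lemma BD.mul {g h : V n ≃ₗ[ℝ] V n} (hg : BD g) (hh : BD h) : BD (g * h) := by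
  obtain ⟨D, hD, h1⟩ := hg
  obtain ⟨D', hD', h2⟩ := hh
  refine ⟨D * D', by positivity, fun x hx => ?_⟩
  have h3 := h1 _ (h2 x hx)
  rw [map_smul, smul_smul] at h3
  rw [mul_ap]
  push_cast
  exact h3

/-- the image lattice -/
def Im (g : V n ≃ₗ[ℝ] V n) : Submodule ℤ (V n) where
  carrier := {x | g⁻¹ x ∈ Lat n}
  add_mem' := by
    intro x y hx hy
    show g⁻¹ (x + y) ∈ Lat n
    rw [map_add]
    exact (LatG n).add_mem hx hy
  zero_mem' := by
    show g⁻¹ 0 ∈ Lat n
    rw [map_zero]
    exact (LatG n).zero_mem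
  smul_mem' := by
    intro k x hx
    show g⁻¹ (k • x) ∈ Lat n
    rw [map_zsmul]
    exact (LatG n).zsmul_mem hx k

lemma mem_Im {g : V n ≃ₗ[ℝ] V n} {x : V n} : x ∈ Im g ↔ g⁻¹ x ∈ Lat n := Iff.rfl

/-- a reflection which commensurates W has bounded denominators -/
lemma BD_refl (hn : 3 ≤ n) {r : V n} (hr : 0 < B r r)
    (hcom : ∀ a ∈ W n, ∃ k : ℕ, 0 < k ∧ (S r * a * S r) ^ k ∈ W n) : BD (S r) := by
  classical
  have hr0 : B r r ≠ 0 := ne_of_gt hr
  have hn1 : 1 ≤ n := by omega
  have hHP : HP (Im (S r)) := by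
    intro a ha
    obtain ⟨k, hk, hk2⟩ := hcom a ha
    refine ⟨k, hk, ?_⟩
    obtain ⟨ai, -, -, -⟩ := W_props hn1 ha
    have hai : ∀ k : ℕ, Isom (a ^ k) := by
      intro k
      induction k with
      | zero => rw [pow_zero]; exact Isom_one
      | succ k ih => rw [pow_succ]; exact ih.mul ai
    have h1 : ∀ k : ℕ, (S r * a * S r) ^ k = S r * a ^ k * S r := by
      intro k
      induction k with
      | zero => rw [pow_zero, pow_zero, mul_one, S_mul_self]
      | succ k ih =>
        rw [pow_succ, ih, pow_succ]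
        have : S r * a ^ k * S r * (S r * a * S r) = S r * a ^ k * (S r * S r) * a * S r := by
          group
        rw [this, S_mul_self, mul_one]
        group
    rw [h1] at hk2
    obtain ⟨-, h3, h4, -⟩ := W_props hn1 hk2
    refine ⟨hai k, fun x => ?_⟩
    rw [mem_Im, mem_Im, S_inv]
    have e1 : S r ((a ^ k) x) = (S r * a ^ k * S r) (S r x) := by
      rw [mul_ap, mul_ap, S_S]
    constructor
    · intro h5
      rw [e1] at h5
      have h6 := h4 _ h5
      rwa [inv_ap] at h6
    · intro h5
      rw [e1]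
      exact h3 _ h5
  obtain ⟨D, hD, hDx⟩ := exists_D hn hHP
  have hmem : ∀ y ∈ Lat n, S r y ∈ Im (S r) := by
    intro y hy
    rw [mem_Im, inv_ap]
    exact hy
  -- a nonzero coordinate
  have h2 : (ep 0 + ep 0 : V n) ∈ Lat n := ep_add_mem
  obtain ⟨j, hj⟩ : ∃ j, S r (ep 0 + ep 0) j ≠ 0 := by
    by_contra hcon
    push Not at hcon
    have h3 : S r (ep 0 + ep 0) = 0 := by ext j; exact hcon j
    have h4 : (ep 0 + ep 0 : V n) = 0 := by
      rw [← S_S r (ep 0 + ep 0), h3, map_zero]
    have h5 := congrFun h4 0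
    simp [ep_apply] at h5
  set mu : ℝ := D * S r (ep 0 + ep 0) j with hmu
  have hmu0 : mu ≠ 0 := by
    apply mul_ne_zero _ hj
    exact_mod_cast hD.ne'
  have hmu1 : ∀ i, mu • (ep i : V n) ∈ Im (S r) := fun i => hDx _ (hmem _ h2) i j
  -- mu x_i is an integer for x in the image
  have hint : ∀ x ∈ Im (S r), ∀ i, ∃ z : ℤ, mu * x i = z := by
    intro x hx i
    have h3 := hmu1 i
    rw [mem_Im] at h3 hx
    obtain ⟨k, hk⟩ := B_Lat hx h3
    rw [Isom.inv (g := S r) (S_isom r) x (mu • ep i), B_smul_right, B_ep'] at hk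
    by_cases hi : i = 0
    · rw [if_pos hi] at hk
      exact ⟨-k, by push_cast; rw [← hk]; ring⟩
    · rw [if_neg hi] at hk
      exact ⟨k, by rw [← hk]; ring⟩
  -- the trace
  have htr : ∑ i, S r (ep i : V n) i = n - 1 := by
    have h3 : ∀ i, S r (ep i : V n) i = 1 - 2 * ((if i = 0 then -1 else 1) * (r i * r i)) / B r r := by
      intro i
      rw [S_apply, B_comm, B_ep', Pi.sub_apply, Pi.smul_apply, ep_apply, if_pos rfl, smul_eq_mul]
      ring
    rw [Finset.sum_congr rfl (fun i _ => h3 i), Finset.sum_sub_distrib, ← Finset.sum_div,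
      ← Finset.mul_sum]
    have h4 : ∑ i : Fin (n + 1), (if i = 0 then -1 else 1 : ℝ) * (r i * r i) = B r r := by
      rw [B_split, Fin.sum_univ_succ]
      simp only [if_true, Fin.succ_ne_zero, if_false, one_mul]
      ring
    rw [h4]
    simp only [Finset.sum_const, Finset.card_univ, Fintype.card_fin, nsmul_eq_mul, mul_one]
    field_simp
    push_cast
    ring
  have hrat : ∃ z : ℤ, 2 * (n - 1 : ℝ) * mu = z := by
    have h3 : ∀ i, ∃ z : ℤ, mu * (2 * S r (ep i : V n) i) = z := by
      intro i
      obtain ⟨z, hz⟩ := hint _ (hmem (ep i + ep i) ep_add_mem) i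
      refine ⟨z, ?_⟩
      rw [← hz, map_add, Pi.add_apply]; ring
    choose z hz using h3
    refine ⟨∑ i, z i, ?_⟩
    push_cast
    rw [← Finset.sum_congr rfl (fun i _ => hz i), ← htr, Finset.mul_sum, Finset.sum_mul]
    apply Finset.sum_congr rfl
    intro i _
    ring
  obtain ⟨q, hq⟩ := hrat
  have hn1' : (n : ℝ) - 1 ≠ 0 := by
    have : (3 : ℝ) ≤ n := by exact_mod_cast hn
    linarith
  have hq0 : q ≠ 0 := by
    intro h
    rw [h] at hq
    apply mul_ne_zero (mul_ne_zero two_ne_zero hn1') hmu0
    simpa using hq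
  refine ⟨2 * q.natAbs, by positivity, fun x hx => ?_⟩
  have h5 : (q : ℝ) • S r ((2 : ℝ) • x) ∈ Zn n := by
    have h6 : (2 * (n - 1) : ℤ) • (mu • S r ((2 : ℝ) • x)) ∈ Zn n := by
      apply (Zn n).zsmul_mem
      choose z hz using hint _ (hmem _ (two_Zn hx))
      exact ⟨z, fun i => by rw [Pi.smul_apply, smul_eq_mul, hz]⟩
    rw [← Int.cast_smul_eq_zsmul ℝ, smul_smul] at h6
    convert h6 using 2
    rw [← hq]
    push_cast; ring
  rw [map_smul, smul_smul] at h5
  have hcast : ((2 * q.natAbs : ℕ) : ℝ) = 2 * |(q : ℝ)| := by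
    rw [Nat.cast_mul, Nat.cast_natAbs, Int.cast_abs]; push_cast; rfl
  rw [hcast]
  rcases le_total 0 (q : ℝ) with h7 | h7
  · rw [abs_of_nonneg h7]
    convert h5 using 2
    ring
  · rw [abs_of_nonpos h7]
    have h8 := (Zn n).neg_mem h5
    rw [← neg_smul] at h8
    convert h8 using 2
    ring

/-- W-invariant lattices with bounded denominators: a reflection preserving one of them
preserves L_n -/
lemma inv_lat (hn : 4 ≤ n) (Λ : AddSubgroup (V n)) (hΛ : ∀ x ∈ Lat n, x ∈ Λ) (D : ℕ) (hD : 0 < D)
    (hDΛ : ∀ x ∈ Λ, (D : ℝ) • x ∈ Zn n) (hW : ∀ g ∈ W n, ∀ x ∈ Λ, g x ∈ Λ)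
    {r : V n} (hr : ∀ x ∈ Λ, S r x ∈ Λ) {y : V n} (hy : y ∈ Lat n) : S r y ∈ Lat n := by
  classical
  have hn1 : 1 ≤ n := by omega
  have hD0 : (D : ℝ) ≠ 0 := by exact_mod_cast hD.ne'
  set J : ℕ → Fin (n + 1) := fun k => Fin.ofNat (n + 1) k with hJ
  have hJv : ∀ {k : ℕ}, k ≤ 4 → (J k).val = k := by
    intro k hk
    rw [hJ, Fin.val_ofNat]
    exact Nat.mod_eq_of_lt (by omega)
  have hJ0 : ∀ {k : ℕ}, 1 ≤ k → k ≤ 4 → J k ≠ 0 := by
    intro k hk1 hk h
    have := hJv hk
    rw [h] at this
    simp at this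
    omega
  have hJJ : ∀ {a b : ℕ}, a ≤ 4 → b ≤ 4 → a ≠ b → J a ≠ J b := by
    intro a b ha hb hab h
    apply hab
    have := congrArg Fin.val h
    rwa [hJv ha, hJv hb] at this
  -- the roots
  have hs1 : ∀ i : Fin (n + 1), i ≠ 0 → ∀ x : V n, S (ep i : V n) x = x - (2 * x i) • (ep i : V n) := by
    intro i hi x
    rw [S_apply, B_ep', B_ep', if_neg hi, ep_apply, if_pos rfl]
    congr 2
    ring
  have hs1W : ∀ i : Fin (n + 1), i ≠ 0 → S (ep i : V n) ∈ W n := by
    intro i hi
    apply S_mem hn1
    right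
    refine ⟨?_, ?_⟩
    · rintro y ⟨z, hz, -⟩
      exact ⟨z i, by rw [B_comm, B_ep', if_neg hi, hz, one_mul]⟩
    · rw [B_ep', if_neg hi, ep_apply, if_pos rfl]; ring
  have hs2 : ∀ i j : Fin (n + 1), i ≠ 0 → j ≠ 0 → i ≠ j → S (ep i - ep j : V n) ∈ W n ∧
      ∀ x : V n, S (ep i - ep j : V n) x = x - (x i - x j) • (ep i - ep j : V n) := by
    intro i j hi hj hij
    have h2 : B (ep i - ep j : V n) (ep i - ep j) = 2 := by
      rw [B_sub_right, B_ep', B_ep', if_neg hi, if_neg hj]
      simp only [Pi.sub_apply, ep_apply, if_true, if_neg hij, if_neg hij.symm]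
      norm_num
    refine ⟨S_mem hn1 (Or.inl ⟨ep_sub_mem, h2⟩), fun x => ?_⟩
    rw [S_apply, h2, B_sub_right, B_ep', B_ep', if_neg hi, if_neg hj]
    congr 2
    ring
  have hs2' : ∀ i j : Fin (n + 1), i ≠ 0 → j ≠ 0 → i ≠ j → S (ep i + ep j : V n) ∈ W n ∧
      ∀ x : V n, S (ep i + ep j : V n) x = x - (x i + x j) • (ep i + ep j : V n) := by
    intro i j hi hj hij
    have h2 : B (ep i + ep j : V n) (ep i + ep j) = 2 := by
      rw [B_add_right, B_ep', B_ep', if_neg hi, if_neg hj]
      simp only [Pi.add_apply, ep_apply, if_true, if_neg hij, if_neg hij.symm]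
      norm_num
    refine ⟨S_mem hn1 (Or.inl ⟨ep_add_mem, h2⟩), fun x => ?_⟩
    rw [S_apply, h2, B_add_right, B_ep', B_ep', if_neg hi, if_neg hj]
    congr 2
    ring
  set rr : V n := (ep 0 + ep (J 1)) + (ep (J 2) + ep (J 3)) with hrr
  have hBr : ∀ x : V n, B x rr = - x 0 + x (J 1) + x (J 2) + x (J 3) := by
    intro x
    rw [hrr, B_add_right, B_add_right, B_add_right, B_ep', B_ep', B_ep', B_ep', if_pos rfl,
      if_neg (hJ0 (by omega) (by omega)), if_neg (hJ0 (by omega) (by omega)),
      if_neg (hJ0 (by omega) (by omega))]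
    ring
  have hrr0 : rr 0 = 1 := by
    simp only [hrr, Pi.add_apply, ep_apply, if_true,
      if_neg (hJ0 (show 1 ≤ 1 by omega) (show 1 ≤ 4 by omega)).symm,
      if_neg (hJ0 (show 1 ≤ 2 by omega) (show 2 ≤ 4 by omega)).symm,
      if_neg (hJ0 (show 1 ≤ 3 by omega) (show 3 ≤ 4 by omega)).symm]
    norm_num
  have hrrj : ∀ k, 1 ≤ k → k ≤ 3 → rr (J k) = 1 := by
    intro k hk1 hk3
    have h0 : J k ≠ 0 := hJ0 hk1 (by omega)
    simp only [hrr, Pi.add_apply, ep_apply, if_neg h0]
    obtain rfl | rfl | rfl : k = 1 ∨ k = 2 ∨ k = 3 := by omega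
    · rw [if_pos rfl, if_neg (hJJ (by omega) (by omega) (by omega)),
        if_neg (hJJ (by omega) (by omega) (by omega))]; norm_num
    · rw [if_pos rfl, if_neg (hJJ (by omega) (by omega) (by omega)),
        if_neg (hJJ (by omega) (by omega) (by omega))]; norm_num
    · rw [if_pos rfl, if_neg (hJJ (by omega) (by omega) (by omega)),
        if_neg (hJJ (by omega) (by omega) (by omega))]; norm_num
  have hrr2 : B rr rr = 2 := by
    rw [hBr, hrr0, hrrj 1 (by omega) (by omega), hrrj 2 (by omega) (by omega),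
      hrrj 3 (by omega) (by omega)]
    norm_num
  have hs3 : S rr ∈ W n ∧ ∀ x : V n, S rr x = x - (B x rr) • rr := by
    refine ⟨S_mem hn1 (Or.inl ⟨(LatG n).add_mem ep_add_mem ep_add_mem, hrr2⟩), fun x => ?_⟩
    rw [S_apply, hrr2]
    congr 2
    ring
  -- multiples of basis vectors in Λ
  have hmove : ∀ i j : Fin (n + 1), i ≠ 0 → j ≠ 0 → ∀ a : ℝ, a • (ep i : V n) ∈ Λ →
      a • (ep j : V n) ∈ Λ := by
    intro i j hi hj a ha
    by_cases hij : i = j
    · rw [← hij]; exact ha
    · have h1 := hW _ (hs2 i j hi hj hij).1 _ ha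
      rw [(hs2 i j hi hj hij).2] at h1
      simp only [Pi.smul_apply, ep_apply, if_true, if_neg (Ne.symm hij), smul_eq_mul, mul_one,
        mul_zero, sub_zero] at h1
      convert h1 using 1
      rw [smul_sub]; abel
  have hmove0 : ∀ i : Fin (n + 1), i ≠ 0 → ∀ a : ℝ, a • (ep i : V n) ∈ Λ →
      a • (ep 0 : V n) ∈ Λ := by
    intro i hi a ha
    have h1 := hmove i (J 1) hi (hJ0 (by omega) (by omega)) a ha
    have h2 := hmove i (J 2) hi (hJ0 (by omega) (by omega)) a ha
    have h3 := hmove i (J 3) hi (hJ0 (by omega) (by omega)) a ha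
    have h4 := hW _ hs3.1 _ h1
    rw [hs3.2, B_smul_left] at h4
    have h5 : B (ep (J 1) : V n) rr = 1 := by
      rw [B_comm, B_ep', if_neg (hJ0 (by omega) (by omega)), hrrj 1 (by omega) (by omega)]; ring
    rw [h5] at h4
    have h6 := Λ.neg_mem (Λ.add_mem (Λ.add_mem h4 h2) h3)
    convert h6 using 1
    rw [hrr]
    ext k
    simp only [Pi.add_apply, Pi.sub_apply, Pi.smul_apply, Pi.neg_apply, smul_eq_mul]
    ring
  set i1 : Fin (n + 1) := J 1 with hi1
  have hi10 : i1 ≠ 0 := hJ0 (by omega) (by omega)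
  -- minimal multiple
  have hex : ∃ k : ℕ, 0 < k ∧ ((k : ℝ) / D) • (ep i1 : V n) ∈ Λ := by
    refine ⟨2 * D, by positivity, ?_⟩
    apply hΛ
    have : ((2 * D : ℕ) : ℝ) / D = 2 := by push_cast; field_simp
    rw [this, two_smul]
    exact ep_add_mem
  obtain ⟨hk0, hkΛ⟩ := Nat.find_spec hex
  set k := Nat.find hex with hkdef
  set c : ℝ := (k : ℝ) / D with hc
  have hc0 : 0 < c := by
    rw [hc]
    have : (0 : ℝ) < k := by exact_mod_cast hk0
    have : (0 : ℝ) < D := by exact_mod_cast hD
    positivity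
  have hcmin : ∀ i : Fin (n + 1), i ≠ 0 → ∀ a : ℝ, a • (ep i : V n) ∈ Λ → ∃ m : ℤ, a = c * m := by
    intro i hi a ha
    have ha1 := hmove i i1 hi hi10 a ha
    obtain ⟨z, hz⟩ := hDΛ _ ha1
    have hz1 := hz i1
    simp only [Pi.smul_apply, ep_apply, if_true, smul_eq_mul, mul_one] at hz1
    -- D a = z; divide z by k
    refine ⟨z i1 / k, ?_⟩
    by_contra hcon
    have hrem : 0 < z i1 % (k : ℤ) := by
      have h1 : 0 ≤ z i1 % (k : ℤ) := Int.emod_nonneg _ (by exact_mod_cast hk0.ne')
      rcases eq_or_lt_of_le h1 with h2 | h2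
      · exfalso
        apply hcon
        have h3 := Int.emod_add_mul_ediv (z i1) k
        rw [← h2, zero_add] at h3
        have h4 : (z i1 : ℝ) = k * ((z i1 / k : ℤ) : ℝ) := by exact_mod_cast h3.symm
        rw [hc]
        have : a = (z i1 : ℝ) / D := by rw [← hz1]; field_simp
        rw [this, h4]; ring
      · exact h2
    have hlt : z i1 % (k : ℤ) < k := Int.emod_lt_of_pos _ (by exact_mod_cast hk0)
    apply Nat.find_min hex (m := (z i1 % (k : ℤ)).toNat) (by omega)
    refine ⟨by omega, ?_⟩
    have h5 : (((z i1 % (k : ℤ)).toNat : ℕ) : ℝ) = ((z i1 % (k : ℤ) : ℤ) : ℝ) := by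
      exact_mod_cast Int.toNat_of_nonneg hrem.le
    rw [h5]
    have h6 : ((z i1 % (k : ℤ) : ℤ) : ℝ) / D = a - ((z i1 / k : ℤ) : ℝ) * c := by
      have h3 := Int.emod_add_mul_ediv (z i1) k
      have h4 : ((z i1 % (k : ℤ) : ℤ) : ℝ) = z i1 - k * ((z i1 / k : ℤ) : ℝ) := by
        have : ((z i1 % (k : ℤ) : ℤ) : ℝ) + k * ((z i1 / k : ℤ) : ℝ) = z i1 := by
          exact_mod_cast h3
        linarith
      rw [h4, ← hz1, hc]
      field_simp
    rw [h6, sub_smul, mul_smul]
    apply Λ.sub_mem ha1
    rw [Int.cast_smul_eq_zsmul]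
    exact Λ.zsmul_mem hkΛ _
  have hcall : ∀ i : Fin (n + 1), c • (ep i : V n) ∈ Λ := by
    intro i
    by_cases hi : i = 0
    · rw [hi]; exact hmove0 i1 hi10 c hkΛ
    · exact hmove i1 i hi10 hi c hkΛ
  -- coordinates are half multiples of c
  have hcoord : ∀ x ∈ Λ, ∀ i, ∃ m : ℤ, 2 * x i = c * m := by
    intro x hx
    have h1 : ∀ i, i ≠ 0 → ∃ m : ℤ, 2 * x i = c * m := by
      intro i hi
      apply hcmin i hi
      have h2 := Λ.sub_mem hx (hW _ (hs1W i hi) x hx)
      rw [hs1 i hi, sub_sub_cancel] at h2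
      exact h2
    intro i
    by_cases hi : i = 0
    · have h2 := Λ.sub_mem hx (hW _ hs3.1 x hx)
      rw [hs3.2, sub_sub_cancel] at h2
      have h3 := Λ.sub_mem h2 (hW _ (hs1W i1 hi10) _ h2)
      rw [hs1 i1 hi10, sub_sub_cancel, Pi.smul_apply, smul_eq_mul,
        hrrj 1 (by omega) (by omega), mul_one] at h3
      obtain ⟨m, hm⟩ := hcmin i1 hi10 _ h3
      rw [hBr] at hm
      obtain ⟨m1, hm1⟩ := h1 (J 1) (hJ0 (by omega) (by omega))
      obtain ⟨m2, hm2⟩ := h1 (J 2) (hJ0 (by omega) (by omega))
      obtain ⟨m3, hm3⟩ := h1 (J 3) (hJ0 (by omega) (by omega))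
      refine ⟨m1 + m2 + m3 - m, ?_⟩
      rw [hi]
      push_cast
      linarith
    · exact h1 i hi
  choose! m hm using hcoord
  -- preservation is scale invariant
  by_cases hA : ∃ x ∈ Λ, ∃ i j : Fin (n + 1), ¬ (∃ t : ℤ, m x i - m x j = 2 * t)
  · -- case A: Λ is (c/2) L_n
    have hdiff : ∃ i j : Fin (n + 1), i ≠ 0 ∧ j ≠ 0 ∧ i ≠ j ∧
        (c / 2) • (ep i - ep j : V n) ∈ Λ := by
      obtain ⟨x, hx, i, j, hij⟩ := hA
      -- find nonzero indices with different parity
      obtain ⟨i', j', hi', hj', hij'⟩ : ∃ i' j' : Fin (n + 1), i' ≠ 0 ∧ j' ≠ 0 ∧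
          ∃ x ∈ Λ, ¬ (∃ t : ℤ, m x i' - m x j' = 2 * t) := by
        by_contra hcon
        push Not at hcon
        -- all nonzero indices have the same parity for all elements
        -- move the parity defect at 0 with the reflection in rr
        have hpar : ∀ y ∈ Λ, ∀ a b : Fin (n + 1), a ≠ 0 → b ≠ 0 →
            ∃ t : ℤ, m y a - m y b = 2 * t := by
          intro y hy a b ha hb
          exact hcon a b ha hb y hy
        have hJ4 : J 4 ≠ 0 := hJ0 (by omega) (by omega)
        have key : ∃ t : ℤ, m x 0 - m x (J 1) = 2 * t := by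
          set y := S rr x with hy
          have hyΛ : y ∈ Λ := hW _ hs3.1 x hx
          obtain ⟨t, ht⟩ := hpar y hyΛ (J 1) (J 4) (hJ0 (by omega) (by omega)) hJ4
          obtain ⟨t1, ht1⟩ := hpar x hx (J 1) (J 4) (hJ0 (by omega) (by omega)) hJ4
          obtain ⟨t2, ht2⟩ := hpar x hx (J 1) (J 2) (hJ0 (by omega) (by omega))
            (hJ0 (by omega) (by omega))
          obtain ⟨t3, ht3⟩ := hpar x hx (J 1) (J 3) (hJ0 (by omega) (by omega))
            (hJ0 (by omega) (by omega))
          have e1 : y (J 1) = x (J 1) - (- x 0 + x (J 1) + x (J 2) + x (J 3)) := by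
            rw [hy, hs3.2, hBr, Pi.sub_apply, Pi.smul_apply, smul_eq_mul,
              hrrj 1 (by omega) (by omega), mul_one]
          have e2 : y (J 4) = x (J 4) := by
            rw [hy, hs3.2, hBr, Pi.sub_apply, Pi.smul_apply, smul_eq_mul]
            have : rr (J 4) = 0 := by
              simp only [hrr, Pi.add_apply, ep_apply, if_neg hJ4]
              rw [if_neg (hJJ (by omega) (by omega) (by omega)),
                if_neg (hJJ (by omega) (by omega) (by omega)),
                if_neg (hJJ (by omega) (by omega) (by omega))]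
              ring
            rw [this]; ring
          have f1 := hm y hyΛ (J 1)
          have f2 := hm y hyΛ (J 4)
          have g0 := hm x hx 0
          have g1 := hm x hx (J 1)
          have g2 := hm x hx (J 2)
          have g3 := hm x hx (J 3)
          have g4 := hm x hx (J 4)
          rw [e1] at f1
          rw [e2] at f2
          have h1 : c * ((m y (J 1) : ℝ)) = c * (m x 0 - m x (J 2) - m x (J 3)) := by
            linarith
          have h2 : c * ((m y (J 4) : ℝ)) = c * m x (J 4) := by linarith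
          have h1' := mul_left_cancel₀ hc0.ne' h1
          have h2' := mul_left_cancel₀ hc0.ne' h2
          have h1'' : m y (J 1) = m x 0 - m x (J 2) - m x (J 3) := by exact_mod_cast h1'
          have h2'' : m y (J 4) = m x (J 4) := by exact_mod_cast h2'
          refine ⟨t + m x (J 1) - t1 - t2 - t3, ?_⟩
          linarith
        obtain ⟨t, ht⟩ := key
        apply hij
        have h0 : ∀ a : Fin (n + 1), ∃ t : ℤ, m x a - m x (J 1) = 2 * t := by
          intro a
          by_cases ha : a = 0
          · rw [ha]; exact ⟨t, ht⟩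
          · exact hpar x hx a (J 1) ha (hJ0 (by omega) (by omega))
        obtain ⟨t1, ht1⟩ := h0 i
        obtain ⟨t2, ht2⟩ := h0 j
        exact ⟨t1 - t2, by linarith⟩
      obtain ⟨x, hx, hne⟩ := hij'
      have hij2 : i' ≠ j' := by
        rintro rfl
        exact hne ⟨0, by ring⟩
      refine ⟨i', j', hi', hj', hij2, ?_⟩
      have h1 := Λ.sub_mem hx (hW _ (hs2 i' j' hi' hj' hij2).1 x hx)
      rw [(hs2 i' j' hi' hj' hij2).2, sub_sub_cancel] at h1
      -- x_i - x_j = (c/2) * odd
      obtain ⟨u, hu | hu⟩ := Int.even_or_odd' (m x i' - m x j')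
      · exact absurd ⟨u, hu⟩ hne
      · have h2 : x i' - x j' = c / 2 + c * u := by
          have h3 := hm x hx i'
          have h4 := hm x hx j'
          have h5 : (m x i' : ℝ) - m x j' = 2 * u + 1 := by exact_mod_cast hu
          have h6 : (m x i' : ℝ) = m x j' + 2 * u + 1 := by linarith
          rw [h6] at h3
          linarith
        have h3 : (c * u) • (ep i' - ep j' : V n) ∈ Λ := by
          have h4 := Λ.zsmul_mem (Λ.sub_mem (hcall i') (hcall j')) u
          rw [← smul_sub, ← Int.cast_smul_eq_zsmul ℝ, smul_smul] at h4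
          rwa [mul_comm c]
        have h4 := Λ.sub_mem h1 h3
        rw [← sub_smul, h2] at h4
        convert h4 using 2
        ring
    obtain ⟨a, b, ha, hb, hab, habΛ⟩ := hdiff
    -- all differences and sums
    have hall : ∀ i j : Fin (n + 1), i ≠ 0 → j ≠ 0 → i ≠ j →
        (c / 2) • (ep i - ep j : V n) ∈ Λ := by
      have hstep : ∀ a b i : Fin (n + 1), a ≠ 0 → b ≠ 0 → a ≠ b → i ≠ 0 → i ≠ b →
          (c / 2) • (ep a - ep b : V n) ∈ Λ → (c / 2) • (ep i - ep b : V n) ∈ Λ := by
        intro a b i ha hb hab hi hib h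
        by_cases hia : i = a
        · rw [hia]; exact h
        · have h1 := hW _ (hs2 i a hi ha hia).1 _ h
          rw [(hs2 i a hi ha hia).2] at h1
          simp only [Pi.smul_apply, Pi.sub_apply, ep_apply, if_true, if_neg hia, if_neg hib,
            if_neg hab, smul_eq_mul] at h1
          convert h1 using 1
          ext l
          simp only [Pi.smul_apply, Pi.sub_apply, smul_eq_mul]
          ring
      have hswap : ∀ a b : Fin (n + 1), (c / 2) • (ep a - ep b : V n) ∈ Λ →
          (c / 2) • (ep b - ep a : V n) ∈ Λ := by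
        intro a b h
        have := Λ.neg_mem h
        rwa [← smul_neg, neg_sub] at this
      intro i j hi hj hij
      -- from (a,b) to (i,j)
      by_cases hib : i = b
      · -- (a,b) -> (b,a) = (i,a) -> (i,j)
        subst hib
        have h1 := hswap a i habΛ
        -- (i,a): change a into j
        have h2 := hswap i a h1
        have h3 : (c / 2) • (ep j - ep i : V n) ∈ Λ :=
          hstep a i j ha hb hab hj (Ne.symm hij) h2
        exact hswap j i h3
      · have h1 : (c / 2) • (ep i - ep b : V n) ∈ Λ := hstep a b i ha hb hab hi hib habΛ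
        have h2 := hswap i b h1
        by_cases hjb : j = b
        · rw [hjb]; exact h1
        · have h3 : (c / 2) • (ep j - ep i : V n) ∈ Λ :=
            hstep b i j hb hi (Ne.symm hib) hj (Ne.symm hij) h2
          exact hswap j i h3
    have hall' : ∀ i j : Fin (n + 1), i ≠ 0 → j ≠ 0 → (c / 2) • (ep i + ep j : V n) ∈ Λ := by
      intro i j hi hj
      by_cases hij : i = j
      · subst hij
        rw [← two_smul ℝ (ep i : V n), smul_smul]
        have : c / 2 * 2 = c := by ring
        rw [this]
        exact hcall i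
      · have h1 := Λ.add_mem (hall i j hi hj hij) (hcall j)
        convert h1 using 1
        ext l
        simp only [Pi.smul_apply, Pi.sub_apply, Pi.add_apply, smul_eq_mul]
        ring
    have hall0 : ∀ i : Fin (n + 1), i ≠ 0 → (c / 2) • (ep 0 + ep i : V n) ∈ Λ := by
      have h1 : (c / 2) • (ep 0 + ep (J 3) : V n) ∈ Λ := by
        -- apply S rr to (c/2)(ep 1 + ep 4): gives (c/2)(ep 4 - ep 0 - ep 2 - ep 3)
        have h2 := hW _ hs3.1 _ (hall' (J 1) (J 4) (hJ0 (by omega) (by omega))
          (hJ0 (by omega) (by omega)))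
        rw [hs3.2, B_smul_left] at h2
        have h5 : B (ep (J 1) + ep (J 4) : V n) rr = 1 := by
          rw [B_comm, B_add_right, B_ep', B_ep', if_neg (hJ0 (by omega) (by omega)),
            if_neg (hJ0 (by omega) (by omega)), hrrj 1 (by omega) (by omega)]
          have : rr (J 4) = 0 := by
            simp only [hrr, Pi.add_apply, ep_apply,
              if_neg (hJ0 (show 1 ≤ 4 by omega) (show 4 ≤ 4 by omega))]
            rw [if_neg (hJJ (by omega) (by omega) (by omega)),
              if_neg (hJJ (by omega) (by omega) (by omega)),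
              if_neg (hJJ (by omega) (by omega) (by omega))]
            ring
          rw [this]; ring
        rw [h5] at h2
        have h3 := hall (J 4) (J 2) (hJ0 (by omega) (by omega)) (hJ0 (by omega) (by omega))
          (hJJ (by omega) (by omega) (by omega))
        -- h2 : (c/2)(e1+e4) - (c/2) rr
        have h4 := Λ.sub_mem h3 h2
        convert h4 using 1
        rw [hrr]
        ext l
        simp only [Pi.smul_apply, Pi.sub_apply, Pi.add_apply, smul_eq_mul]
        ring
      intro i hi
      by_cases h3 : i = J 3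
      · rw [h3]; exact h1
      · have h4 := Λ.add_mem h1 (hall i (J 3) hi (hJ0 (by omega) (by omega)) h3)
        convert h4 using 1
        ext l
        simp only [Pi.smul_apply, Pi.sub_apply, Pi.add_apply, smul_eq_mul]
        ring
    -- (c/2) L_n is contained in Λ
    have hsub : ∀ y ∈ Lat n, (c / 2) • y ∈ Λ := by
      rintro y ⟨z, hz, hze⟩
      obtain ⟨s, hs⟩ := hze
      have hdec : (c / 2) • y = ∑ j, (z j) • ((c / 2) • (if j = 0 then (ep 0 - ep i1 : V n) else
          ep j - ep i1)) + s • (c • (ep i1 : V n)) := by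
        ext l
        have h1 : ∀ j, (z j • ((c / 2) • (if j = 0 then (ep 0 - ep i1 : V n) else
            ep j - ep i1))) l = (z j : ℝ) * (c / 2) * ((if l = j then 1 else 0) -
            (if l = i1 then 1 else 0)) := by
          intro j
          rw [← Int.cast_smul_eq_zsmul ℝ]
          by_cases hj : j = 0
          · subst hj
            simp only [if_true, Pi.smul_apply, Pi.sub_apply, ep_apply, smul_eq_mul]
            ring
          · simp only [if_neg hj, Pi.smul_apply, Pi.sub_apply, ep_apply, smul_eq_mul]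
            ring
        rw [Pi.add_apply, Finset.sum_apply, Finset.sum_congr rfl (fun j _ => h1 j),
          ← Int.cast_smul_eq_zsmul ℝ]
        simp only [mul_sub, Finset.sum_sub_distrib, ← Finset.sum_mul, Pi.smul_apply, ep_apply,
          smul_eq_mul]
        have h2 : ∑ j, (z j : ℝ) * (c / 2) * (if l = j then 1 else 0) = z l * (c / 2) := by
          simp
        have h3 : (∑ j, (z j : ℝ)) = s + s := by exact_mod_cast hs
        rw [h2, h3, hz l]
        ring
      rw [hdec]
      apply Λ.add_mem
      · apply Λ.sum_mem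
        intro j _
        apply Λ.zsmul_mem
        by_cases hj : j = 0
        · rw [if_pos hj]
          have h1 := Λ.sub_mem (hall0 i1 hi10) (hcall i1)
          convert h1 using 1
          ext l
          simp only [Pi.smul_apply, Pi.sub_apply, Pi.add_apply, smul_eq_mul]
          ring
        · rw [if_neg hj]
          by_cases hj1 : j = i1
          · rw [hj1, sub_self, smul_zero]; exact Λ.zero_mem
          · exact hall j i1 hj hi10 hj1
      · exact Λ.zsmul_mem (hcall i1) _
    -- conversely
    have hsup : ∀ x ∈ Λ, ∃ y ∈ Lat n, x = (c / 2) • y := by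
      intro x hx
      refine ⟨(2 / c) • x, ?_, ?_⟩
      · have hco : ∀ i, ((2 / c) • x : V n) i = m x i := by
          intro i
          rw [Pi.smul_apply, smul_eq_mul, div_mul_eq_mul_div, hm x hx i]
          field_simp
        refine ⟨m x, hco, ?_⟩
        rw [← Int.not_odd_iff_even]
        rintro ⟨s, hs⟩
        -- then (c/2) ep i1 in Λ
        have h1 : ((2 / c) • x - ep i1 : V n) ∈ Lat n := by
          refine ⟨fun i => m x i - (if i = i1 then 1 else 0), fun i => ?_, ?_⟩
          · rw [Pi.sub_apply, hco, ep_apply]; push_cast; rfl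
          · rw [Finset.sum_sub_distrib, hs]
            simp
        have h2 := hsub _ h1
        rw [smul_sub, smul_smul] at h2
        have h3 : c / 2 * (2 / c) = 1 := by field_simp
        rw [h3, one_smul] at h2
        have h4 := Λ.sub_mem hx h2
        rw [sub_sub_cancel] at h4
        obtain ⟨t, ht⟩ := hcmin i1 hi10 _ h4
        have h5 : (1 : ℝ) = 2 * t := by
          have : c * 1 = c * (2 * t) := by linarith
          exact mul_left_cancel₀ hc0.ne' this
        have h6 : (1 : ℤ) = 2 * t := by exact_mod_cast h5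
        omega
      · rw [smul_smul]
        have : c / 2 * (2 / c) = 1 := by field_simp
        rw [this, one_smul]
    obtain ⟨w, hw, hwy⟩ := hsup _ (hr _ (hsub y hy))
    rw [map_smul] at hwy
    have hc2 : c / 2 ≠ 0 := by positivity
    have := smul_right_injective (V n) hc2 hwy
    rw [this]
    exact hw
  · -- case B: all coordinates have the same parity
    push Not at hA
    by_cases hodd : ∃ x ∈ Λ, Odd (m x 0)
    · -- Λ = c L_n^*
      obtain ⟨x0, hx0, hx0odd⟩ := hodd
      have hchar : ∀ y : V n, y ∈ Lat n ↔ ∀ x ∈ Λ, ∃ t : ℤ, B y x = c * t := by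
        intro y
        constructor
        · rintro ⟨z, hz, hze⟩ x hx
          -- B y x = sum z_i x_i - 2 z_0 x_0
          obtain ⟨s, hs⟩ := hze
          have h1 : ∃ u : ℤ, ∑ i, z i * m x i = 2 * u := by
            have h2 : ∀ i, ∃ t : ℤ, m x i = m x 0 + 2 * t := by
              intro i
              obtain ⟨t, ht⟩ := hA x hx i 0
              exact ⟨t, by linarith⟩
            choose t ht using h2
            refine ⟨s * m x 0 + ∑ i, z i * t i, ?_⟩
            rw [Finset.sum_congr rfl (fun i _ => by rw [ht i])]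
            simp only [mul_add, Finset.sum_add_distrib, ← Finset.sum_mul]
            rw [hs, Finset.mul_sum]
            have : ∑ i, z i * (2 * t i) = ∑ i, 2 * (z i * t i) :=
              Finset.sum_congr rfl fun i _ => by ring
            rw [this]; ring
          obtain ⟨u, hu⟩ := h1
          refine ⟨u - z 0 * m x 0, ?_⟩
          have h3 : 2 * B y x = c * (((∑ i, z i * m x i) - 2 * (z 0 * m x 0) : ℤ) : ℝ) := by
            unfold B
            push_cast
            rw [mul_sub, Finset.mul_sum, mul_sub, Finset.mul_sum]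
            congr 1
            · apply Finset.sum_congr rfl
              intro i _
              rw [hz i]
              have := hm x hx i
              calc 2 * ((z i : ℝ) * x i) = z i * (2 * x i) := by ring
                _ = _ := by rw [this]; ring
            · rw [hz 0]
              have := hm x hx 0
              calc 2 * (2 * ((z 0 : ℝ) * x 0)) = 2 * (z 0 * (2 * x 0)) := by ring
                _ = _ := by rw [this]; ring
          rw [hu] at h3
          push_cast at h3 ⊢
          linarith
        · intro h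
          have h1 : ∀ i, ∃ t : ℤ, y i = t := by
            intro i
            obtain ⟨t, ht⟩ := h _ (hcall i)
            rw [B_smul_right, B_ep'] at ht
            have h2 := mul_left_cancel₀ hc0.ne' ht
            by_cases hi : i = 0
            · rw [if_pos hi] at h2
              exact ⟨-t, by push_cast; linarith⟩
            · rw [if_neg hi] at h2
              exact ⟨t, by linarith⟩
          choose z hz using h1
          refine ⟨z, hz, ?_⟩
          obtain ⟨t, ht⟩ := h x0 hx0
          have h3 : 2 * B y x0 = c * (((∑ i, z i * m x0 i) - 2 * (z 0 * m x0 0) : ℤ) : ℝ) := by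
            unfold B
            push_cast
            rw [mul_sub, Finset.mul_sum, mul_sub, Finset.mul_sum]
            congr 1
            · apply Finset.sum_congr rfl
              intro i _
              rw [hz i]
              have := hm x0 hx0 i
              calc 2 * ((z i : ℝ) * x0 i) = z i * (2 * x0 i) := by ring
                _ = _ := by rw [this]; ring
            · rw [hz 0]
              have := hm x0 hx0 0
              calc 2 * (2 * ((z 0 : ℝ) * x0 0)) = 2 * (z 0 * (2 * x0 0)) := by ring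
                _ = _ := by rw [this]; ring
          rw [ht] at h3
          have h4 : c * ((2 * t : ℤ) : ℝ) = c * (((∑ i, z i * m x0 i) - 2 * (z 0 * m x0 0) : ℤ) : ℝ) := by
            rw [← h3]; push_cast; ring
          have h5 := mul_left_cancel₀ hc0.ne' h4
          have h6 : 2 * t = (∑ i, z i * m x0 i) - 2 * (z 0 * m x0 0) := by exact_mod_cast h5
          have h7 : Even (∑ i, z i * m x0 i) := ⟨t + z 0 * m x0 0, by linarith⟩
          have h8 : Even ((∑ i, z i * m x0 i) - ∑ i, z i) := by
            rw [← Finset.sum_sub_distrib]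
            apply Finset.even_sum
            intro i _
            obtain ⟨u, hu⟩ := hA x0 hx0 i 0
            obtain ⟨v, hv⟩ := hx0odd
            have : m x0 i = 2 * (u + v) + 1 := by linarith
            rw [this]
            exact ⟨z i * (u + v), by ring⟩
          have := h7.sub h8
          simpa using this
      rw [hchar]
      intro x hx
      have h1 := (hchar y).1 hy (S r x) (hr x hx)
      rwa [← S_isom r, S_S] at h1
    · -- Λ = (c) Z^(n+1)
      push Not at hodd
      have hev : ∀ x ∈ Λ, ∀ i, ∃ t : ℤ, x i = c * t := by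
        intro x hx i
        have h1 := hodd x hx
        rw [Int.not_odd_iff_even] at h1
        obtain ⟨u, hu⟩ := h1
        obtain ⟨t, ht⟩ := hA x hx i 0
        refine ⟨t + u, ?_⟩
        have h2 := hm x hx i
        have h3 : m x i = 2 * (t + u) := by linarith
        rw [h3] at h2
        push_cast at h2 ⊢
        linarith
      have hZ : ∀ y : V n, y ∈ Zn n ↔ c • y ∈ Λ := by
        intro y
        constructor
        · rintro ⟨z, hz⟩
          have : c • y = ∑ i, z i • (c • (ep i : V n)) := by
            ext l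
            rw [Finset.sum_apply, Pi.smul_apply, hz l]
            have h1 : ∀ i, (z i • (c • (ep i : V n))) l = (z i : ℝ) * c * (if l = i then 1 else 0) := by
              intro i
              rw [← Int.cast_smul_eq_zsmul ℝ]
              simp only [Pi.smul_apply, ep_apply, smul_eq_mul]
              ring
            rw [Finset.sum_congr rfl (fun i _ => h1 i)]
            simp
            ring
          rw [this]
          exact Λ.sum_mem fun i _ => Λ.zsmul_mem (hcall i) _
        · intro h
          have h1 := hev _ h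
          choose t ht using h1
          refine ⟨t, fun i => ?_⟩
          have := ht i
          rw [Pi.smul_apply, smul_eq_mul] at this
          exact mul_left_cancel₀ hc0.ne' this
      have h1 : S r y ∈ Zn n := by
        rw [hZ, ← map_smul]
        exact hr _ ((hZ y).1 (Lat_Zn hy))
      obtain ⟨z, hz⟩ := h1
      apply int_even_of_even hz
      rw [S_isom]
      exact B_even hy

end Pool.Agent.H25Cong

end
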