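import Pool.Agent.Helper25_Cong.Max

open Finset

set_option linter.unusedSimpArgs false
set_option linter.unusedVariables false
set_option linter.unusedTactic false
set_option linter.unreachableTactic false

noncomputable section

namespace Pool.Agent.H25Cong

variable {n : ℕ}

/-- W(L_n) is maximal among the groups generated by reflections in which it has finite index -/
theorem maxl (hn : 4 ≤ n) (Γ : Subgroup (V n ≃ₗ[ℝ] V n)) (hΓ : GenByRefl Γ) (hle : W n ≤ Γ)
    (hfin : (W n).relIndex Γ ≠ 0) : Γ = W n := by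
  have hn1 : 1 ≤ n := by omega
  -- the generating reflections
  have hgen : ∀ g : V n ≃ₗ[ℝ] V n, (g ∈ Γ ∧ IsReflection g) →
      ∃ r : V n, 0 < B r r ∧ g = S r := by
    rintro g ⟨-, r, hr, h⟩
    exact ⟨r, hr, by ext1 x; rw [h, S_apply]⟩
  -- step 1 and 2
  have hBD : ∀ g ∈ Γ, BD g := by
    intro g hg
    have hcomr : ∀ r : V n, 0 < B r r → S r ∈ Γ → BD (S r) := by
      intro r hr hrΓ
      apply BD_refl (by omega) hr
      intro a ha
      obtain ⟨k, hk, -, hk2⟩ := Subgroup.exists_pow_mem_of_relIndex_ne_zero hfin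
        (mul_mem (mul_mem hrΓ (hle ha)) hrΓ)
      exact ⟨k, hk, hk2.1⟩
    rw [hΓ] at hg
    induction hg using Subgroup.closure_induction'' with
    | mem g hg =>
      obtain ⟨r, hr, rfl⟩ := hgen g hg
      exact hcomr r hr hg.1
    | inv_mem g hg =>
      obtain ⟨r, hr, rfl⟩ := hgen g hg
      rw [S_inv]
      exact hcomr r hr hg.1
    | one => exact ⟨1, one_pos, fun x hx => by simpa using hx⟩
    | mul g h _ _ hg hh => exact hg.mul hh
  -- step 3
  obtain ⟨D, hD, hDx⟩ : ∃ D : ℕ, 0 < D ∧ ∀ g ∈ Γ, ∀ y ∈ Lat n, (D : ℝ) • g y ∈ Zn n := by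
    have hfi : ((W n).subgroupOf Γ).FiniteIndex := ⟨hfin⟩
    haveI : Finite (Γ ⧸ (W n).subgroupOf Γ) := Subgroup.finite_quotient_of_finiteIndex
    haveI := Fintype.ofFinite (Γ ⧸ (W n).subgroupOf Γ)
    choose D hD hDx using fun q : Γ ⧸ (W n).subgroupOf Γ => hBD (q.out : V n ≃ₗ[ℝ] V n) q.out.2
    refine ⟨∏ q, D q, Finset.prod_pos fun q _ => hD q, fun g hg y hy => ?_⟩
    set q : Γ ⧸ (W n).subgroupOf Γ := QuotientGroup.mk ⟨g, hg⟩ with hq
    have h1 : (q.out)⁻¹ * ⟨g, hg⟩ ∈ (W n).subgroupOf Γ := by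
      rw [← QuotientGroup.eq, QuotientGroup.out_eq']
    rw [Subgroup.mem_subgroupOf] at h1
    have h2 := (W_props hn1 h1).2.1 y hy
    have h3 := hDx q _ (Lat_Zn h2)
    have h4 : (q.out : V n ≃ₗ[ℝ] V n) ((((q.out)⁻¹ * ⟨g, hg⟩ : Γ) : V n ≃ₗ[ℝ] V n) y) = g y := by
      rw [← mul_ap]
      congr 1
      push_cast
      rw [mul_inv_cancel_left]
    rw [h4] at h3
    obtain ⟨e, he⟩ := Finset.dvd_prod_of_mem D (Finset.mem_univ q)
    rw [he]
    have h5 := nsmul_Zn h3 e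
    rw [smul_smul] at h5
    convert h5 using 2
    push_cast; ring
  -- step 4
  set Λ : AddSubgroup (V n) := AddSubgroup.closure {x | ∃ g ∈ Γ, ∃ y ∈ Lat n, x = g y} with hΛ
  have hLat : ∀ x ∈ Lat n, x ∈ Λ := fun x hx =>
    AddSubgroup.subset_closure ⟨1, Γ.one_mem, x, hx, rfl⟩
  have hDΛ : ∀ x ∈ Λ, (D : ℝ) • x ∈ Zn n := by
    intro x hx
    induction hx using AddSubgroup.closure_induction with
    | mem x hx =>
      obtain ⟨g, hg, y, hy, rfl⟩ := hx
      exact hDx g hg y hy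
    | zero => rw [smul_zero]; exact (Zn n).zero_mem
    | add x y _ _ hx hy => rw [smul_add]; exact (Zn n).add_mem hx hy
    | neg x _ hx => rw [smul_neg]; exact (Zn n).neg_mem hx
  have hinv : ∀ g ∈ Γ, ∀ x ∈ Λ, g x ∈ Λ := by
    intro g hg x hx
    induction hx using AddSubgroup.closure_induction with
    | mem x hx =>
      obtain ⟨h, hh, y, hy, rfl⟩ := hx
      exact AddSubgroup.subset_closure ⟨g * h, mul_mem hg hh, y, hy, rfl⟩
    | zero => rw [map_zero]; exact Λ.zero_mem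
    | add x y _ _ hx hy => rw [map_add]; exact Λ.add_mem hx hy
    | neg x _ hx => rw [map_neg]; exact Λ.neg_mem hx
  -- step 5
  apply le_antisymm _ hle
  rw [hΓ, Subgroup.closure_le]
  intro g hg
  obtain ⟨r, hr, hgr⟩ := hgen g hg
  have hgΓ := hg.1
  rw [hgr] at hgΓ
  obtain ⟨t, ht, hts⟩ := exists_root hr (fun x hx =>
    inv_lat hn Λ hLat D hD hDΛ (fun g hg => hinv g (hle hg)) (hinv _ hgΓ) hx)
  rw [hgr, ← hts]
  exact S_mem hn1 ht

/-- no group generated by reflections which contains W(L_n) with finite index is congruence -/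
theorem main2 (hn : 14 ≤ n) (Γ : Subgroup (V n ≃ₗ[ℝ] V n)) (hΓ : GenByRefl Γ) (hle : W n ≤ Γ)
    (hfin : (W n).relIndex Γ ≠ 0) : ¬ IsCongruence Γ := by
  rw [maxl (by omega) Γ hΓ hle hfin]
  exact main hn

end Pool.Agent.H25Cong

end
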