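import Pool.Agent.Helper25_Cong.Max2

namespace Pool.Agent.Results.MP_6d18f4_al.NonCongruence

open Pool.Agent.H25Cong

/-- For n >= 14 no group Γ generated by reflections which contains W(L_n) with finite index
(in particular, W(L_n) itself) is a congruence subgroup. -/
theorem result (n : ℕ) (hn : 14 ≤ n) (Γ : Subgroup (V n ≃ₗ[ℝ] V n)) (hΓ : GenByRefl Γ)
    (hle : W n ≤ Γ) (hfin : (W n).relIndex Γ ≠ 0) : ¬ IsCongruence Γ :=
  main2 hn Γ hΓ hle hfin

end Pool.Agent.Results.MP_6d18f4_al.NonCongruence
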