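import Pool.Agent.Helper25_Cong.Roots

open Finset

set_option linter.unusedSimpArgs false
set_option linter.unusedVariables false

noncomputable section

namespace Pool.Agent.H25Cong

variable {n : ℕ}

lemma ep_apply (i j : Fin (n + 1)) : (ep i : V n) j = if j = i then 1 else 0 := by
  simp [ep, Pi.single_apply]

/-- a reflection preserving the lattice is the reflection in a root -/
lemma exists_root {r : V n} (hr : 0 < B r r) (h : ∀ x ∈ Lat n, S r x ∈ Lat n) :
    ∃ t ∈ Rts n, S t = S r := by
  classical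
  have hr0 : B r r ≠ 0 := ne_of_gt hr
  obtain ⟨i, hi⟩ : ∃ i, r i ≠ 0 := by
    by_contra hcon
    push Not at hcon
    have : r = 0 := by ext i; exact hcon i
    rw [this] at hr
    simp at hr
  -- an integral multiple of r
  obtain ⟨lam, hlam0, hlam⟩ : ∃ lam : ℝ, lam ≠ 0 ∧ ∀ j, ∃ z : ℤ, lam * r j = z := by
    refine ⟨2 * B (ep i + ep i) r / B r r, ?_, ?_⟩
    · have : B (ep i + ep i) r ≠ 0 := by
        rw [B_comm, B_add_right, B_ep']
        split_ifs
        · intro hcon; apply hi; linarith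
        · intro hcon; apply hi; linarith
      positivity
    · intro j
      have h1 : (ep i + ep i) - S r (ep i + ep i) ∈ LatG n :=
        (LatG n).sub_mem ep_add_mem (h _ ep_add_mem)
      rw [S_apply, sub_sub_cancel] at h1
      obtain ⟨z, hz, -⟩ := h1
      refine ⟨z j, ?_⟩
      rw [← hz j, Pi.smul_apply, smul_eq_mul]
  -- the minimal one
  have hex : ∃ k : ℕ, 0 < k ∧ ∃ c : ℝ, c ≠ 0 ∧ (∀ j, ∃ z : ℤ, c * r j = z) ∧ |c * r i| = k := by
    obtain ⟨z, hz⟩ := hlam i
    refine ⟨z.natAbs, ?_, lam, hlam0, hlam, ?_⟩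
    · rw [Int.natAbs_pos]
      intro hcon
      rw [hcon] at hz
      have := mul_ne_zero hlam0 hi
      apply this
      simpa using hz
    · rw [hz, Nat.cast_natAbs, Int.cast_abs]
  obtain ⟨hk0, c, hc0, hcz, hck⟩ := Nat.find_spec hex
  set k := Nat.find hex with hkdef
  set t : V n := c • r with ht
  have htj : ∀ j, t j = c * r j := fun j => rfl
  have hprim : ∀ d : ℝ, (∀ j, ∃ z : ℤ, d * t j = z) → ∃ m : ℤ, d = m := by
    intro d hd
    by_cases hf : Int.fract d = 0
    · exact ⟨⌊d⌋, by rw [← Int.floor_add_fract d, hf]; simp⟩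
    · exfalso
      have hf0 : 0 < Int.fract d := lt_of_le_of_ne (Int.fract_nonneg d) (Ne.symm hf)
      have hf1 : Int.fract d < 1 := Int.fract_lt_one d
      have h2 : ∀ j, ∃ z : ℤ, (Int.fract d * c) * r j = z := by
        intro j
        obtain ⟨z, hz⟩ := hd j
        obtain ⟨w, hw⟩ := hcz j
        refine ⟨z - ⌊d⌋ * w, ?_⟩
        have e1 : Int.fract d = d - ⌊d⌋ := rfl
        have e2 : (d - ⌊d⌋) * c * r j = d * t j - ⌊d⌋ * (c * r j) := by rw [htj]; ring
        rw [e1, e2, hz, hw]
        push_cast; ring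
      obtain ⟨z, hz⟩ := h2 i
      have h3 : |Int.fract d * c * r i| = Int.fract d * k := by
        rw [mul_assoc, abs_mul, hck, abs_of_pos hf0]
      have h4 : z.natAbs < k := by
        have : ((z.natAbs : ℕ) : ℝ) < k := by
          rw [Nat.cast_natAbs, Int.cast_abs, ← hz, h3]
          have : (0 : ℝ) < k := by exact_mod_cast hk0
          nlinarith
        exact_mod_cast this
      apply Nat.find_min hex h4
      refine ⟨?_, Int.fract d * c, mul_ne_zero hf hc0, h2, ?_⟩
      · have : (0 : ℝ) < (z.natAbs : ℕ) := by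
          rw [Nat.cast_natAbs, Int.cast_abs, ← hz, h3]
          have : (0 : ℝ) < k := by exact_mod_cast hk0
          positivity
        exact_mod_cast this
      · rw [Nat.cast_natAbs, Int.cast_abs, ← hz]
  have hSt : S t = S r := S_smul c hc0 r
  choose z hz using hcz
  have htz : ∀ j, t j = z j := fun j => by rw [htj, hz]
  have hqpos : 0 < B t t := by
    rw [ht, B_smul_left, B_smul_right]
    have h1 : 0 < c * c := mul_self_pos.2 hc0
    have h2 := mul_pos h1 hr
    linarith
  obtain ⟨q, hq⟩ : ∃ q : ℤ, B t t = q := ⟨_, B_int htz htz⟩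
  have hq0 : 0 < q := by
    rw [hq] at hqpos; exact_mod_cast hqpos
  have hqr : (q : ℝ) ≠ 0 := by exact_mod_cast hq0.ne'
  -- 2 B(x,t)/q is an integer for x in L
  have hint : ∀ x ∈ Lat n, ∃ m : ℤ, 2 * B x t / q = m := by
    intro x hx
    apply hprim
    intro j
    have h1 : x - S t x ∈ LatG n := by
      rw [hSt]
      exact (LatG n).sub_mem hx (h _ hx)
    rw [S_apply, sub_sub_cancel, hq] at h1
    obtain ⟨w, hw, -⟩ := h1
    exact ⟨w j, by rw [← hw j, Pi.smul_apply, smul_eq_mul]⟩
  obtain ⟨m, hm⟩ : ∃ m : ℤ, (4 : ℝ) / q = m := by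
    apply hprim
    intro j
    obtain ⟨m, hm⟩ := hint (ep j + ep j) ep_add_mem
    rw [B_comm, B_add_right, B_ep'] at hm
    by_cases hj : j = 0
    · refine ⟨-m, ?_⟩
      push_cast
      rw [← hm, if_pos hj]; ring
    · refine ⟨m, ?_⟩
      rw [← hm, if_neg hj]; ring
  have hmq : m * q = 4 := by
    have : (m : ℝ) * q = 4 := by rw [← hm]; field_simp
    exact_mod_cast this
  have hq4 : q = 1 ∨ q = 2 ∨ q = 4 := by
    have h1 : q ≤ 4 := Int.le_of_dvd (by norm_num) ⟨m, by linarith⟩
    interval_cases q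
    · left; rfl
    · right; left; rfl
    · omega
    · right; right; rfl
  rcases hq4 with rfl | rfl | rfl
  · refine ⟨t, Or.inr ⟨?_, by rw [hq]; norm_num⟩, hSt⟩
    rintro y ⟨w, hw, -⟩
    exact ⟨_, B_int htz hw⟩
  · exact ⟨t, Or.inl ⟨int_even_of_even htz ⟨1, by rw [hq]; norm_num⟩, by rw [hq]; norm_num⟩, hSt⟩
  · refine ⟨(1 / 2 : ℝ) • t, Or.inr ⟨?_, ?_⟩, ?_⟩
    · -- all coordinates are odd
      have hpar : ∀ j, ∃ m : ℤ, z j = z 0 + 2 * m := by
        intro j
        by_cases hj : j = 0
        · exact ⟨0, by rw [hj]; ring⟩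
        · obtain ⟨m, hm⟩ := hint (ep j + ep 0) ep_add_mem
          rw [B_comm, B_add_right, B_ep', B_ep', if_neg hj, if_pos rfl, htz, htz] at hm
          refine ⟨m, ?_⟩
          have : (z j : ℝ) = z 0 + 2 * m := by
            rw [← hm]; push_cast; ring
          exact_mod_cast this
      have hodd : ∀ j, Odd (z j) := by
        have h0 : Odd (z 0) := by
          rw [← Int.not_even_iff_odd]
          rintro ⟨u, hu⟩
          obtain ⟨a, ha⟩ := hprim (1 / 2) (by
            intro j
            obtain ⟨m, hm⟩ := hpar j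
            refine ⟨u + m, ?_⟩
            rw [htz, hm, hu]
            push_cast; ring)
          have : (2 * a : ℤ) = 1 := by
            have : (2 * a : ℝ) = 1 := by rw [← ha]; norm_num
            exact_mod_cast this
          omega
        intro j
        obtain ⟨m, hm⟩ := hpar j
        rw [hm]
        exact h0.add_even (even_two_mul m)
      rintro y ⟨w, hw, hwe⟩
      have h1 : Even (∑ i, z i * w i) := by
        have h2 : Even ((∑ i, z i * w i) - ∑ i, w i) := by
          rw [← Finset.sum_sub_distrib]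
          apply Finset.even_sum
          intro i _
          obtain ⟨a, ha⟩ := hodd i
          rw [ha]
          exact ⟨a * w i, by ring⟩
        have := h2.add hwe
        simpa using this
      obtain ⟨a, ha⟩ := h1
      refine ⟨a - z 0 * w 0, ?_⟩
      rw [B_smul_left, B_int htz hw, ha]
      push_cast; ring
    · rw [B_smul_left, B_smul_right, hq]; norm_num
    · rw [S_smul _ (by norm_num), hSt]

lemma W_eq (hn : 1 ≤ n) : W n = Subgroup.closure (S '' Rts n) := by
  apply le_antisymm
  · rw [W, Subgroup.closure_le]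
    rintro g ⟨⟨r, hr, h1⟩, h2⟩
    have hg : g = S r := by
      ext1 x; rw [h1, S_apply]
    obtain ⟨t, ht, hts⟩ := exists_root hr (fun x hx => by rw [← hg]; exact h2 x hx)
    apply Subgroup.subset_closure
    exact ⟨t, ht, by rw [hts, hg]⟩
  · rw [Subgroup.closure_le]
    rintro g ⟨r, hr, rfl⟩
    apply Subgroup.subset_closure
    exact ⟨⟨r, Rts_pos hr, fun x => S_apply r x⟩, fun x hx => S_Lat hn hr hx⟩

lemma S_mem (hn : 1 ≤ n) {r : V n} (hr : r ∈ Rts n) : S r ∈ W n := by
  rw [W_eq hn]
  exact Subgroup.subset_closure ⟨r, hr, rfl⟩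

/-- the roots with a regular timelike vector form a root system in the abstract sense -/
lemma rootSys (hn : 1 ≤ n) {v : V n} (hv : B v v < 0) (hne : ∀ r ∈ Rts n, B r v ≠ 0) :
    RootSys (Rts n) v where
  tl := hv
  pos r hr := Rts_pos hr
  refl a ha b hb := S_Rts hn ha hb
  fin C := Rts_fin hn hv C
  red a ha c hc hca := Rts_red hn ha hc hca
  ne := hne

/-- the elements of W are isometries preserving L -/
lemma W_props (hn : 1 ≤ n) {g : V n ≃ₗ[ℝ] V n} (hg : g ∈ W n) :
    Isom g ∧ (∀ x ∈ Lat n, g x ∈ Lat n) ∧ (∀ x ∈ Lat n, g⁻¹ x ∈ Lat n) ∧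
      ∀ x : V n, B x x < 0 → 0 < x 0 → 0 < (g x) 0 := by
  rw [W_eq hn] at hg
  have h1 := time_pos (R := Rts n) (fun r hr => Rts_pos hr) hg
  refine ⟨h1.1, ?_, ?_, h1.2⟩
  · clear h1
    induction hg using Subgroup.closure_induction'' with
    | mem g hg => obtain ⟨r, hr, rfl⟩ := hg; exact fun x hx => S_Lat hn hr hx
    | inv_mem g hg =>
      obtain ⟨r, hr, rfl⟩ := hg; rw [S_inv]; exact fun x hx => S_Lat hn hr hx
    | one => exact fun x hx => hx
    | mul g h _ _ hg hh => exact fun x hx => hg _ (hh x hx)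
  · have hg' := inv_mem hg
    clear h1 hg
    generalize g⁻¹ = h at hg'
    induction hg' using Subgroup.closure_induction'' with
    | mem g hg => obtain ⟨r, hr, rfl⟩ := hg; exact fun x hx => S_Lat hn hr hx
    | inv_mem g hg =>
      obtain ⟨r, hr, rfl⟩ := hg; rw [S_inv]; exact fun x hx => S_Lat hn hr hx
    | one => exact fun x hx => hx
    | mul g h _ _ hg hh => exact fun x hx => hg _ (hh x hx)

end Pool.Agent.H25Cong

end
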